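import Pool.Agent.Run7.h89.Teich

/-!
Bounds `w_s(x) ≥ c` and overconvergence.
-/

set_option linter.unusedSectionVars false

namespace Run7.h89

open WittVector Filter

variable {p : ℕ} [hp : Fact p.Prime] {F : Type*} [Field F] [CharP F p] [PerfectRing F p]
variable (v : Valuation F NNReal)

theorem one_le_p : (1 : NNReal) ≤ (p : NNReal) := by
  exact_mod_cast hp.out.one_le

theorem one_lt_p : (1 : NNReal) < (p : NNReal) := by
  exact_mod_cast hp.out.one_lt

theorem p_pos : (0 : NNReal) < (p : NNReal) := by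
  exact_mod_cast hp.out.pos

theorem p_ne : (p : NNReal) ≠ 0 := (p_pos (p := p)).ne'

theorem rp_mono {a b : ℝ} (h : a ≤ b) : (p : NNReal) ^ a ≤ (p : NNReal) ^ b :=
  NNReal.rpow_le_rpow_of_exponent_le one_le_p h

theorem rp_add (a b : ℝ) : (p : NNReal) ^ a * (p : NNReal) ^ b = (p : NNReal) ^ (a + b) :=
  (NNReal.rpow_add p_ne a b).symm

/-- `w_s(x) ≥ c` -/
def Bd (s c : ℝ) (x : WittVector p F) : Prop :=
  ∀ k : ℕ, v (tc x k) ≤ (p : NNReal) ^ (((k : ℝ) - c) / s)

/-- overconvergence -/
def OC (s : ℝ) (x : WittVector p F) : Prop :=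
  ∀ c : ℝ, ∀ᶠ k : ℕ in atTop, v (tc x k) ≤ (p : NNReal) ^ (((k : ℝ) - c) / s)

variable {v}

theorem Bd.mono {s c c' : ℝ} (hs : 0 < s) (h : c' ≤ c) {x : WittVector p F} (hx : Bd v s c x) :
    Bd v s c' x := fun k =>
  (hx k).trans (rp_mono (by gcongr))

theorem Bd.zero {s c : ℝ} : Bd v s c (0 : WittVector p F) := fun k => by simp

theorem Bd.add {s c : ℝ} (hs : 0 < s) {x y : WittVector p F} (hx : Bd v s c x)
    (hy : Bd v s c y) : Bd v s c (x + y) := fun k => by
  refine tc_add_le v (fun i hi => (hx i).trans (rp_mono ?_)) (fun i hi => (hy i).trans (rp_mono ?_))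
  all_goals
    have : (i : ℝ) ≤ k := by exact_mod_cast hi
    gcongr

theorem Bd.neg {s c : ℝ} (hs : 0 < s) {x : WittVector p F} (hx : Bd v s c x) :
    Bd v s c (-x) := fun k => by
  refine tc_neg_one_mul_le v (fun i hi => (hx i).trans (rp_mono ?_))
  have : (i : ℝ) ≤ k := by exact_mod_cast hi
  gcongr

theorem Bd.sub {s c : ℝ} (hs : 0 < s) {x y : WittVector p F} (hx : Bd v s c x)
    (hy : Bd v s c y) : Bd v s c (x - y) := by
  rw [sub_eq_add_neg]; exact hx.add hs (hy.neg hs)

theorem Bd.sum {s c : ℝ} (hs : 0 < s) {ι : Type*} {S : Finset ι} {f : ι → WittVector p F}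
    (h : ∀ i ∈ S, Bd v s c (f i)) : Bd v s c (∑ i ∈ S, f i) := by
  classical
  induction S using Finset.induction_on with
  | empty => simpa using Bd.zero
  | insert a S ha ih =>
    rw [Finset.sum_insert ha]
    exact (h a (Finset.mem_insert_self _ _)).add hs
      (ih fun i hi => h i (Finset.mem_insert_of_mem hi))

theorem Bd.mul {s c c' : ℝ} (hs : 0 < s) {x y : WittVector p F} (hx : Bd v s c x)
    (hy : Bd v s c' y) : Bd v s (c + c') (x * y) := fun k => by
  refine tc_mul_le v fun i j hij => ?_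
  calc v (tc x i) * v (tc y j) ≤ (p : NNReal) ^ (((i : ℝ) - c) / s) *
      (p : NNReal) ^ (((j : ℝ) - c') / s) := by gcongr; exacts [hx i, hy j]
    _ = (p : NNReal) ^ (((i : ℝ) - c) / s + ((j : ℝ) - c') / s) := rp_add _ _
    _ ≤ (p : NNReal) ^ (((k : ℝ) - (c + c')) / s) := by
        refine rp_mono ?_
        rw [← add_div]
        have : (i : ℝ) + j ≤ k := by exact_mod_cast hij
        gcongr
        linarith

theorem Bd.teich {s c : ℝ} {a : F} (h : v a ≤ (p : NNReal) ^ (-c / s)) :
    Bd v s c (teichmuller p a) := fun k => by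
  rw [tc_teichmuller]
  split_ifs with h'
  · subst h'; simpa using h
  · simp

theorem Bd.one {s : ℝ} : Bd v s 0 (1 : WittVector p F) := by
  have : Bd v s 0 (teichmuller p (1 : F)) := Bd.teich (by simp)
  simpa using this

theorem Bd.p_mul {s c : ℝ} {x : WittVector p F} (hx : Bd v s c x) :
    Bd v s (c + 1) ((p : WittVector p F) * x) := fun k => by
  cases k with
  | zero => rw [tc_p_mul_zero]; simp
  | succ k =>
    rw [tc_p_mul_succ]
    refine (hx k).trans (le_of_eq ?_)
    congr 1
    push_cast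
    ring

theorem Bd.of_p_mul {s c : ℝ} {x : WittVector p F} (hx : Bd v s (c + 1) ((p : WittVector p F) * x)) :
    Bd v s c x := fun k => by
  have := hx (k + 1)
  rw [tc_p_mul_succ] at this
  refine this.trans (le_of_eq ?_)
  congr 1
  push_cast
  ring

theorem Bd.p_pow_mul {s c : ℝ} {x : WittVector p F} (hx : Bd v s c x) (n : ℕ) :
    Bd v s (c + n) ((p : WittVector p F) ^ n * x) := by
  induction n with
  | zero => simpa using hx
  | succ n ih =>
    have := ih.p_mul
    rw [← mul_assoc, ← pow_succ'] at this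
    push_cast
    rwa [← add_assoc]

theorem Bd.of_p_pow_mul {s c : ℝ} {x : WittVector p F} {n : ℕ}
    (hx : Bd v s (c + n) ((p : WittVector p F) ^ n * x)) : Bd v s c x := by
  induction n with
  | zero => simpa using hx
  | succ n ih =>
    refine ih (Bd.of_p_mul ?_)
    rw [← mul_assoc, ← pow_succ']
    push_cast at hx
    rwa [← add_assoc] at hx

theorem Bd.of_tc_le_one {s : ℝ} (hs : 0 < s) {x : WittVector p F} (h : ∀ k, v (tc x k) ≤ 1) :
    Bd v s 0 x := fun k => by
  refine (h k).trans ?_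
  rw [← NNReal.rpow_zero (p : NNReal)]
  exact rp_mono (by rw [sub_zero]; positivity)

theorem Bd.of_wint {s : ℝ} (hs : 0 < s) {x : WittVector p F} (h : x ∈ wint (p := p) v) :
    Bd v s 0 x := Bd.of_tc_le_one hs fun k => tc_le_of_wint v h k

theorem Bd.natCast {s : ℝ} (hs : 0 < s) (n : ℕ) : Bd v s 0 ((n : WittVector p F)) :=
  Bd.of_wint hs (natCast_mem _ n)

theorem Bd.intCast {s : ℝ} (hs : 0 < s) (n : ℤ) : Bd v s 0 ((n : WittVector p F)) :=
  Bd.of_wint hs (intCast_mem _ n)

theorem Bd.p_natCast {s : ℝ} (hs : 0 < s) {n : ℕ} (hn : p ∣ n) :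
    Bd v s 1 ((n : WittVector p F)) := by
  obtain ⟨m, rfl⟩ := hn
  have := (Bd.natCast (p := p) (v := v) hs m).p_mul
  push_cast
  simpa using this

/-- closedness for the `p`-adic topology. -/
theorem Bd.closed {s c : ℝ} {x : WittVector p F}
    (h : ∀ N : ℕ, ∃ y, (p : WittVector p F) ^ N ∣ x - y ∧ Bd v s c y) : Bd v s c x := fun k => by
  obtain ⟨y, h1, h2⟩ := h (k + 1)
  rw [tc_congr h1 (Nat.lt_succ_self k)]
  exact h2 k

theorem Bd.scale {s s' c : ℝ} (hs' : 0 < s') (h : s' ≤ s) {x : WittVector p F}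
    (hx : Bd v s c x) : Bd v s' (c * s' / s) x := fun k => by
  have hs : 0 < s := lt_of_lt_of_le hs' h
  refine (hx k).trans (rp_mono ?_)
  rw [div_le_div_iff₀ hs hs']
  have : ((k : ℝ) - c * s' / s) * s = k * s - c * s' := by field_simp
  rw [this, sub_mul]
  have h1 : (k : ℝ) * s' ≤ k * s := by gcongr
  linarith

theorem OC.bd {s : ℝ} (hs : 0 < s) {x : WittVector p F} (hx : OC v s x) :
    ∃ c, Bd v s c x := by
  obtain ⟨N, hN⟩ := eventually_atTop.1 (hx 0)
  -- bound for the first N terms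
  have h1 : ∀ k : ℕ, ∃ c : ℝ, c ≤ 0 ∧ v (tc x k) ≤ (p : NNReal) ^ (((k : ℝ) - c) / s) := by
    intro k
    have h3 : Tendsto (fun m : ℕ => (p : NNReal) ^ m) atTop atTop :=
      tendsto_pow_atTop_atTop_of_one_lt one_lt_p
    obtain ⟨m, hm⟩ := (h3.eventually_ge_atTop (v (tc x k))).exists
    refine ⟨-(m * s), by simpa using (by positivity : 0 ≤ (m : ℝ) * s), hm.trans ?_⟩
    rw [← NNReal.rpow_natCast]
    refine rp_mono ?_
    rw [le_div_iff₀ hs]
    have : (0 : ℝ) ≤ k := by positivity
    linarith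
  choose C hC0 hC using h1
  refine ⟨∑ k ∈ Finset.range N, C k, fun k => ?_⟩
  by_cases hk : k < N
  · refine (hC k).trans (rp_mono ?_)
    have : ∑ k ∈ Finset.range N, C k ≤ C k :=
      by
        have h4 := Finset.single_le_sum (f := fun i => - C i) (s := Finset.range N)
          (fun i _ => by simpa using hC0 i) (Finset.mem_range.2 hk)
        simp only [Finset.sum_neg_distrib] at h4
        linarith
    gcongr
  · refine (hN k (not_lt.1 hk)).trans (rp_mono ?_)
    have : ∑ k ∈ Finset.range N, C k ≤ 0 := Finset.sum_nonpos fun i _ => hC0 i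
    gcongr

theorem Bd.oc {s s' c : ℝ} (hs' : 0 < s') (h : s' < s) {x : WittVector p F}
    (hx : Bd v s c x) : OC v s' x := fun c' => by
  have hs : 0 < s := hs'.trans h
  have h1 : ∀ᶠ k : ℕ in atTop, (s * c' - s' * c) / (s - s') ≤ (k : ℝ) :=
    (tendsto_natCast_atTop_atTop (R := ℝ)).eventually_ge_atTop _
  filter_upwards [h1] with k hk
  refine (hx k).trans (rp_mono ?_)
  rw [div_le_iff₀ (by linarith)] at hk
  rw [div_le_div_iff₀ hs hs']
  nlinarith

theorem OC.scale {s s' : ℝ} (hs' : 0 < s') (h : s' ≤ s) {x : WittVector p F} (hx : OC v s x) :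
    OC v s' x := by
  rcases h.lt_or_eq with h | h
  · obtain ⟨c, hc⟩ := hx.bd (hs'.trans h)
    exact hc.oc hs' h
  · rwa [h]

theorem OC.zero {s : ℝ} : OC v s (0 : WittVector p F) := fun c => by simp

theorem OC.of_tc_le_one {s : ℝ} (hs : 0 < s) {x : WittVector p F} (h : ∀ k, v (tc x k) ≤ 1) :
    OC v s x := (Bd.of_tc_le_one (s := s + 1) (by linarith) h).oc hs (by linarith)

theorem OC.one {s : ℝ} (hs : 0 < s) : OC v s (1 : WittVector p F) :=
  (Bd.one (s := s + 1)).oc hs (by linarith)

theorem eventually_const_le {s : ℝ} (hs : 0 < s) (M : NNReal) (c : ℝ) :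
    ∀ᶠ k : ℕ in atTop, M ≤ (p : NNReal) ^ (((k : ℝ) - c) / s) := by
  have h3 : Tendsto (fun m : ℕ => (p : NNReal) ^ m) atTop atTop :=
    tendsto_pow_atTop_atTop_of_one_lt one_lt_p
  obtain ⟨m, hm⟩ := (h3.eventually_ge_atTop M).exists
  have h1 : ∀ᶠ k : ℕ in atTop, m * s + c ≤ (k : ℝ) :=
    (tendsto_natCast_atTop_atTop (R := ℝ)).eventually_ge_atTop _
  filter_upwards [h1] with k hk
  refine hm.trans ?_
  rw [← NNReal.rpow_natCast]
  refine rp_mono ?_
  rw [le_div_iff₀ hs]
  linarith

theorem OC.add {s : ℝ} (hs : 0 < s) {x y : WittVector p F} (hx : OC v s x) (hy : OC v s y) :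
    OC v s (x + y) := fun c => by
  obtain ⟨N, hN⟩ := eventually_atTop.1 ((hx c).and (hy c))
  set M : NNReal := ∑ k ∈ Finset.range N, (v (tc x k) + v (tc y k)) with hM
  filter_upwards [eventually_const_le (p := p) hs M c] with k hk
  refine tc_add_le v (fun i hi => ?_) (fun i hi => ?_)
  · by_cases hi2 : i < N
    · refine le_trans ?_ hk
      refine le_trans (le_add_of_nonneg_right zero_le) (Finset.single_le_sum
        (f := fun k => (v (tc x k) + v (tc y k))) (fun _ _ => zero_le) (Finset.mem_range.2 hi2))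
    · refine ((hN i (not_lt.1 hi2)).1).trans (rp_mono ?_)
      have : (i : ℝ) ≤ k := by exact_mod_cast hi
      gcongr
  · by_cases hi2 : i < N
    · refine le_trans ?_ hk
      refine le_trans (le_add_of_nonneg_left zero_le) (Finset.single_le_sum
        (f := fun k => (v (tc x k) + v (tc y k))) (fun _ _ => zero_le) (Finset.mem_range.2 hi2))
    · refine ((hN i (not_lt.1 hi2)).2).trans (rp_mono ?_)
      have : (i : ℝ) ≤ k := by exact_mod_cast hi
      gcongr

theorem OC.neg {s : ℝ} (hs : 0 < s) {x : WittVector p F} (hx : OC v s x) :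
    OC v s (-x) := fun c => by
  obtain ⟨N, hN⟩ := eventually_atTop.1 (hx c)
  set M : NNReal := ∑ k ∈ Finset.range N, (v (tc x k)) with hM
  filter_upwards [eventually_const_le (p := p) hs M c] with k hk
  refine tc_neg_one_mul_le v (fun i hi => ?_)
  by_cases hi2 : i < N
  · refine le_trans ?_ hk
    exact (Finset.single_le_sum
      (f := fun k => (v (tc x k))) (fun _ _ => zero_le) (Finset.mem_range.2 hi2))
  · refine ((hN i (not_lt.1 hi2))).trans (rp_mono ?_)
    have : (i : ℝ) ≤ k := by exact_mod_cast hi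
    gcongr

theorem OC.mul {s : ℝ} (hs : 0 < s) {x y : WittVector p F} (hx : OC v s x) (hy : OC v s y) :
    OC v s (x * y) := fun c => by
  obtain ⟨cx, hcx⟩ := hx.bd hs
  obtain ⟨cy, hcy⟩ := hy.bd hs
  obtain ⟨N1, hN1⟩ := eventually_atTop.1 (hx (c - cy))
  obtain ⟨N2, hN2⟩ := eventually_atTop.1 (hy (c - cx))
  set M : NNReal := ∑ i ∈ Finset.range N1, ∑ j ∈ Finset.range N2, (v (tc x i) * v (tc y j)) with hM
  filter_upwards [eventually_const_le (p := p) hs M c] with k hk
  refine tc_mul_le v fun i j hij => ?_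
  have hij' : (i : ℝ) + j ≤ k := by exact_mod_cast hij
  by_cases hi : i < N1
  · by_cases hj : j < N2
    · refine le_trans ?_ hk
      refine le_trans ?_ (Finset.single_le_sum
        (f := fun i => ∑ j ∈ Finset.range N2, (v (tc x i) * v (tc y j)))
        (fun _ _ => zero_le) (Finset.mem_range.2 hi))
      exact (Finset.single_le_sum
        (f := fun j => (v (tc x i) * v (tc y j)))
        (fun _ _ => zero_le) (Finset.mem_range.2 hj))
    · calc v (tc x i) * v (tc y j) ≤ (p : NNReal) ^ (((i : ℝ) - cx) / s) *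
          (p : NNReal) ^ (((j : ℝ) - (c - cx)) / s) := by
            gcongr; exacts [hcx i, hN2 j (not_lt.1 hj)]
        _ = (p : NNReal) ^ (((i : ℝ) - cx) / s + ((j : ℝ) - (c - cx)) / s) := rp_add _ _
        _ ≤ (p : NNReal) ^ (((k : ℝ) - c) / s) := by
            refine rp_mono ?_
            rw [← add_div]
            gcongr
            linarith
  · calc v (tc x i) * v (tc y j) ≤ (p : NNReal) ^ (((i : ℝ) - (c - cy)) / s) *
          (p : NNReal) ^ (((j : ℝ) - cy) / s) := by
            gcongr; exacts [hN1 i (not_lt.1 hi), hcy j]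
        _ = (p : NNReal) ^ (((i : ℝ) - (c - cy)) / s + ((j : ℝ) - cy) / s) := rp_add _ _
        _ ≤ (p : NNReal) ^ (((k : ℝ) - c) / s) := by
            refine rp_mono ?_
            rw [← add_div]
            gcongr
            linarith

theorem OC.of_p_mul {s : ℝ} {x : WittVector p F}
    (hx : OC v s ((p : WittVector p F) * x)) : OC v s x := fun c => by
  obtain ⟨N, hN⟩ := eventually_atTop.1 (hx (c + 1))
  refine eventually_atTop.2 ⟨N, fun k hk => ?_⟩
  have := hN (k + 1) (by omega)
  rw [tc_p_mul_succ] at this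
  refine this.trans (le_of_eq ?_)
  congr 1
  push_cast
  ring

theorem OC.of_p_pow_mul {s : ℝ} {x : WittVector p F} {n : ℕ}
    (hx : OC v s ((p : WittVector p F) ^ n * x)) : OC v s x := by
  induction n with
  | zero => simpa using hx
  | succ n ih =>
    refine ih (OC.of_p_mul ?_)
    rwa [← mul_assoc, ← pow_succ']

/-- inverses of units -/
theorem exists_inv {s : ℝ} (hs : 0 < s) {x : WittVector p F} (hx : OC v s x)
    (h0 : x.coeff 0 ≠ 0) :
    ∃ s', 0 < s' ∧ s' ≤ s ∧ ∃ y, x * y = 1 ∧ OC v s' y := by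
  set a := x.coeff 0 with ha
  set b : WittVector p F := teichmuller p a⁻¹ * x with hb
  have hb0 : (p : WittVector p F) ∣ 1 - b := by
    have : (p : WittVector p F) ^ 1 ∣ 1 - b := by
      refine dvd_sub_of_tc fun k hk => ?_
      have hk0 : k = 0 := by omega
      subst hk0
      rw [hb, tc_teichmuller_mul, tc_zero_right, tc_zero_right, ← ha, inv_mul_cancel₀ h0]
      simp
    simpa using this
  obtain ⟨u, hu⟩ := hb0
  have hbOC : OC v s b := by
    refine OC.mul hs ?_ hx
    intro c
    filter_upwards [eventually_gt_atTop 0] with k hk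
    rw [tc_teichmuller, if_neg (by omega)]
    simp
  have huOC : OC v s u := by
    refine OC.of_p_mul ?_
    rw [← hu, sub_eq_add_neg]
    exact (OC.one hs).add hs (hbOC.neg hs)
  obtain ⟨c, hc⟩ := huOC.bd hs
  -- choose s1 small
  obtain ⟨s1, hs1, hs1s, hs1c⟩ : ∃ s1, 0 < s1 ∧ s1 ≤ s ∧ -(1/2) ≤ c * s1 / s := by
    refine ⟨s / (2 * (|c| + 1)), by positivity, ?_, ?_⟩
    · rw [div_le_iff₀ (by positivity)]
      have : 0 ≤ |c| := abs_nonneg c
      nlinarith
    · have h2 : c * (s / (2 * (|c| + 1))) / s = c / (2 * (|c| + 1)) := by field_simp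
      rw [h2, le_div_iff₀ (by positivity)]
      have := neg_abs_le c
      have := abs_nonneg c
      nlinarith
  have hc1 : Bd v s1 (-(1/2)) u := (hc.scale hs1 hs1s).mono hs1 hs1c
  have hpu : Bd v s1 (1/2) ((p : WittVector p F) * u) := by
    have := hc1.p_mul
    norm_num at this
    simpa using this
  have hpow : ∀ n : ℕ, Bd v s1 0 (((p : WittVector p F) * u) ^ n) := by
    intro n
    induction n with
    | zero => simpa using Bd.one
    | succ n ih =>
      rw [pow_succ]
      exact (ih.mul hs1 hpu).mono hs1 (by norm_num)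
  -- the inverse of b
  have hbu : b = 1 - (p : WittVector p F) * u := by rw [← hu]; ring
  have hcoeff0 : b.coeff 0 ≠ 0 := by
    rw [← tc_zero_right, hb, tc_teichmuller_mul, tc_zero_right, ← ha, inv_mul_cancel₀ h0]
    exact one_ne_zero
  have hbunit : IsUnit b := WittVector.isUnit_of_coeff_zero_ne_zero b hcoeff0
  obtain ⟨z, hz⟩ := hbunit.exists_right_inv
  have hzB : Bd v s1 0 z := by
    refine Bd.closed fun N => ⟨∑ i ∈ Finset.range N, ((p : WittVector p F) * u) ^ i, ?_, ?_⟩
    · have h1 : (∑ i ∈ Finset.range N, ((p : WittVector p F) * u) ^ i) * b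
          = 1 - ((p : WittVector p F) * u) ^ N := by
        rw [hbu]
        exact geom_sum_mul_neg _ _
      have h2 : z - ∑ i ∈ Finset.range N, ((p : WittVector p F) * u) ^ i
          = z * ((p : WittVector p F) * u) ^ N := by
        have : ∑ i ∈ Finset.range N, ((p : WittVector p F) * u) ^ i
            = (∑ i ∈ Finset.range N, ((p : WittVector p F) * u) ^ i) * (b * z) := by
          rw [hz, mul_one]
        rw [this, ← mul_assoc, h1]
        ring
      rw [h2, mul_pow]
      exact Dvd.intro (z * u ^ N) (by ring)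
    · exact Bd.sum hs1 fun i _ => hpow i
  refine ⟨s1 / 2, by positivity, by linarith, teichmuller p a⁻¹ * z, ?_, ?_⟩
  · rw [← hz, hb]; ring
  · refine OC.mul (by positivity) ?_ (hzB.oc (by positivity) (by linarith))
    intro c
    filter_upwards [eventually_gt_atTop 0] with k hk
    rw [tc_teichmuller, if_neg (by omega)]
    simp

section frob

/-- Frobenius. -/
theorem tc_frobenius (x : WittVector p F) (k : ℕ) :
    tc (WittVector.frobenius x) k = tc x k ^ p := by
  rw [tc_eq_iff, WittVector.coeff_frobenius_charP, ← tc_pow x k, ← pow_mul, ← pow_mul, mul_comm]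

theorem bd_frobenius_iff {s c : ℝ} (hs : 0 < s) {x : WittVector p F} :
    Bd v (s / p) c (WittVector.frobenius x) ↔ Bd v s c x := by
  refine forall_congr' fun k => ?_
  rw [tc_frobenius, map_pow]
  have hp0 : (p : ℝ) ≠ 0 := by exact_mod_cast hp.out.ne_zero
  have : (p : NNReal) ^ (((k : ℝ) - c) / (s / p)) = ((p : NNReal) ^ (((k : ℝ) - c) / s)) ^ p := by
    rw [← NNReal.rpow_mul_natCast]
    congr 1
    field_simp
  rw [this]
  exact pow_le_pow_iff_left₀ zero_le zero_le hp.out.ne_zero

theorem oc_frobenius_iff {s : ℝ} (hs : 0 < s) {x : WittVector p F} :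
    OC v (s / p) (WittVector.frobenius x) ↔ OC v s x := by
  refine forall_congr' fun c => eventually_congr (Eventually.of_forall fun k => ?_)
  rw [tc_frobenius, map_pow]
  have hp0 : (p : ℝ) ≠ 0 := by exact_mod_cast hp.out.ne_zero
  have : (p : NNReal) ^ (((k : ℝ) - c) / (s / p)) = ((p : NNReal) ^ (((k : ℝ) - c) / s)) ^ p := by
    rw [← NNReal.rpow_mul_natCast]
    congr 1
    field_simp
  rw [this]
  exact pow_le_pow_iff_left₀ zero_le zero_le hp.out.ne_zero

end frob

section map

theorem tc_map (σ : F →+* F) (x : WittVector p F) (k : ℕ) :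
    tc (WittVector.map σ x) k = σ (tc x k) := by
  rw [tc_eq_iff, WittVector.map_coeff, ← tc_pow x k, map_pow]

theorem Bd.map {s c : ℝ} {σ : F →+* F} (hσ : ∀ a, v (σ a) = v a) {x : WittVector p F}
    (hx : Bd v s c x) : Bd v s c (WittVector.map σ x) := fun k => by
  rw [tc_map, hσ]; exact hx k

theorem OC.map {s : ℝ} {σ : F →+* F} (hσ : ∀ a, v (σ a) = v a) {x : WittVector p F}
    (hx : OC v s x) : OC v s (WittVector.map σ x) := fun c => by
  filter_upwards [hx c] with k hk
  rw [tc_map, hσ]; exact hk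

end map

end Run7.h89
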