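import Pool.Agent.Run7.h89.Setup

/-!
# The structure theorem
-/

set_option linter.unusedSectionVars false

namespace Run7.h89.Ked

open scoped NNReal Topology TensorProduct
open WittVector Filter

section general

variable {p : ℕ} [hp : Fact p.Prime] {F : Type*} [Field F] [CharP F p] [PerfectRing F p]
variable {h : ℕ}

theorem indep {n : ℕ} {ι : Fin n → Fin h} {b : Fin n → Fin h → WittVector p F}
    (hdet : (Mx b ι).det ≠ 0) (c : Fin n → WittVector p F)
    (hc : (fun i => ∑ j, c j * b j i) = 0) : ∀ j, c j = 0 := by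
  intro j
  have e1 := cramer_combo b ι c 0 hc.symm j
  have e2 : (Mx (Function.update b j 0) ι).det = 0 := by
    refine Matrix.det_eq_zero_of_column_eq_zero j fun i => ?_
    simp [Mx]
  rw [e2] at e1
  exact (mul_eq_zero.1 e1.symm).resolve_left hdet

theorem frob_iter_OC {v : Valuation F ℝ≥0} {x : WittVector p F} (k : ℕ) : ∀ s : ℝ, 0 < s →
    (OC v s ((WittVector.frobenius : WittVector p F →+* _)^[k] x) ↔ OC v (s * p ^ k) x) := by
  have hp0 : (0 : ℝ) < p := by exact_mod_cast hp.out.pos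
  induction k with
  | zero => intro s hs; simp
  | succ k ih =>
    intro s hs
    rw [Function.iterate_succ_apply']
    have e := oc_frobenius_iff (v := v) (s := s * p) (by positivity)
      (x := (WittVector.frobenius : WittVector p F →+* _)^[k] x)
    rw [mul_div_cancel_right₀ _ hp0.ne'] at e
    rw [e, ih _ (by positivity)]
    have e2 : s * (p : ℝ) ^ (k + 1) = s * p * p ^ k := by ring
    rw [e2]

end general

namespace Setup

variable (S : Setup)

/-- the condition `x = N x_ι` -/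
def InSpan {n : ℕ} (ι : Fin n → Fin S.h) (N0 : Matrix (Fin S.h) (Fin n) ℤ_[S.p])
    (x : S.AtT) : Prop :=
  ∀ i, x i = ∑ k, S.zpA (N0 i k) * x (ι k)

variable (r : {r : ℝ // 0 < r})

theorem mem_DSub_iff {n : ℕ} {ι : Fin n → Fin S.h}
    {N0 : Matrix (Fin S.h) (Fin n) ℤ_[S.p]} (hN : N0.submatrix ι id = 1) (x0 : S.D r) :
    x0 ∈ S.DSub r (LinearMap.range N0.mulVecLin) ↔ S.InSpan ι N0 (S.inclD r x0) := by
  have hx : ∀ i, S.inclD r x0 i ∈ S.ringA r := x0.2.1
  change (∃ (m : ℕ) (a : Fin m → S.At) (t : Fin m → S.T), (∀ j, a j ∈ S.ringA r) ∧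
    (∀ j, t j ∈ LinearMap.range N0.mulVecLin) ∧ ∀ i, S.inclD r x0 i =
      ∑ j, a j * S.zpA (t j i)) ↔ _
  generalize S.inclD r x0 = x at hx ⊢
  have h1 : ∀ (u : Fin n → ℤ_[S.p]) k, (N0.mulVecLin u) (ι k) = u k := by
    intro u k
    have e : (N0.submatrix ι id).mulVec u = u := by rw [hN, Matrix.one_mulVec]
    exact congrFun e k
  constructor
  · rintro ⟨m, a, t, ha, ht, hxt⟩ i
    choose u hu using ht
    have h2 : ∀ j i, S.zpA (t j i) = ∑ k, S.zpA (N0 i k) * S.zpA (t j (ι k)) := by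
      intro j i
      rw [← hu j]
      simp only [h1]
      have e2 : N0.mulVecLin (u j) i = ∑ k, N0 i k * u j k := rfl
      rw [e2, map_sum]
      exact Finset.sum_congr rfl fun k _ => map_mul _ _ _
    rw [hxt i]
    have h3 : ∀ k, x (ι k) = ∑ j, a j * S.zpA (t j (ι k)) := fun k => hxt (ι k)
    simp only [h3, Finset.mul_sum]
    rw [Finset.sum_comm]
    refine Finset.sum_congr rfl fun j _ => ?_
    rw [h2 j i, Finset.mul_sum]
    exact Finset.sum_congr rfl fun k _ => by ring
  · intro hsp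
    refine ⟨n, fun k => x (ι k), fun k => N0.mulVecLin (Pi.single k 1), fun k => hx _,
      fun k => ⟨_, rfl⟩, fun i => ?_⟩
    rw [hsp i]
    refine Finset.sum_congr rfl fun k _ => ?_
    rw [mul_comm]
    congr 2
    simp

/-- the embedding of the locally analytic vectors into `Ã^h`. -/
noncomputable def emb : S.Dla r →+ S.AtT :=
  (S.inclD r).toAddMonoidHom.comp (S.inclDla r).toAddMonoidHom

theorem emb_smul (c : S.AKla r) (x : S.Dla r) (i : Fin S.h) :
    S.emb r (c • x) i = S.inclAK r (algebraMap _ _ c) * S.emb r x i := rfl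

theorem emb_injective : Function.Injective (S.emb r) := fun _ _ hxy =>
  Subtype.ext (Subtype.ext hxy)

theorem det_ne_zero_of_good {s : ℝ} {n : ℕ} {ι : Fin n → Fin S.h} {b : Fin n → S.AtT}
    (hb : S.toDat.Good s ι b) : (Mx (R := WittVector S.p (CFlat S.p)) b ι).det ≠ 0 := by
  obtain ⟨w, hw, _⟩ := hb.2.1
  intro h0
  rw [h0, zero_mul] at hw
  exact zero_ne_one hw

theorem exists_basis {n : ℕ} {ι : Fin n → Fin S.h} {b : Fin n → S.AtT}
    (hb : S.toDat.Good (S.sr r) ι b) :
    ∃ B : Module.Basis (Fin n) (S.AKla r) (S.Dla r), ∀ j, S.emb r (B j) = b j := by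
  have hdet := S.det_ne_zero_of_good hb
  obtain ⟨h1, ⟨w, hw, hwOC⟩, h3⟩ := hb
  have hmemD : ∀ j, b j ∈ S.modD r := fun j =>
    ⟨fun i => (S.isOC_iff r _).2 ((h1 j).1 i), (h1 j).2.1⟩
  set bD : Fin n → S.D r := fun j => ⟨b j, hmemD j⟩ with hbD
  have hmemLa : ∀ j, bD j ∈ S.modLa r := fun j => (S.inclD_iff r (bD j)).2 (h1 j)
  set B0 : Fin n → S.Dla r := fun j => ⟨bD j, hmemLa j⟩ with hB0
  have hcomb : ∀ c : Fin n → S.AKla r, S.emb r (∑ j, c j • B0 j) =
      fun i => ∑ j, S.inclAK r (algebraMap _ _ (c j)) * b j i := by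
    intro c
    rw [map_sum]
    have : ∀ (f : Fin n → S.AtT) (i : Fin S.h), (∑ j, f j) i = ∑ j, f j i := by
      intro f i
      exact Finset.sum_apply i Finset.univ f
    funext i
    rw [this]
    rfl
  have hli : LinearIndependent (S.AKla r) B0 := by
    refine (Fintype.linearIndependent_iff (ι := Fin n) (R := S.AKla r) (v := B0)).2 ?_
    intro c hc j
    have e1 := hcomb c
    rw [hc, map_zero] at e1
    have e2 := indep (p := S.p) (F := CFlat S.p) hdet _ e1.symm j
    exact Subtype.ext (Subtype.ext e2)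
  have hsp : ⊤ ≤ Submodule.span (S.AKla r) (Set.range B0) := by
    intro x _
    obtain ⟨c, hc, hxc⟩ := h3 _ ((S.inclD_iff r (S.inclDla r x)).1 x.2)
    have hcK : ∀ j, c j ∈ S.ringAK r := fun j =>
      ⟨(S.isOC_iff r _).2 (hc j).1, (hc j).2.1⟩
    set cK : Fin n → S.AK r := fun j => ⟨c j, hcK j⟩ with hcKdef
    have hcLa : ∀ j, cK j ∈ S.ringLa r := fun j => (S.inclAK_iff r (cK j)).2 (hc j)
    set cL : Fin n → S.AKla r := fun j => ⟨cK j, hcLa j⟩ with hcLdef
    have e1 : x = ∑ j, cL j • B0 j := by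
      apply S.emb_injective r
      rw [hcomb]
      exact hxc
    rw [e1]
    exact Submodule.sum_mem _ fun j _ => Submodule.smul_mem _ _
      (Submodule.subset_span ⟨j, rfl⟩)
  refine ⟨Module.Basis.mk hli hsp, fun j => ?_⟩
  rw [Module.Basis.mk_apply]
  rfl

theorem mulMap_sum {n : ℕ} (B : Module.Basis (Fin n) (S.AKla r) (S.Dla r))
    (c : Fin n → S.AK r) :
    S.inclD r (S.mulLin r (∑ j, c j ⊗ₜ B j)) =
      fun i => ∑ j, S.inclAK r (c j) * S.emb r (B j) i := by
  have e1 : S.mulLin r (∑ j, c j ⊗ₜ B j) = ∑ j, c j • S.inclDla r (B j) := by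
    rw [map_sum]
    exact Finset.sum_congr rfl fun j _ => S.mulLin_tmul r _ _
  rw [e1, map_sum]
  have : ∀ (f : Fin n → S.AtT) (i : Fin S.h), (∑ j, f j) i = ∑ j, f j i := by
    intro f i
    exact Finset.sum_apply i Finset.univ f
  funext i
  rw [this]
  rfl

theorem tensor_rep {n : ℕ} (B : Module.Basis (Fin n) (S.AKla r) (S.Dla r))
    (t : S.AK r ⊗[S.AKla r] S.Dla r) :
    ∃ c : Fin n → S.AK r, t = ∑ j, c j ⊗ₜ B j := by
  set BB := Algebra.TensorProduct.basis (S.AK r) B
  refine ⟨fun j => BB.repr t j, ?_⟩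
  conv_lhs => rw [← BB.sum_repr t]
  refine Finset.sum_congr rfl fun j _ => ?_
  rw [Algebra.TensorProduct.basis_apply, TensorProduct.smul_tmul', smul_eq_mul, mul_one]

theorem mulMap_injective {n : ℕ} {ι : Fin n → Fin S.h} {b : Fin n → S.AtT}
    (hb : S.toDat.Good (S.sr r) ι b) : Function.Injective (S.mulLin r) := by
  obtain ⟨B, hB⟩ := S.exists_basis r hb
  have hdet := S.det_ne_zero_of_good hb
  rw [injective_iff_map_eq_zero]
  intro t ht
  obtain ⟨c, rfl⟩ := S.tensor_rep r B t
  have e1 := S.mulMap_sum r B c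
  rw [ht, map_zero] at e1
  simp only [hB] at e1
  have e2 := indep (p := S.p) (F := CFlat S.p) hdet _ e1.symm
  refine Finset.sum_eq_zero fun j _ => ?_
  have : c j = 0 := Subtype.ext (e2 j)
  rw [this, TensorProduct.zero_tmul]

theorem mem_range_iff {n : ℕ} {ι : Fin n → Fin S.h} {b : Fin n → S.AtT}
    {N0 : Matrix (Fin S.h) (Fin n) ℤ_[S.p]}
    (hb : S.toDat.Good (S.sr r) ι b)
    (hN : ∀ x ∈ S.toDat.Mod (S.sr r), ∀ i, x i = ∑ k, zp (N0 i k) * x (ι k))
    (x : S.D r) : (∃ t, S.mulLin r t = x) ↔ S.InSpan ι N0 (S.inclD r x) := by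
  obtain ⟨B, hB⟩ := S.exists_basis r hb
  constructor
  · rintro ⟨t, rfl⟩ i
    obtain ⟨c, rfl⟩ := S.tensor_rep r B t
    rw [S.mulMap_sum r B c]
    simp only [hB]
    have e2 : ∀ j, b j i = ∑ k, S.zpA (N0 i k) * b j (ι k) := fun j => hN _ (hb.1 j) i
    have e3 : ∑ j, S.inclAK r (c j) * b j i =
        ∑ j, S.inclAK r (c j) * ∑ k, S.zpA (N0 i k) * b j (ι k) :=
      Finset.sum_congr rfl fun j _ => by rw [← e2]
    rw [e3]
    simp only [Finset.mul_sum]
    rw [Finset.sum_comm]
    refine Finset.sum_congr rfl fun j _ => Finset.sum_congr rfl fun k _ => ?_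
    ring
  · intro hsp
    obtain ⟨c, hc1, hc2, hxc⟩ := Dat.Good.combo S.toDat (S.sr_pos r) hb hN
      (fun i => (S.isOC_iff r _).1 (x.2.1 i)) x.2.2 hsp
    have hcK : ∀ j, c j ∈ S.ringAK r := fun j => ⟨(S.isOC_iff r _).2 (hc1 j), hc2 j⟩
    set cK : Fin n → S.AK r := fun j => ⟨c j, hcK j⟩ with hcKdef
    refine ⟨∑ j, cK j ⊗ₜ B j, ?_⟩
    have hinj : Function.Injective (S.inclD r) := Subtype.val_injective
    apply hinj
    rw [S.mulMap_sum r B]
    simp only [hB]
    exact hxc.symm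

theorem structure_thm : ∃ T' : S.SubT, S.IsSummand T' ∧ S.IsStable T' ∧
    (∀ r : {r : ℝ // 0 < r}, S.LaFree r (S.rk T') ∧ Function.Injective (S.mulMap r) ∧
      Set.range (S.mulMap r) = S.DSub r T') ∧
    ((∃ r, Function.Surjective (S.mulMap r)) → ∀ r, Function.Bijective (S.mulMap r)) := by
  obtain ⟨n, ι, N0, hN0, hH, hstr⟩ := S.toDat.struct
    (fun g => S.ρ g) (fun g => rfl)
  have hcoord : ∀ u : Fin n → ℤ_[S.p], ∀ k, (N0.mulVecLin u) (ι k) = u k := by
    intro u k
    have e : (N0.submatrix ι id).mulVec u = u := by rw [hN0, Matrix.one_mulVec]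
    exact congrFun e k
  have hinj : Function.Injective N0.mulVecLin := by
    intro u u' huu
    funext k
    rw [← hcoord u k, ← hcoord u' k, huu]
  have hrange : ∀ (r : {r : ℝ // 0 < r}) (x : S.D r), (∃ t, S.mulMap r t = x) ↔
      S.InSpan ι N0 (S.inclD r x) := by
    intro r x
    obtain ⟨h1, b, hb⟩ := hstr _ (S.sr_pos r)
    exact S.mem_range_iff r hb h1 x
  have hinjm : ∀ (r : {r : ℝ // 0 < r}), Function.Injective (S.mulMap r) := by
    intro r
    obtain ⟨h1, b, hb⟩ := hstr _ (S.sr_pos r)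
    exact S.mulMap_injective r hb
  refine ⟨LinearMap.range N0.mulVecLin, ?_, ?_, ?_, ?_⟩
  · -- complement
    refine ⟨LinearMap.ker (LinearMap.pi (fun k : Fin n => LinearMap.proj (ι k)) :
      (Fin S.h → ℤ_[S.p]) →ₗ[ℤ_[S.p]] (Fin n → ℤ_[S.p])), ?_, ?_⟩
    · rw [Submodule.disjoint_def]
      rintro _ ⟨u, rfl⟩ hker
      rw [LinearMap.mem_ker] at hker
      have : u = 0 := by
        funext k
        have := congrFun hker k
        rw [LinearMap.pi_apply, LinearMap.proj_apply, hcoord] at this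
        exact this
      rw [this, map_zero]
    · rw [codisjoint_iff, eq_top_iff]
      intro t _
      rw [Submodule.mem_sup]
      refine ⟨N0.mulVecLin (fun k => t (ι k)), ⟨_, rfl⟩, t - N0.mulVecLin (fun k => t (ι k)), ?_,
        by simp⟩
      rw [LinearMap.mem_ker]
      funext k
      rw [LinearMap.pi_apply, LinearMap.proj_apply, Pi.sub_apply, hcoord]
      simp
  · -- stability
    rintro g hg _ ⟨u, rfl⟩
    refine ⟨((S.ρ g * N0).submatrix ι id).mulVec u, ?_⟩
    have e1 := hH g hg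
    change N0.mulVec _ = Matrix.mulVec _ (N0.mulVec u)
    rw [Matrix.mulVec_mulVec, Matrix.mulVec_mulVec, ← e1]
  · intro r
    obtain ⟨h1, b, hb⟩ := hstr _ (S.sr_pos r)
    obtain ⟨B, hB⟩ := S.exists_basis r hb
    have hnt : Nontrivial (S.AKla r) := by
      refine ⟨⟨0, 1, fun h01 => ?_⟩⟩
      have e1 : S.inclAK r (algebraMap _ _ (0 : S.AKla r)) =
          S.inclAK r (algebraMap _ _ (1 : S.AKla r)) := by rw [h01]
      rw [map_zero, map_zero, map_one, map_one] at e1
      exact zero_ne_one (α := WittVector S.p (CFlat S.p)) e1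
    refine ⟨⟨Module.Free.of_basis B, ?_⟩, hinjm r, ?_⟩
    · rw [Module.finrank_eq_card_basis B, Fintype.card_fin]
      have e := LinearEquiv.finrank_eq (LinearEquiv.ofInjective N0.mulVecLin hinj)
      unfold rk
      rw [← e]
      simp
    · ext x
      rw [S.mem_DSub_iff r hN0 x]
      exact hrange r x
  · rintro ⟨r, hsur⟩ r'
    refine ⟨hinjm r', fun x => ?_⟩
    have hs := S.sr_pos r
    have hs' := S.sr_pos r'
    rw [hrange]
    -- pull back by Frobenius
    have hp1 : (1 : ℝ) < S.p := by exact_mod_cast S.prime.out.one_lt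
    obtain ⟨k, hk⟩ := pow_unbounded_of_one_lt (S.sr r / S.sr r') hp1
    rw [div_lt_iff₀ hs'] at hk
    set fr : S.At →+* S.At := (WittVector.frobenius : WittVector S.p (CFlat S.p) →+* _) with hfr
    have hbij : Function.Bijective fr := WittVector.frobenius_bijective S.p (CFlat S.p)
    choose x' hx' using fun i => (hbij.surjective.iterate k) (S.inclD r' x i)
    have hinjk := hbij.injective.iterate k
    have hx'OC : ∀ i, S.IsOC r (x' i) := by
      intro i
      have e1 : S.IsOC r' (S.inclD r' x i) := x.2.1 i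
      rw [← hx' i] at e1
      have e2 := (S.isOC_iff r' _).1 e1
      have e3 := (frob_iter_OC (p := S.p) (F := CFlat S.p) (v := vFlat S.p) (x := x' i) k _ hs').1
        e2
      refine (S.isOC_iff r _).2 (e3.scale hs ?_)
      linarith
    have hfrz : ∀ z : ℤ_[S.p], fr^[k] (S.zpA z) = S.zpA z := by
      intro z
      exact Function.iterate_fixed (frobenius_zp z) k
    have hfr_iter : ∀ y, fr^[k] y = (fr ^ k) y := by
      intro y
      rw [RingHom.coe_pow]
    have hfg : ∀ (g : GQ S.p) (y : S.At), fr^[k] (S.gal g y) = S.gal g (fr^[k] y) := by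
      intro g y
      have hc : Function.Commute fr (S.gal g) := fun y => frobenius_ga g y
      exact (hc.iterate_left k) y
    have hx'H : ∀ g ∈ S.HK, S.act g x' = x' := by
      intro g hg
      funext i
      apply hinjk
      have e1 := congrFun (x.2.2 g hg) i
      have e0 : fr^[k] (x' i) = S.act g (S.inclD r' x) i := by
        rw [hx' i]; exact e1.symm
      rw [e0]
      simp only [act]
      rw [hfr_iter, map_sum]
      refine Finset.sum_congr rfl fun j _ => ?_
      rw [map_mul, ← hfr_iter, ← hfr_iter, hfrz, hfg, hx']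
    set xx : S.D r := ⟨x', hx'OC, hx'H⟩ with hxx
    have hmem := (hrange r xx).1 (hsur xx)
    intro i
    rw [← hx' i]
    have e1 : x' i = ∑ k, S.zpA (N0 i k) * x' (ι k) := hmem i
    rw [e1, hfr_iter, map_sum]
    refine Finset.sum_congr rfl fun j _ => ?_
    rw [map_mul, ← hfr_iter, ← hfr_iter, hfrz, hx']

end Setup

end Run7.h89.Ked
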