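import Pool.Agent.Run7.h89.Main1

/-!
Inverses of locally analytic functions, and a p-adic fixed point theorem.
-/

set_option linter.unusedSectionVars false

namespace Run7.h89

open WittVector Filter

variable {p : ℕ} [hp : Fact p.Prime] {F : Type*} [Field F] [CharP F p] [PerfectRing F p]
variable {v : Valuation F NNReal} {d : ℕ}

section inv

/-- truncated bound -/
def BdT (v : Valuation F NNReal) (J : ℕ) (s c : ℝ) (x : WittVector p F) : Prop :=
  ∀ k : ℕ, k ≤ J → v (tc x k) ≤ (p : NNReal) ^ (((k : ℝ) - c) / s)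

theorem BdT.mono {J : ℕ} {s c c' : ℝ} (hs : 0 < s) (h : c' ≤ c) {x : WittVector p F}
    (hx : BdT v J s c x) : BdT v J s c' x := fun k hk =>
  (hx k hk).trans (rp_mono (by gcongr))

theorem BdT.add {J : ℕ} {s c : ℝ} (hs : 0 < s) {x y : WittVector p F} (hx : BdT v J s c x)
    (hy : BdT v J s c y) : BdT v J s c (x + y) := fun k hk => by
  refine tc_add_le v (fun i hi => (hx i (hi.trans hk)).trans (rp_mono ?_))
    (fun i hi => (hy i (hi.trans hk)).trans (rp_mono ?_))
  all_goals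
    have : (i : ℝ) ≤ k := by exact_mod_cast hi
    gcongr

theorem BdT.neg {J : ℕ} {s c : ℝ} (hs : 0 < s) {x : WittVector p F} (hx : BdT v J s c x) :
    BdT v J s c (-x) := fun k hk => by
  refine tc_neg_one_mul_le v (fun i hi => (hx i (hi.trans hk)).trans (rp_mono ?_))
  have : (i : ℝ) ≤ k := by exact_mod_cast hi
  gcongr

theorem BdT.mul {J : ℕ} {s c c' : ℝ} (hs : 0 < s) {x y : WittVector p F} (hx : BdT v J s c x)
    (hy : BdT v J s c' y) : BdT v J s (c + c') (x * y) := fun k hk => by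
  refine tc_mul_le v fun i j hij => ?_
  calc v (tc x i) * v (tc y j) ≤ (p : NNReal) ^ (((i : ℝ) - c) / s) *
      (p : NNReal) ^ (((j : ℝ) - c') / s) := by
        gcongr
        exacts [hx i (by omega), hy j (by omega)]
    _ = (p : NNReal) ^ (((i : ℝ) - c) / s + ((j : ℝ) - c') / s) := rp_add _ _
    _ ≤ (p : NNReal) ^ (((k : ℝ) - (c + c')) / s) := by
        refine rp_mono ?_
        rw [← add_div]
        have : (i : ℝ) + j ≤ k := by exact_mod_cast hij
        gcongr
        linarith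

theorem BdT.exists (J : ℕ) {s κ : ℝ} (hs : 0 < s) (hκ : 0 < κ) (x : WittVector p F) :
    ∃ N : ℕ, BdT v J s (-(N * κ)) x := by
  have h3 : Tendsto (fun m : ℕ => (p : NNReal) ^ m) atTop atTop :=
    tendsto_pow_atTop_atTop_of_one_lt one_lt_p
  have h1 : ∀ k : ℕ, ∃ c : ℝ, 0 ≤ c ∧ v (tc x k) ≤ (p : NNReal) ^ (((k : ℝ) + c) / s) := by
    intro k
    obtain ⟨m, hm⟩ := (h3.eventually_ge_atTop (v (tc x k))).exists
    refine ⟨m * s, by positivity, hm.trans ?_⟩
    rw [← NNReal.rpow_natCast]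
    refine rp_mono ?_
    rw [le_div_iff₀ hs]
    have : (0 : ℝ) ≤ k := by positivity
    linarith
  choose C hC0 hC using h1
  obtain ⟨N, hN⟩ := exists_nat_ge ((∑ k ∈ Finset.range (J + 1), C k) / κ)
  rw [div_le_iff₀ hκ] at hN
  refine ⟨N, fun k hk => (hC k).trans (rp_mono ?_)⟩
  have : C k ≤ ∑ k ∈ Finset.range (J + 1), C k :=
    Finset.single_le_sum (f := fun i => C i) (fun i _ => hC0 i)
      (Finset.mem_range.2 (Nat.lt_succ_of_le hk))
  gcongr
  linarith

theorem inv_bd {s κ : ℝ} (hs : 0 < s) (hκ : 0 < κ) {x z : WittVector p F} (hx : Bd v s κ x)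
    (hz : (1 + x) * z = 1) : Bd v s 0 z := by
  intro J
  have key : ∀ N : ℕ, BdT v J s (-(N * κ)) z → BdT v J s 0 z := by
    intro N
    induction N with
    | zero => intro h; simpa using h
    | succ N ih =>
      intro h
      apply ih
      have h1 : z = 1 + (- (x * z)) := by
        have : z + x * z = 1 := by rw [← hz]; ring
        rw [← this]; ring
      rw [h1]
      refine BdT.add hs ?_ ?_
      · have : BdT v J s 0 (1 : WittVector p F) := fun k _ => Bd.one k
        refine this.mono hs ?_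
        have : 0 ≤ (N : ℝ) * κ := by positivity
        linarith
      · have hxT : BdT v J s κ x := fun k _ => hx k
        refine ((hxT.mul hs h).neg hs).mono hs ?_
        push_cast
        linarith
  obtain ⟨N, hN⟩ := BdT.exists (v := v) J hs hκ z
  exact key N hN J le_rfl

theorem unit_of_small {s κ : ℝ} (hs : 0 < s) (hκ : 0 < κ) {x : WittVector p F}
    (hx : Bd v s κ x) : IsUnit (1 + x) := by
  apply WittVector.isUnit_of_coeff_zero_ne_zero
  intro h
  have h0 := hx 0
  rw [tc_zero_right] at h0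
  have h1 : (1 + x).coeff 0 = 1 + x.coeff 0 := by
    have := map_add (WittVector.constantCoeff (p := p) (R := F)) 1 x
    simpa using this
  rw [h1] at h
  have h2 : x.coeff 0 = -1 := by linear_combination h
  rw [h2, Valuation.map_neg, map_one] at h0
  have h3 : (p : NNReal) ^ (((0 : ℕ) - κ) / s : ℝ) < 1 := by
    apply NNReal.rpow_lt_one_of_one_lt_of_neg one_lt_p
    apply div_neg_of_neg_of_pos _ hs
    simpa using hκ
  exact absurd h0 (not_le.2 h3)

theorem La.of_level {s : ℝ} {f : (Fin d → ℕ) → WittVector p F} (i : ℕ)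
    (h : La v s (fun y => f (p ^ i • y))) : La v s f := by
  obtain ⟨j, δ, μ, hδ, h⟩ := h
  refine ⟨i + j, δ, μ, hδ, ?_⟩
  simpa only [smul_smul, ← pow_add] using h

theorem La.to_level {s : ℝ} (hs : 0 < s) {f : (Fin d → ℕ) → WittVector p F} (i : ℕ)
    (h : La v s f) : La v s (fun y => f (p ^ i • y)) := by
  obtain ⟨j, δ, μ, hδ, h⟩ := h
  refine ⟨j, δ, μ, hδ, ?_⟩
  have := h.res_iter' hs hδ.le i
  simp only [smul_smul] at this ⊢
  simpa only [mul_comm] using this

theorem La.inv {s c : ℝ} (hs : 0 < s) {D : (Fin d → ℕ) → WittVector p F} (hD : La v s D)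
    {u' : WittVector p F} (hu : D 0 * u' = 1) (hu' : Bd v s c u') :
    La v s (fun y => Ring.inverse (D y)) ∧ ∃ i0, ∀ i, i0 ≤ i → ∀ y,
      D (p ^ i • y) * Ring.inverse (D (p ^ i • y)) = 1 := by
  obtain ⟨i, δ, μ, hδ, hLA⟩ := id hD
  obtain ⟨m0, hm0⟩ := hLA.shrink hs hδ (1 - c)
  have hkey : ∀ m, m0 ≤ m → ∀ y, Bd v s 1 (u' * (D (p ^ (i + m) • y) - D 0)) := by
    intro m hm y
    have := (hm0 m hm).bd y
    simp only [smul_smul, ← pow_add, smul_zero] at this
    have h2 := hu'.mul hs this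
    convert h2 using 1
    ring
  have hform : ∀ x : WittVector p F, u' * x = 1 + u' * (x - D 0) := by
    intro x
    have : u' * D 0 = 1 := by rw [mul_comm]; exact hu
    rw [mul_sub, this]; ring
  have hunit : ∀ m, m0 ≤ m → ∀ y, IsUnit (D (p ^ (i + m) • y)) := by
    intro m hm y
    have h1 := unit_of_small hs one_pos (hkey m hm y)
    rw [← hform] at h1
    exact isUnit_of_mul_isUnit_right h1
  have hinv : ∀ i', i + m0 ≤ i' → ∀ y, D (p ^ i' • y) * Ring.inverse (D (p ^ i' • y)) = 1 := by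
    intro i' hi' y
    obtain ⟨k, rfl⟩ := Nat.exists_eq_add_of_le hi'
    rw [add_assoc]
    exact Ring.mul_inverse_cancel _ (hunit _ (Nat.le_add_right _ _) y)
  refine ⟨?_, i + m0, hinv⟩
  refine La.of_level (i + m0) ?_
  refine La.div (D := fun y => D (p ^ (i + m0) • y)) (N := fun _ => 1) (a := 0) (u := D 0)
    (u' := u') (c := c) (c0 := c) hs (hD.to_level hs _) (La.const ⟨0, Bd.one⟩)
    (hinv _ le_rfl) (by simp) hu hu' ?_
  intro y
  have h1 := hkey m0 le_rfl y
  have h2 := hinv _ le_rfl y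
  set x := D (p ^ (i + m0) • y) with hx
  -- inverse = u' * w, w inverse of (1 + ..)
  obtain ⟨w, hw⟩ := (unit_of_small hs one_pos h1).exists_right_inv
  have h3 := inv_bd hs one_pos h1 hw
  have h4 : Ring.inverse x = u' * w := by
    rw [← hform] at hw
    calc Ring.inverse x = Ring.inverse x * (u' * x * w) := by rw [hw, mul_one]
      _ = (x * Ring.inverse x) * (u' * w) := by ring
      _ = u' * w := by rw [h2, one_mul]
  rw [h4]
  have := hu'.mul hs h3
  simpa using this

theorem La.sum {s : ℝ} (hs : 0 < s) {ι : Type*} {S : Finset ι}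
    {f : ι → (Fin d → ℕ) → WittVector p F} (h : ∀ i ∈ S, La v s (f i)) :
    La v s (fun y => ∑ i ∈ S, f i y) := by
  have := Subring.sum_mem (LaRing p d v s hs) h
  have h2 : (∑ i ∈ S, f i) = fun y => ∑ i ∈ S, f i y := by
    ext1 y; simp
  rwa [h2] at this

theorem La.pow {s : ℝ} (hs : 0 < s) {f : (Fin d → ℕ) → WittVector p F} (h : La v s f) (n : ℕ) :
    La v s (fun y => f y ^ n) :=
  Subring.pow_mem (LaRing p d v s hs) h n

theorem La.sub {s : ℝ} (hs : 0 < s) {f g : (Fin d → ℕ) → WittVector p F}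
    (hf : La v s f) (hg : La v s g) : La v s (fun y => f y - g y) :=
  Subring.sub_mem (LaRing p d v s hs) hf hg

theorem La.adj {s : ℝ} (hs : 0 < s) {n : Type*} [Fintype n] [DecidableEq n]
    (A : (Fin d → ℕ) → Matrix n n (WittVector p F)) (h : ∀ i j, La v s (fun y => A y i j))
    (i j : n) : La v s (fun y => (A y).adjugate i j) := by
  simp only [Matrix.adjugate_apply]
  refine La.det hs _ fun a b => ?_
  rcases eq_or_ne a j with rfl | ha
  · simp only [Matrix.updateRow_self]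
    rcases eq_or_ne b i with rfl | hb
    · simp only [Pi.single_eq_same]
      exact La.const ⟨0, Bd.one⟩
    · simp only [Pi.single_eq_of_ne hb]
      exact La.const ⟨0, Bd.zero⟩
  · simp only [Matrix.updateRow_ne ha]
    exact h a b

theorem eq_zero_of_p_pow_dvd {x : WittVector p F} (h : ∀ k, (p : WittVector p F) ^ k ∣ x) :
    x = 0 := by
  ext k
  have := coeff_congr (x := x) (y := 0) (N := k + 1) (by simpa using h (k + 1))
    (Nat.lt_succ_self k)
  simpa using this

theorem exists_limit (f : ℕ → WittVector p F)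
    (h : ∀ n, (p : WittVector p F) ^ (n + 1) ∣ f (n + 1) - f n) :
    ∃ L, ∀ n, (p : WittVector p F) ^ (n + 1) ∣ L - f n := by
  have h1 : ∀ n m, n ≤ m → (p : WittVector p F) ^ (n + 1) ∣ f m - f n := by
    intro n m hnm
    induction m, hnm using Nat.le_induction with
    | base => simp
    | succ m hm ih =>
      have : f (m + 1) - f n = (f (m + 1) - f m) + (f m - f n) := by ring
      rw [this]
      exact dvd_add ((pow_dvd_pow _ (by omega)).trans (h m)) ih
  refine ⟨WittVector.mk p (fun k => (f k).coeff k), fun n => dvd_sub_of_coeff fun k hk => ?_⟩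
  rw [WittVector.coeff_mk]
  exact (coeff_congr (h1 k n (Nat.lt_succ_iff.1 hk)) (Nat.lt_succ_self k)).symm

end inv

section fix

variable {n n1 : ℕ}

/-- `C(Z) = Z^{(p)} a` -/
def Cf (p : ℕ) {R : Type*} [CommRing R] (a : Matrix (Fin n) (Fin n) R)
    (Z : Matrix (Fin n1) (Fin n) R) : Matrix (Fin n1) (Fin n) R :=
  (Z.map (· ^ p)) * a

/-- `Q(Z)` = the columns `κ` of `C(Z)` -/
def Qf (p : ℕ) {R : Type*} [CommRing R] (κ : Fin n1 → Fin n) (a : Matrix (Fin n) (Fin n) R)
    (Z : Matrix (Fin n1) (Fin n) R) : Matrix (Fin n1) (Fin n1) R :=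
  (Cf p a Z).submatrix id κ

/-- `Ψ(Z) = Q(Z) Z - C(Z)` -/
def Psi (p : ℕ) {R : Type*} [CommRing R] (κ : Fin n1 → Fin n) (a : Matrix (Fin n) (Fin n) R)
    (Z : Matrix (Fin n1) (Fin n) R) : Matrix (Fin n1) (Fin n) R :=
  Qf p κ a Z * Z - Cf p a Z

theorem Cf_map (p : ℕ) {R S : Type*} [CommRing R] [CommRing S] (f : R →+* S)
    (a : Matrix (Fin n) (Fin n) R) (Z : Matrix (Fin n1) (Fin n) R) :
    (Cf p a Z).map f = Cf p (a.map f) (Z.map f) := by
  unfold Cf
  rw [Matrix.map_mul]
  congr 1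
  ext i j
  simp

theorem Qf_map (p : ℕ) {R S : Type*} [CommRing R] [CommRing S] (f : R →+* S) (κ : Fin n1 → Fin n)
    (a : Matrix (Fin n) (Fin n) R) (Z : Matrix (Fin n1) (Fin n) R) :
    (Qf p κ a Z).map f = Qf p κ (a.map f) (Z.map f) := by
  unfold Qf
  rw [← Cf_map]
  rfl

theorem Psi_map (p : ℕ) {R S : Type*} [CommRing R] [CommRing S] (f : R →+* S)
    (κ : Fin n1 → Fin n)
    (a : Matrix (Fin n) (Fin n) R) (Z : Matrix (Fin n1) (Fin n) R) :
    (Psi p κ a Z).map f = Psi p κ (a.map f) (Z.map f) := by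
  unfold Psi
  rw [← Cf_map, ← Qf_map]
  ext i j
  simp [Matrix.mul_apply]

/-- divisibility by `p^k` of all entries -/
def Dv (k : ℕ) {α β : Type*} (A : Matrix α β (WittVector p F)) : Prop :=
  ∀ i j, (p : WittVector p F) ^ k ∣ A i j

theorem Dv.mul {k l : ℕ} {α β γ : Type*} [Fintype β] {A : Matrix α β (WittVector p F)}
    {B : Matrix β γ (WittVector p F)} (hA : Dv k A) (hB : Dv l B) : Dv (k + l) (A * B) := by
  intro i j
  rw [Matrix.mul_apply]
  refine Finset.dvd_sum fun x _ => ?_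
  rw [pow_add]
  exact mul_dvd_mul (hA i x) (hB x j)

theorem Dv.zero {α β : Type*} (A : Matrix α β (WittVector p F)) : Dv 0 A := fun i j => by simp

theorem Dv.mul_left {k : ℕ} {α β γ : Type*} [Fintype β] (A : Matrix α β (WittVector p F))
    {B : Matrix β γ (WittVector p F)} (hB : Dv k B) : Dv k (A * B) := by
  have := (Dv.zero A).mul hB
  rwa [zero_add] at this

theorem Dv.mul_right {k : ℕ} {α β γ : Type*} [Fintype β] {A : Matrix α β (WittVector p F)}
    (hA : Dv k A) (B : Matrix β γ (WittVector p F)) : Dv k (A * B) := by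
  have := hA.mul (Dv.zero B)
  rwa [add_zero] at this

theorem Dv.add {k : ℕ} {α β : Type*} {A B : Matrix α β (WittVector p F)}
    (hA : Dv k A) (hB : Dv k B) : Dv k (A + B) := fun i j => dvd_add (hA i j) (hB i j)

theorem Dv.sub {k : ℕ} {α β : Type*} {A B : Matrix α β (WittVector p F)}
    (hA : Dv k A) (hB : Dv k B) : Dv k (A - B) := fun i j => dvd_sub (hA i j) (hB i j)

theorem Dv.neg {k : ℕ} {α β : Type*} {A : Matrix α β (WittVector p F)}
    (hA : Dv k A) : Dv k (-A) := fun i j => (dvd_neg).2 (hA i j)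

theorem Dv.mono {k l : ℕ} (h : l ≤ k) {α β : Type*} {A : Matrix α β (WittVector p F)}
    (hA : Dv k A) : Dv l A := fun i j => (pow_dvd_pow _ h).trans (hA i j)

/-- `x ≡ y mod p^k`, `k ≥ 1` implies `x^p ≡ y^p mod p^(k+1)` -/
theorem pow_congr {k : ℕ} (hk : 1 ≤ k) {x y : WittVector p F}
    (h : (p : WittVector p F) ^ k ∣ x - y) : (p : WittVector p F) ^ (k + 1) ∣ x ^ p - y ^ p := by
  obtain ⟨t, ht⟩ := h
  have hx : x = y + (p : WittVector p F) ^ k * t := by rw [← ht]; ring
  rw [hx, add_pow]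
  have hp1 := hp.out.one_le
  rw [Finset.sum_range_succ]
  simp only [Nat.choose_self, Nat.cast_one, mul_one, tsub_self, pow_zero]
  rw [add_sub_cancel_right]
  refine Finset.dvd_sum fun m hm => ?_
  have hm' := Finset.mem_range.1 hm
  rw [mul_pow, ← pow_mul]
  rcases Nat.eq_zero_or_pos m with rfl | hm0
  · have h2 : k + 1 ≤ k * (p - 0) := by
      have := hp.out.two_le
      simp only [tsub_zero]
      nlinarith
    refine Dvd.dvd.mul_right (Dvd.dvd.mul_left (Dvd.dvd.mul_right ?_ _) _) _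
    exact pow_dvd_pow _ h2
  · have h2 : k ≤ k * (p - m) := by
      have : 1 ≤ p - m := by omega
      nlinarith
    have h3 : (p : WittVector p F) ∣ ((p.choose m : ℕ) : WittVector p F) := by
      have := hp.out.dvd_choose_self (by omega : m ≠ 0) hm'
      exact_mod_cast (map_dvd (Nat.castRingHom (WittVector p F)) this)
    have h4 : (p : WittVector p F) ^ k ∣ y ^ m * ((p : WittVector p F) ^ (k * (p - m)) *
        t ^ (p - m)) :=
      Dvd.dvd.mul_left (Dvd.dvd.mul_right (pow_dvd_pow _ h2) _) _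
    rw [pow_succ]
    exact mul_dvd_mul h4 h3

theorem Cf_congr {k : ℕ} (hk : 1 ≤ k) (a : Matrix (Fin n) (Fin n) (WittVector p F))
    {Z Z' : Matrix (Fin n1) (Fin n) (WittVector p F)} (h : Dv k (Z' - Z)) :
    Dv (k + 1) (Cf p a Z' - Cf p a Z) := by
  unfold Cf
  rw [← Matrix.sub_mul]
  refine Dv.mul_right ?_ _
  intro i j
  exact pow_congr hk (h i j)

theorem Qf_congr {k : ℕ} (hk : 1 ≤ k) (κ : Fin n1 → Fin n)
    (a : Matrix (Fin n) (Fin n) (WittVector p F))
    {Z Z' : Matrix (Fin n1) (Fin n) (WittVector p F)} (h : Dv k (Z' - Z)) :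
    Dv (k + 1) (Qf p κ a Z' - Qf p κ a Z) := by
  intro i j
  exact Cf_congr hk a h i (κ j)

theorem fix_unique (κ : Fin n1 → Fin n) (a : Matrix (Fin n) (Fin n) (WittVector p F))
    {Z Z' : Matrix (Fin n1) (Fin n) (WittVector p F)}
    {Q' : Matrix (Fin n1) (Fin n1) (WittVector p F)} (hQ : Q' * Qf p κ a Z = 1)
    (hZ : Psi p κ a Z = 0) (hZ' : Psi p κ a Z' = 0) (h : Dv 1 (Z' - Z)) : Z' = Z := by
  have h1 : ∀ k : ℕ, Dv (k + 1) (Z' - Z) := by
    intro k
    induction k with
    | zero => exact h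
    | succ k ih =>
      have e1 : Qf p κ a Z * (Z' - Z) = (Cf p a Z' - Cf p a Z) - (Qf p κ a Z' - Qf p κ a Z) * Z' := by
        have e2 : Qf p κ a Z' * Z' = Cf p a Z' := sub_eq_zero.1 hZ'
        have e3 : Qf p κ a Z * Z = Cf p a Z := sub_eq_zero.1 hZ
        rw [Matrix.mul_sub, Matrix.sub_mul, e2, e3]
        abel
      have e4 : Z' - Z = Q' * ((Cf p a Z' - Cf p a Z) - (Qf p κ a Z' - Qf p κ a Z) * Z') := by
        rw [← e1, ← Matrix.mul_assoc, hQ, Matrix.one_mul]
      rw [e4]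
      refine Dv.mul_left _ (Dv.sub (Cf_congr (by omega) a ih) (Dv.mul_right ?_ _))
      exact Qf_congr (by omega) κ a ih
  ext1 i j
  have : (Z' - Z) i j = 0 := eq_zero_of_p_pow_dvd fun k => (pow_dvd_pow _ (Nat.le_succ k)).trans
    (h1 k i j)
  exact sub_eq_zero.1 this

/-- entrywise analytic bounds -/
def MB (v : Valuation F NNReal) (s δ c : ℝ) {α β : Type*}
    (A : (Fin d → ℕ) → Matrix α β (WittVector p F)) : Prop :=
  ∀ i j, LA v s δ c (fun y => A y i j)

theorem MB.mul {s δ c c' : ℝ} (hs : 0 < s) (hδ : 0 ≤ δ) {α β γ : Type*} [Fintype β]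
    {A : (Fin d → ℕ) → Matrix α β (WittVector p F)}
    {B : (Fin d → ℕ) → Matrix β γ (WittVector p F)}
    (hA : MB v s δ c A) (hB : MB v s δ c' B) : MB v s δ (c + c') (fun y => A y * B y) := by
  intro i j
  simp only [Matrix.mul_apply]
  exact LA.sum hs fun x _ => (hA i x).mul hs hδ (hB x j)

theorem MB.add {s δ c : ℝ} (hs : 0 < s) {α β : Type*}
    {A B : (Fin d → ℕ) → Matrix α β (WittVector p F)}
    (hA : MB v s δ c A) (hB : MB v s δ c B) : MB v s δ c (fun y => A y + B y) :=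
  fun i j => (hA i j).add hs (hB i j)

theorem MB.sub {s δ c : ℝ} (hs : 0 < s) {α β : Type*}
    {A B : (Fin d → ℕ) → Matrix α β (WittVector p F)}
    (hA : MB v s δ c A) (hB : MB v s δ c B) : MB v s δ c (fun y => A y - B y) :=
  fun i j => (hA i j).sub hs (hB i j)

theorem MB.neg {s δ c : ℝ} (hs : 0 < s) {α β : Type*}
    {A : (Fin d → ℕ) → Matrix α β (WittVector p F)}
    (hA : MB v s δ c A) : MB v s δ c (fun y => - A y) :=
  fun i j => (hA i j).neg hs

theorem MB.mono {s δ c c' : ℝ} (hs : 0 < s) (h : c' ≤ c) {α β : Type*}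
    {A : (Fin d → ℕ) → Matrix α β (WittVector p F)}
    (hA : MB v s δ c A) : MB v s δ c' A :=
  fun i j => (hA i j).mono hs le_rfl h

/-- analytic estimate for `p`-th powers. -/
theorem pow_LA {s δ ε : ℝ} (hs : 0 < s) (hδ : 0 ≤ δ) (_hε : 0 ≤ ε) (hε2 : p * ε ≤ 1 / 2)
    {x y : (Fin d → ℕ) → WittVector p F} (hy : LA v s δ (-ε) y)
    (h : LA v s δ (1 / 2) (fun t => x t - y t)) :
    LA v s δ 1 (fun t => x t ^ p - y t ^ p) := by
  have hp2 : (2 : ℝ) ≤ p := by exact_mod_cast hp.out.two_le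
  have h1 : (fun t => x t ^ p - y t ^ p) = fun t => ∑ m ∈ Finset.range p,
      (y t ^ m * (x t - y t) ^ (p - m)) * ((p.choose m : ℕ) : WittVector p F) := by
    ext1 t
    have hx : x t = y t + (x t - y t) := by ring
    conv_lhs => rw [hx, add_pow, Finset.sum_range_succ]
    simp only [Nat.choose_self, Nat.cast_one, mul_one, tsub_self, pow_zero]
    rw [add_sub_cancel_right]
  rw [h1]
  refine LA.sum hs fun m hm => ?_
  have hm' := Finset.mem_range.1 hm
  have e1 := (hy.pow hs hδ m).mul hs hδ (h.pow hs hδ (p - m))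
  have hcast : ((p - m : ℕ) : ℝ) = p - m := by
    rw [Nat.cast_sub hm'.le]
  have hm0' : (0 : ℝ) ≤ m := Nat.cast_nonneg m
  have hmp : (m : ℝ) ≤ p := by exact_mod_cast hm'.le
  rcases Nat.eq_zero_or_pos m with rfl | hm0
  · have e2 := e1.mul hs hδ (LA.const (v := v) (δ := δ) (d := d)
      (Bd.natCast (p := p) hs (p.choose 0)))
    refine e2.mono hs le_rfl ?_
    rw [hcast]
    push_cast
    linarith
  · have h3 : Bd v s 1 ((p.choose m : ℕ) : WittVector p F) :=
      Bd.p_natCast hs (hp.out.dvd_choose_self (by omega) hm')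
    have e2 := e1.mul hs hδ (LA.const (v := v) (δ := δ) (d := d) h3)
    refine e2.mono hs le_rfl ?_
    rw [hcast]
    have h4 : (1 : ℝ) ≤ p - m := by
      have : m + 1 ≤ p := hm'
      have : (m : ℝ) + 1 ≤ p := by exact_mod_cast this
      linarith
    nlinarith

theorem Cf_LA {s δ ε : ℝ} (hs : 0 < s) (hδ : 0 ≤ δ) (hε : 0 ≤ ε) (hε2 : p * ε ≤ 1 / 2)
    {a : (Fin d → ℕ) → Matrix (Fin n) (Fin n) (WittVector p F)}
    {Z Z' : (Fin d → ℕ) → Matrix (Fin n1) (Fin n) (WittVector p F)}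
    (ha : MB v s δ (-ε) a) (hZ : MB v s δ (-ε) Z) (h : MB v s δ (1 / 2) (fun y => Z' y - Z y)) :
    MB v s δ (1 - ε) (fun y => Cf p (a y) (Z' y) - Cf p (a y) (Z y)) := by
  unfold Cf
  simp only [← Matrix.sub_mul]
  have h1 : MB v s δ 1 (fun y => (Z' y).map (· ^ p) - (Z y).map (· ^ p)) := by
    intro i j
    exact pow_LA hs hδ hε hε2 (hZ i j) (h i j)
  have := h1.mul hs hδ ha
  simpa only [sub_eq_add_neg] using this

theorem Qf_LA {s δ ε : ℝ} (hs : 0 < s) (hδ : 0 ≤ δ) (hε : 0 ≤ ε) (hε2 : p * ε ≤ 1 / 2)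
    (κ : Fin n1 → Fin n)
    {a : (Fin d → ℕ) → Matrix (Fin n) (Fin n) (WittVector p F)}
    {Z Z' : (Fin d → ℕ) → Matrix (Fin n1) (Fin n) (WittVector p F)}
    (ha : MB v s δ (-ε) a) (hZ : MB v s δ (-ε) Z) (h : MB v s δ (1 / 2) (fun y => Z' y - Z y)) :
    MB v s δ (1 - ε) (fun y => Qf p κ (a y) (Z' y) - Qf p κ (a y) (Z y)) := by
  intro i j
  exact Cf_LA hs hδ hε hε2 ha hZ h i (κ j)

/-- the fixed point theorem -/
theorem fix_thm {s δ ε : ℝ} (hs : 0 < s) (hδ : 0 ≤ δ) (hε : 0 ≤ ε) (hε2 : p * ε ≤ 1 / 2)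
    (hε3 : 6 * ε ≤ 1)
    (κ : Fin n1 → Fin n)
    {a : (Fin d → ℕ) → Matrix (Fin n) (Fin n) (WittVector p F)}
    {Z0 : (Fin d → ℕ) → Matrix (Fin n1) (Fin n) (WittVector p F)}
    {Q' : (Fin d → ℕ) → Matrix (Fin n1) (Fin n1) (WittVector p F)}
    (ha : MB v s δ (-ε) a) (hZ0 : MB v s δ (-ε) Z0) (hQ' : MB v s δ (-ε) Q')
    (hQ : ∀ y, Q' y * Qf p κ (a y) (Z0 y) = 1)
    (hE : ∀ y, Dv 1 (Psi p κ (a y) (Z0 y)))
    (hE2 : MB v s δ (1 - ε) (fun y => Psi p κ (a y) (Z0 y))) :
    ∃ L : (Fin d → ℕ) → Matrix (Fin n1) (Fin n) (WittVector p F),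
      (∀ y, Psi p κ (a y) (L y) = 0) ∧ (∀ y, Dv 1 (L y - Z0 y)) ∧ MB v s δ (-ε) L := by
  -- the iteration
  let K : (Fin d → ℕ) → Matrix (Fin n1) (Fin n) (WittVector p F) →
      Matrix (Fin n1) (Fin n) (WittVector p F) := fun y Z => Z - Q' y * Psi p κ (a y) Z
  let Zs : ℕ → (Fin d → ℕ) → Matrix (Fin n1) (Fin n) (WittVector p F) :=
    fun k y => (K y)^[k] (Z0 y)
  have hZs0 : ∀ y, Zs 0 y = Z0 y := fun y => rfl
  have hZsS : ∀ k y, Zs (k + 1) y = Zs k y - Q' y * Psi p κ (a y) (Zs k y) := by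
    intro k y
    simp only [Zs, Function.iterate_succ_apply']
    rfl
  -- key identity
  have hid : ∀ y (Z Z' : Matrix (Fin n1) (Fin n) (WittVector p F)),
      K y Z' - K y Z = Q' y * ((Qf p κ (a y) (Z0 y) - Qf p κ (a y) Z) * (Z' - Z)
        - (Qf p κ (a y) Z' - Qf p κ (a y) Z) * Z' + (Cf p (a y) Z' - Cf p (a y) Z)) := by
    intro y Z Z'
    have e1 : Z' - Z = Q' y * (Qf p κ (a y) (Z0 y) * (Z' - Z)) := by
      rw [← Matrix.mul_assoc, hQ, Matrix.one_mul]
    have e2 : K y Z' - K y Z = (Z' - Z) - Q' y * (Psi p κ (a y) Z' - Psi p κ (a y) Z) := by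
      simp only [K, Matrix.mul_sub]
      abel
    rw [e2]
    conv_lhs => rw [e1]
    rw [← Matrix.mul_sub]
    congr 1
    simp only [Psi, Matrix.mul_sub, Matrix.sub_mul]
    abel
  have hdiff : ∀ k y, Zs (k + 2) y - Zs (k + 1) y =
      Q' y * ((Qf p κ (a y) (Z0 y) - Qf p κ (a y) (Zs k y)) * (Zs (k + 1) y - Zs k y)
        - (Qf p κ (a y) (Zs (k + 1) y) - Qf p κ (a y) (Zs k y)) * Zs (k + 1) y
        + (Cf p (a y) (Zs (k + 1) y) - Cf p (a y) (Zs k y))) := by
    intro k y
    rw [← hid]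
    simp only [Zs, Function.iterate_succ_apply']
  -- induction
  have main : ∀ k, (∀ y, Dv (k + 1) (Zs (k + 1) y - Zs k y)) ∧
      MB v s δ (1 / 2) (fun y => Zs (k + 1) y - Zs k y) ∧
      (∀ y, Dv 1 (Zs k y - Z0 y)) ∧ MB v s δ (1 / 2) (fun y => Zs k y - Z0 y) := by
    intro k
    induction k with
    | zero =>
      have e1 : ∀ y, Zs 1 y - Zs 0 y = - (Q' y * Psi p κ (a y) (Z0 y)) := by
        intro y
        rw [hZsS, hZs0]; abel
      refine ⟨fun y => ?_, ?_, fun y => ?_, ?_⟩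
      · rw [e1]
        exact (Dv.mul_left _ (hE y)).neg
      · have e2 : (fun y => Zs (0 + 1) y - Zs 0 y) = fun y => - (Q' y * Psi p κ (a y) (Z0 y)) :=
          funext e1
        rw [e2]
        refine ((hQ'.mul hs hδ hE2).neg hs).mono hs ?_
        linarith
      · rw [hZs0, sub_self]
        intro i j; simp
      · simp only [hZs0, sub_self]
        intro i j
        simpa using LA.zero
    | succ k ih =>
      obtain ⟨h1, h2, h3, h4⟩ := ih
      have h3' : ∀ y, Dv 1 (Zs (k + 1) y - Z0 y) := by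
        intro y
        have : Zs (k + 1) y - Z0 y = (Zs (k + 1) y - Zs k y) + (Zs k y - Z0 y) := by abel
        rw [this]
        exact ((h1 y).mono (by omega)).add (h3 y)
      have h4' : MB v s δ (1 / 2) (fun y => Zs (k + 1) y - Z0 y) := by
        have : (fun y => Zs (k + 1) y - Z0 y) =
            fun y => (Zs (k + 1) y - Zs k y) + (Zs k y - Z0 y) := by
          ext1 y; abel
        rw [this]
        exact h2.add hs h4
      have hZsk : ∀ (W : (Fin d → ℕ) → Matrix (Fin n1) (Fin n) (WittVector p F)),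
          MB v s δ (1 / 2) (fun y => W y - Z0 y) → MB v s δ (-ε) W := by
        intro W hW
        have : W = fun y => (W y - Z0 y) + Z0 y := by ext1 y; abel
        rw [this]
        exact (hW.mono hs (by linarith)).add hs hZ0
      have h5 := hZsk _ h4
      have h6 := hZsk _ h4'
      refine ⟨fun y => ?_, ?_, h3', h4'⟩
      · rw [hdiff]
        refine Dv.mul_left _ (Dv.add (Dv.sub ?_ ?_) ?_)
        · have e1 : Dv 2 (Qf p κ (a y) (Z0 y) - Qf p κ (a y) (Zs k y)) := by
            have := Qf_congr le_rfl κ (a y) (h3 y)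
            have e2 := this.neg
            rwa [neg_sub] at e2
          exact (e1.mul (h1 y)).mono (by omega)
        · exact Dv.mul_right (Qf_congr (by omega) κ (a y) (h1 y)) _
        · exact Cf_congr (by omega) (a y) (h1 y)
      · have e0 : (fun y => Zs (k + 1 + 1) y - Zs (k + 1) y) = _ := funext fun y => hdiff k y
        rw [e0]
        have e1 : MB v s δ (1 - ε) (fun y => Qf p κ (a y) (Z0 y) - Qf p κ (a y) (Zs k y)) := by
          have := Qf_LA hs hδ hε hε2 κ ha hZ0 h4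
          have e2 := this.neg hs
          simpa only [neg_sub] using e2
        have e2 := e1.mul hs hδ h2
        have e3 := (Qf_LA hs hδ hε hε2 κ ha h5 h2).mul hs hδ h6
        have e4 := Cf_LA hs hδ hε hε2 ha h5 h2
        have e5 := ((e2.mono hs (by linarith : 1 - 2 * ε ≤ 1 - ε + 1 / 2)).sub hs
          (e3.mono hs (by linarith : 1 - 2 * ε ≤ 1 - ε + -ε))).add hs
          (e4.mono hs (by linarith : 1 - 2 * ε ≤ 1 - ε))
        refine (hQ'.mul hs hδ e5).mono hs ?_
        linarith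
  -- the limit
  have hlim : ∀ y i j, ∃ L, ∀ k, (p : WittVector p F) ^ (k + 1) ∣ L - Zs k y i j := by
    intro y i j
    exact exists_limit (fun k => Zs k y i j) fun k => (main k).1 y i j
  choose L hL using hlim
  have hLDv : ∀ y k, Dv (k + 1) ((Matrix.of (L y)) - Zs k y) := fun y k i j => hL y i j k
  have hdiv0 : ∀ y k, Dv (k + 1) (Psi p κ (a y) (Zs k y)) := by
    intro y k
    have e1 : Psi p κ (a y) (Zs k y) = Qf p κ (a y) (Z0 y) * Q' y * Psi p κ (a y) (Zs k y) := by
      have : Qf p κ (a y) (Z0 y) * Q' y = 1 := mul_eq_one_comm.1 (hQ y)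
      rw [this, Matrix.one_mul]
    have e2 : Q' y * Psi p κ (a y) (Zs k y) = Zs k y - Zs (k + 1) y := by
      rw [hZsS]; abel
    rw [e1, Matrix.mul_assoc, e2]
    refine Dv.mul_left _ ?_
    have := ((main k).1 y).neg
    rwa [neg_sub] at this
  refine ⟨fun y => Matrix.of (L y), fun y => ?_, fun y => ?_, ?_⟩
  · -- equation
    refine Matrix.ext fun i j => ?_
    refine eq_zero_of_p_pow_dvd fun k => ?_
    have e1 : Psi p κ (a y) (Matrix.of (L y)) = Psi p κ (a y) (Zs k y)
        + ((Qf p κ (a y) (Matrix.of (L y)) - Qf p κ (a y) (Zs k y)) * Matrix.of (L y)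
          + Qf p κ (a y) (Zs k y) * (Matrix.of (L y) - Zs k y)
          - (Cf p (a y) (Matrix.of (L y)) - Cf p (a y) (Zs k y))) := by
      simp only [Psi, Matrix.mul_sub, Matrix.sub_mul]
      abel
    have e2 : Dv (k + 1) (Psi p κ (a y) (Matrix.of (L y))) := by
      rw [e1]
      refine (hdiv0 y k).add (((Dv.mul_right ?_ _).add (Dv.mul_left _ (hLDv y k))).sub ?_)
      · exact (Qf_congr (by omega) κ (a y) (hLDv y k)).mono (by omega)
      · exact (Cf_congr (by omega) (a y) (hLDv y k)).mono (by omega)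
    exact (pow_dvd_pow _ (Nat.le_succ k)).trans (e2 i j)
  · have := hLDv y 0
    rwa [hZs0] at this
  · intro i j l y
    refine Bd.closed fun N => ⟨DD l (fun y => Zs N y i j) y, ?_, ?_⟩
    · -- congruence of differences
      have e1 : ∀ y, (p : WittVector p F) ^ N ∣ L y i j - Zs N y i j := fun y =>
        (pow_dvd_pow _ (Nat.le_succ N)).trans (hL y i j N)
      have e2 : ∀ (l : List (Fin d)) (y : Fin d → ℕ), (p : WittVector p F) ^ N ∣
          DD l (fun y => L y i j) y - DD l (fun y => Zs N y i j) y := by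
        intro l
        induction l with
        | nil => exact e1
        | cons b l ih =>
          intro y
          rw [DD_cons, DD_cons]
          simp only [fwdDiff]
          have := dvd_sub (ih (y + Pi.single b 1)) (ih y)
          convert this using 1
          ring
      exact e2 l y
    · have h4 := (main N).2.2.2
      have h5 : MB v s δ (-ε) (fun y => Zs N y) := by
        have : (fun y => Zs N y) = fun y => (Zs N y - Z0 y) + Z0 y := by ext1 y; abel
        rw [this]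
        exact (h4.mono hs (by linarith)).add hs hZ0
      exact h5 i j l y

end fix

end Run7.h89
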