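import Pool.Agent.Run7.h89.Bd

/-!
Locally analytic functions `ℕ^d → W(F)` through iterated forward differences.
-/

set_option linter.unusedSectionVars false

namespace Run7.h89

open WittVector Filter

section DD

variable {d : ℕ} {M : Type*} [AddCommGroup M]

/-- iterated differences along a list of directions. -/
def DD (l : List (Fin d)) (f : (Fin d → ℕ) → M) : (Fin d → ℕ) → M :=
  l.foldr (fun j g => fwdDiff (Pi.single j 1) g) f

@[simp] theorem DD_nil (f : (Fin d → ℕ) → M) : DD [] f = f := rfl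

theorem DD_cons (j : Fin d) (l : List (Fin d)) (f : (Fin d → ℕ) → M) :
    DD (j :: l) f = fwdDiff (Pi.single j 1) (DD l f) := rfl

theorem fwdDiff_comm' {A : Type*} [AddCommMonoid A] (a b : A) (f : A → M) :
    fwdDiff a (fwdDiff b f) = fwdDiff b (fwdDiff a f) := by
  ext y
  simp only [fwdDiff]
  rw [add_right_comm y a b]
  abel

theorem DD_fwdDiff (j : Fin d) (l : List (Fin d)) (f : (Fin d → ℕ) → M) :
    DD l (fwdDiff (Pi.single j 1) f) = fwdDiff (Pi.single j 1) (DD l f) := by
  induction l with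
  | nil => rfl
  | cons i l ih => rw [DD_cons, ih, DD_cons, fwdDiff_comm']

theorem DD_cons' (j : Fin d) (l : List (Fin d)) (f : (Fin d → ℕ) → M) :
    DD (j :: l) f = DD l (fwdDiff (Pi.single j 1) f) := by
  rw [DD_fwdDiff, DD_cons]

theorem DD_append (l l' : List (Fin d)) (f : (Fin d → ℕ) → M) :
    DD (l ++ l') f = DD l (DD l' f) := by
  induction l with
  | nil => rfl
  | cons i l ih => rw [List.cons_append, DD_cons, ih, DD_cons]

theorem DD_add (l : List (Fin d)) (f g : (Fin d → ℕ) → M) :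
    DD l (fun y => f y + g y) = fun y => DD l f y + DD l g y := by
  induction l with
  | nil => rfl
  | cons i l ih =>
    rw [DD_cons, ih, DD_cons, DD_cons]
    ext y; simp only [fwdDiff]; abel

theorem DD_map {M' : Type*} [AddCommGroup M'] (φ : M →+ M') (l : List (Fin d))
    (f : (Fin d → ℕ) → M) : DD l (fun y => φ (f y)) = fun y => φ (DD l f y) := by
  induction l with
  | nil => rfl
  | cons i l ih =>
    rw [DD_cons, ih, DD_cons]
    ext y; simp only [fwdDiff, map_sub]

theorem DD_const (l : List (Fin d)) (hl : l ≠ []) (c : M) :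
    DD l (fun _ => c) = fun _ => 0 := by
  cases l with
  | nil => exact absurd rfl hl
  | cons i l =>
    rw [DD_cons']
    have : fwdDiff (Pi.single i 1 : Fin d → ℕ) (fun _ => c) = fun _ => (0 : M) := by simp
    rw [this]
    have := DD_map (0 : M →+ M) l (fun _ => c)
    simpa using this

theorem DD_shift (l : List (Fin d)) (a : Fin d → ℕ) (f : (Fin d → ℕ) → M) :
    DD l (fun y => f (y + a)) = fun y => DD l f (y + a) := by
  induction l with
  | nil => rfl
  | cons i l ih =>
    rw [DD_cons, ih, DD_cons]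
    ext y; simp only [fwdDiff]
    rw [add_right_comm]

theorem DD_replicate (j : Fin d) (k : ℕ) (f : (Fin d → ℕ) → M) :
    DD (List.replicate k j) f = (fwdDiff (Pi.single j 1))^[k] f := by
  induction k with
  | zero => rfl
  | succ k ih => rw [List.replicate_succ, DD_cons, ih, Function.iterate_succ_apply']

theorem pi_nat_induction {P : (Fin d → ℕ) → Prop} (h0 : P 0)
    (h : ∀ y j, P y → P (y + Pi.single j 1)) : ∀ y, P y := by
  classical
  have : ∀ n : ℕ, ∀ y : Fin d → ℕ, ∑ i, y i = n → P y := by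
    intro n
    induction n with
    | zero =>
      intro y hy
      have : y = 0 := by
        funext i
        exact (Finset.sum_eq_zero_iff.1 hy) i (Finset.mem_univ i)
      rwa [this]
    | succ n ih =>
      intro y hy
      obtain ⟨j, hj⟩ : ∃ j, y j ≠ 0 := by
        by_contra hcon
        push Not at hcon
        simp [hcon] at hy
      have hy2 : y = (y - Pi.single j 1) + Pi.single j 1 := by
        funext i
        rcases eq_or_ne i j with rfl | hij
        · simp only [Pi.add_apply, Pi.sub_apply, Pi.single_eq_same]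
          omega
        · simp [hij]
      rw [hy2]
      refine h _ _ (ih _ ?_)
      have h3 : ∑ i, y i = ∑ i, (y - Pi.single j 1 : Fin d → ℕ) i
          + ∑ i, (Pi.single j 1 : Fin d → ℕ) i := by
        rw [← Finset.sum_add_distrib]
        exact congrArg (fun z : Fin d → ℕ => ∑ i, z i) hy2
      rw [Finset.sum_pi_single' ] at h3
      simp at h3
      simp only [Pi.sub_apply]
      omega
  intro y
  exact this _ y rfl

end DD

variable {p : ℕ} [hp : Fact p.Prime] {F : Type*} [Field F] [CharP F p] [PerfectRing F p]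
variable {d : ℕ}
variable (v : Valuation F NNReal)

/-- all iterated differences of length `l` have `w_s ≥ δ l + μ`. -/
def LA (s δ μ : ℝ) (f : (Fin d → ℕ) → WittVector p F) : Prop :=
  ∀ (l : List (Fin d)) (y : Fin d → ℕ), Bd v s (δ * l.length + μ) (DD l f y)

variable {v}

theorem DD_bd {s c : ℝ} (hs : 0 < s) {f : (Fin d → ℕ) → WittVector p F}
    (h : ∀ y, Bd v s c (f y)) (l : List (Fin d)) : ∀ y, Bd v s c (DD l f y) := by
  induction l with
  | nil => exact h
  | cons i l ih =>
    intro y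
    rw [DD_cons]
    exact (ih _).sub hs (ih _)

theorem LA.mono {s δ δ' μ μ' : ℝ} (hs : 0 < s) (hδ : δ' ≤ δ) (hμ : μ' ≤ μ)
    {f : (Fin d → ℕ) → WittVector p F} (h : LA v s δ μ f) : LA v s δ' μ' f := fun l y =>
  (h l y).mono hs (by gcongr)

theorem LA.add {s δ μ : ℝ} (hs : 0 < s) {f g : (Fin d → ℕ) → WittVector p F}
    (hf : LA v s δ μ f) (hg : LA v s δ μ g) : LA v s δ μ (fun y => f y + g y) := fun l y => by
  rw [DD_add]; exact (hf l y).add hs (hg l y)

theorem LA.neg {s δ μ : ℝ} (hs : 0 < s) {f : (Fin d → ℕ) → WittVector p F}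
    (hf : LA v s δ μ f) : LA v s δ μ (fun y => - f y) := fun l y => by
  have := DD_map (-(AddMonoidHom.id (WittVector p F))) l f
  simp only [AddMonoidHom.neg_apply, AddMonoidHom.id_apply] at this
  rw [this]
  exact (hf l y).neg hs

theorem LA.sub {s δ μ : ℝ} (hs : 0 < s) {f g : (Fin d → ℕ) → WittVector p F}
    (hf : LA v s δ μ f) (hg : LA v s δ μ g) : LA v s δ μ (fun y => f y - g y) := by
  have := hf.add hs (hg.neg hs)
  simpa only [← sub_eq_add_neg] using this

theorem LA.zero {s δ μ : ℝ} : LA v s δ μ (fun _ : Fin d → ℕ => (0 : WittVector p F)) :=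
  fun l y => by
    have := DD_map (0 : WittVector p F →+ WittVector p F) l (fun _ : Fin d → ℕ => 0)
    simp only [AddMonoidHom.zero_apply] at this
    rw [this]; exact Bd.zero

theorem LA.sum {s δ μ : ℝ} (hs : 0 < s) {ι : Type*} {S : Finset ι}
    {f : ι → (Fin d → ℕ) → WittVector p F}
    (h : ∀ i ∈ S, LA v s δ μ (f i)) : LA v s δ μ (fun y => ∑ i ∈ S, f i y) := by
  classical
  induction S using Finset.induction_on with
  | empty => simpa using LA.zero
  | insert a S ha ih =>
    simp only [Finset.sum_insert ha]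
    exact (h a (Finset.mem_insert_self _ _)).add hs
      (ih fun i hi => h i (Finset.mem_insert_of_mem hi))

theorem LA.const {s δ μ : ℝ} {c : WittVector p F} (h : Bd v s μ c) :
    LA v s δ μ (fun _ : Fin d → ℕ => c) := fun l y => by
  cases l with
  | nil => simpa using h
  | cons i l => rw [DD_const _ (by simp)]; exact Bd.zero

theorem LA.shift {s δ μ : ℝ} {f : (Fin d → ℕ) → WittVector p F}
    (hf : LA v s δ μ f) (a : Fin d → ℕ) : LA v s δ μ (fun y => f (y + a)) := fun l y => by
  rw [DD_shift]; exact hf l _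

theorem LA.diff {s δ μ : ℝ} {f : (Fin d → ℕ) → WittVector p F}
    (hf : LA v s δ μ f) (j : Fin d) : LA v s δ (δ + μ) (fwdDiff (Pi.single j 1) f) :=
  fun l y => by
    rw [← DD_cons']
    have := hf (j :: l) y
    rw [List.length_cons] at this
    push_cast at this
    convert this using 1
    ring

theorem LA.mul {s δ μ μ' : ℝ} (hs : 0 < s) (hδ : 0 ≤ δ) {f g : (Fin d → ℕ) → WittVector p F}
    (hf : LA v s δ μ f) (hg : LA v s δ μ' g) : LA v s δ (μ + μ') (fun y => f y * g y) := by
  intro l
  induction l generalizing f g μ μ' with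
  | nil =>
    intro y
    have := (hf [] y).mul hs (hg [] y)
    simpa using this
  | cons i l ih =>
    intro y
    rw [DD_cons']
    have h1 : fwdDiff (Pi.single i 1 : Fin d → ℕ) (fun y => f y * g y)
        = fun y => (fwdDiff (Pi.single i 1) f y * g y + f y * fwdDiff (Pi.single i 1) g y)
          + fwdDiff (Pi.single i 1) f y * fwdDiff (Pi.single i 1) g y := by
      ext1 y; simp only [fwdDiff]; ring
    rw [h1, DD_add, DD_add]
    have hf' := hf.diff i
    have hg' := hg.diff i
    rw [List.length_cons]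
    push_cast
    have e1 := ih hf' hg y
    have e2 := ih hf hg' y
    have e3 := ih hf' hg' y
    refine ((e1.mono hs ?_).add hs (e2.mono hs ?_)).add hs (e3.mono hs ?_) <;> nlinarith

theorem LA.pow {s δ μ : ℝ} (hs : 0 < s) (hδ : 0 ≤ δ) {f : (Fin d → ℕ) → WittVector p F}
    (hf : LA v s δ μ f) (n : ℕ) : LA v s δ (n * μ) (fun y => f y ^ n) := by
  induction n with
  | zero => simpa using LA.const (v := v) (δ := δ) (d := d) Bd.one
  | succ n ih =>
    have := ih.mul hs hδ hf
    simp only [pow_succ]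
    push_cast
    convert this using 1
    ring

theorem LA.const_mul {s δ μ μ' : ℝ} (hs : 0 < s) (hδ : 0 ≤ δ) {c : WittVector p F}
    (hc : Bd v s μ c) {g : (Fin d → ℕ) → WittVector p F}
    (hg : LA v s δ μ' g) : LA v s δ (μ + μ') (fun y => c * g y) :=
  (LA.const hc).mul hs hδ hg

theorem LA.bd {s δ μ : ℝ} {f : (Fin d → ℕ) → WittVector p F}
    (hf : LA v s δ μ f) (y : Fin d → ℕ) : Bd v s μ (f y) := by
  simpa using hf [] y

theorem LA.iter {s δ μ : ℝ} {f : (Fin d → ℕ) → WittVector p F}
    (hf : LA v s δ μ f) (j : Fin d) (k : ℕ) :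
    LA v s δ (k * δ + μ) ((fwdDiff (Pi.single j 1))^[k] f) := by
  induction k with
  | zero => simpa using hf
  | succ k ih =>
    rw [Function.iterate_succ_apply']
    have := ih.diff j
    push_cast
    convert this using 1
    ring

/-- the operator `f ↦ f (· + p e_j) - f` -/
def PD (p : ℕ) (j : Fin d) {M : Type*} [AddCommGroup M] (f : (Fin d → ℕ) → M) :
    (Fin d → ℕ) → M := fun y => f (y + p • Pi.single j 1) - f y

theorem LA.pd {s δ μ : ℝ} (hs : 0 < s) (hδ : 0 ≤ δ) {f : (Fin d → ℕ) → WittVector p F}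
    (hf : LA v s δ μ f) (j : Fin d) : LA v s δ (min (1 + δ) (2 * δ) + μ) (PD p j f) := by
  have h1 : PD p j f = fun y => ∑ k ∈ Finset.range p,
      ((p.choose (k + 1) : ℕ) : WittVector p F) * (fwdDiff (Pi.single j 1))^[k + 1] f y := by
    ext1 y
    unfold PD
    rw [shift_eq_sum_fwdDiff_iter (Pi.single j 1) f p y, Finset.sum_range_succ']
    simp only [nsmul_eq_mul, Nat.choose_zero_right, Nat.cast_one, one_mul, Function.iterate_zero,
      id_eq]
    ring
  rw [h1]
  refine LA.sum hs fun k hk => ?_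
  have hk' := Finset.mem_range.1 hk
  have h2 := hf.iter j (k + 1)
  rcases Nat.lt_or_ge (k + 1) p with hlt | hge
  · have h3 : Bd v s 1 ((p.choose (k + 1) : ℕ) : WittVector p F) :=
      Bd.p_natCast hs (hp.out.dvd_choose_self (Nat.succ_ne_zero k) hlt)
    refine (LA.const_mul hs hδ h3 h2).mono hs le_rfl ?_
    push_cast
    have : min (1 + δ) (2 * δ) ≤ 1 + δ := min_le_left _ _
    nlinarith [mul_nonneg (Nat.cast_nonneg (α := ℝ) k) hδ]
  · have h3 : Bd v s 0 ((p.choose (k + 1) : ℕ) : WittVector p F) := Bd.natCast hs _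
    refine (LA.const_mul hs hδ h3 h2).mono hs le_rfl ?_
    push_cast
    have : min (1 + δ) (2 * δ) ≤ 2 * δ := min_le_right _ _
    have h5 : (1 : ℝ) ≤ k := by
      have := hp.out.two_le
      have : 1 ≤ k := by omega
      exact_mod_cast this
    nlinarith [mul_nonneg (Nat.cast_nonneg (α := ℝ) k) hδ]

theorem DD_res (l : List (Fin d)) {M : Type*} [AddCommGroup M] (f : (Fin d → ℕ) → M) :
    DD l (fun y => f (p • y)) = fun y => (l.foldr (fun j g => PD p j g) f) (p • y) := by
  induction l with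
  | nil => rfl
  | cons i l ih =>
    rw [DD_cons, ih]
    ext1 y
    simp only [fwdDiff, List.foldr_cons, PD]
    rw [smul_add]

theorem LA.res {s δ μ : ℝ} (hs : 0 < s) (hδ : 0 ≤ δ) {f : (Fin d → ℕ) → WittVector p F}
    (hf : LA v s δ μ f) : LA v s (min (1 + δ) (2 * δ)) μ (fun y => f (p • y)) := by
  intro l y
  rw [DD_res]
  have : LA v s δ (min (1 + δ) (2 * δ) * l.length + μ) (l.foldr (fun j g => PD p j g) f) := by
    clear y
    induction l with
    | nil => simpa using hf
    | cons i l ih =>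
      have := ih.pd hs hδ i
      rw [List.foldr_cons, List.length_cons]
      push_cast
      convert this using 1
      ring
  exact this.bd _

theorem LA.res_iter {s δ μ : ℝ} (hs : 0 < s) (hδ : 0 ≤ δ) {f : (Fin d → ℕ) → WittVector p F}
    (hf : LA v s δ μ f) (m : ℕ) :
    LA v s (δ + m * min 1 δ) μ (fun y => f (p ^ m • y)) := by
  induction m with
  | zero => simpa using hf
  | succ m ih =>
    have h0 : 0 ≤ min 1 δ := le_min zero_le_one hδ
    have h1 := ih.res hs (by positivity)
    have h2 : (fun y => f (p ^ m • p • y)) = (fun y : Fin d → ℕ => f (p ^ (m + 1) • y)) := by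
      ext1 y; rw [smul_smul, pow_succ]
    rw [h2] at h1
    refine h1.mono hs ?_ le_rfl
    push_cast
    have h3 : δ ≤ δ + m * min 1 δ := by
      have : 0 ≤ m * min 1 δ := by positivity
      linarith
    refine le_min ?_ ?_
    · have := min_le_left 1 δ
      linarith
    · have := min_le_right 1 δ
      linarith

theorem LA.res_iter' {s δ μ : ℝ} (hs : 0 < s) (hδ : 0 ≤ δ) {f : (Fin d → ℕ) → WittVector p F}
    (hf : LA v s δ μ f) (m : ℕ) : LA v s δ μ (fun y => f (p ^ m • y)) := by
  refine (hf.res_iter hs hδ m).mono hs ?_ le_rfl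
  have h0 : 0 ≤ min 1 δ := le_min zero_le_one hδ
  have : 0 ≤ m * min 1 δ := by positivity
  linarith

theorem LA.of_fwdDiff {s c : ℝ} (hs : 0 < s) {f : (Fin d → ℕ) → WittVector p F}
    (h0 : f 0 = 0) (h : ∀ j y, Bd v s c (fwdDiff (Pi.single j 1) f y)) :
    ∀ y, Bd v s c (f y) := by
  refine pi_nat_induction ?_ fun y j hy => ?_
  · rw [h0]; exact Bd.zero
  · have := h j y
    have h2 : f (y + Pi.single j 1) = f y + fwdDiff (Pi.single j 1) f y := by
      simp [fwdDiff]
    rw [h2]; exact hy.add hs this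

/-- shrinking: after restriction to `p^m ℕ^d`, `f - f 0` is small. -/
theorem LA.shrink {s δ μ : ℝ} (hs : 0 < s) (hδ : 0 < δ) {f : (Fin d → ℕ) → WittVector p F}
    (hf : LA v s δ μ f) (κ : ℝ) :
    ∃ m0 : ℕ, ∀ m, m0 ≤ m → LA v s δ κ (fun y => f (p ^ m • y) - f 0) := by
  have h0 : 0 < min 1 δ := lt_min zero_lt_one hδ
  obtain ⟨m0, hm0⟩ := exists_nat_ge (|κ - μ| / min 1 δ)
  refine ⟨m0, fun m hm => ?_⟩
  rw [div_le_iff₀ h0] at hm0
  have hm1 : |κ - μ| ≤ m * min 1 δ := by
    refine hm0.trans ?_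
    have : (m0 : ℝ) ≤ m := by exact_mod_cast hm
    gcongr
  have h1 := hf.res_iter hs hδ.le m
  have h2 : ∀ (l : List (Fin d)), l ≠ [] → ∀ y, Bd v s (δ * l.length + κ)
      (DD l (fun y => f (p ^ m • y) - f 0) y) := by
    intro l hl y
    have h3 : DD l (fun y => f (p ^ m • y) - f 0) = DD l (fun y => f (p ^ m • y)) := by
      have := DD_add l (fun y => f (p ^ m • y)) (fun _ => - f 0)
      simp only [← sub_eq_add_neg] at this
      rw [this, DD_const l hl]
      simp
    rw [h3]
    refine (h1 l y).mono hs ?_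
    have h4 : (1 : ℝ) ≤ l.length := by
      have : 0 < l.length := List.length_pos_iff.2 hl
      exact_mod_cast this
    have h5 := le_abs_self (κ - μ)
    have h6 : 0 ≤ m * min 1 δ := by positivity
    nlinarith
  intro l
  cases l with
  | cons i l => exact h2 _ (by simp)
  | nil =>
    intro y
    simp only [DD_nil, List.length_nil, Nat.cast_zero, mul_zero, zero_add]
    refine LA.of_fwdDiff (f := fun y => f (p ^ m • y) - f 0) hs (by simp) ?_ y
    intro j y
    have := h2 [j] (by simp) y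
    refine this.mono hs ?_
    simp
    exact hδ.le

variable (v)

/-- locally analytic after restricting to `p^i ℕ^d` for some `i`. -/
def La (s : ℝ) (f : (Fin d → ℕ) → WittVector p F) : Prop :=
  ∃ (i : ℕ) (δ μ : ℝ), 0 < δ ∧ LA v s δ μ (fun y => f (p ^ i • y))

variable {v}

theorem La.lift {s : ℝ} (hs : 0 < s) {f : (Fin d → ℕ) → WittVector p F} (hf : La v s f) :
    ∃ (i0 : ℕ) (δ0 μ0 : ℝ), 0 < δ0 ∧ ∀ i, i0 ≤ i → ∀ δ ≤ δ0, ∀ μ ≤ μ0,
      LA v s δ μ (fun y => f (p ^ i • y)) := by
  obtain ⟨i, δ, μ, hδ, h⟩ := hf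
  refine ⟨i, δ, μ, hδ, fun i' hi δ' hδ' μ' hμ' => ?_⟩
  obtain ⟨k, rfl⟩ := Nat.exists_eq_add_of_le hi
  have h2 := h.res_iter' hs hδ.le k
  simp only [smul_smul, ← pow_add] at h2
  exact h2.mono hs hδ' hμ'

theorem La.common {s : ℝ} (hs : 0 < s) {ι : Type*} [Finite ι]
    {f : ι → (Fin d → ℕ) → WittVector p F} (hf : ∀ k, La v s (f k)) :
    ∃ (i0 : ℕ) (δ0 μ0 : ℝ), 0 < δ0 ∧ ∀ i, i0 ≤ i → ∀ δ ≤ δ0, ∀ μ ≤ μ0, ∀ k,
      LA v s δ μ (fun y => f k (p ^ i • y)) := by
  classical
  have := Fintype.ofFinite ι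
  choose i0 δ0 μ0 hδ0 h using fun k => (hf k).lift hs
  rcases isEmpty_or_nonempty ι with hemp | hne
  · exact ⟨0, 1, 0, one_pos, fun _ _ _ _ _ _ k => (hemp.false k).elim⟩
  · refine ⟨Finset.univ.sup i0, Finset.univ.inf' Finset.univ_nonempty δ0,
      Finset.univ.inf' Finset.univ_nonempty μ0, ?_, fun i hi δ hδ μ hμ k => ?_⟩
    · rw [Finset.lt_inf'_iff]; exact fun k _ => hδ0 k
    · exact h k i ((Finset.le_sup (Finset.mem_univ k)).trans hi) δ
        (hδ.trans (Finset.inf'_le _ (Finset.mem_univ k))) μ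
        (hμ.trans (Finset.inf'_le _ (Finset.mem_univ k)))

theorem La.add {s : ℝ} (hs : 0 < s) {f g : (Fin d → ℕ) → WittVector p F}
    (hf : La v s f) (hg : La v s g) : La v s (fun y => f y + g y) := by
  obtain ⟨i1, δ1, μ1, h1, hf⟩ := hf.lift hs
  obtain ⟨i2, δ2, μ2, h2, hg⟩ := hg.lift hs
  exact ⟨max i1 i2, min δ1 δ2, min μ1 μ2, lt_min h1 h2,
    (hf _ (le_max_left _ _) _ (min_le_left _ _) _ (min_le_left _ _)).add hs
      (hg _ (le_max_right _ _) _ (min_le_right _ _) _ (min_le_right _ _))⟩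

theorem La.mul {s : ℝ} (hs : 0 < s) {f g : (Fin d → ℕ) → WittVector p F}
    (hf : La v s f) (hg : La v s g) : La v s (fun y => f y * g y) := by
  obtain ⟨i1, δ1, μ1, h1, hf⟩ := hf.lift hs
  obtain ⟨i2, δ2, μ2, h2, hg⟩ := hg.lift hs
  exact ⟨max i1 i2, min δ1 δ2, min μ1 μ2 + min μ1 μ2, lt_min h1 h2,
    (hf _ (le_max_left _ _) _ (min_le_left _ _) _ (min_le_left _ _)).mul hs (lt_min h1 h2).le
      (hg _ (le_max_right _ _) _ (min_le_right _ _) _ (min_le_right _ _))⟩

theorem La.neg {s : ℝ} (hs : 0 < s) {f : (Fin d → ℕ) → WittVector p F}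
    (hf : La v s f) : La v s (fun y => - f y) := by
  obtain ⟨i1, δ1, μ1, h1, hf⟩ := hf
  exact ⟨i1, δ1, μ1, h1, hf.neg hs⟩

theorem La.const {s : ℝ} {c : WittVector p F} (h : ∃ μ, Bd v s μ c) :
    La v s (fun _ : Fin d → ℕ => c) := by
  obtain ⟨μ, h⟩ := h
  exact ⟨0, 1, μ, one_pos, LA.const h⟩

variable (v p d)

/-- the ring of locally analytic functions -/
noncomputable def LaRing (s : ℝ) (hs : 0 < s) : Subring ((Fin d → ℕ) → WittVector p F) where
  carrier := {f | La v s f}
  mul_mem' := fun hf hg => La.mul hs hf hg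
  one_mem' := La.const ⟨0, Bd.one⟩
  add_mem' := fun hf hg => La.add hs hf hg
  zero_mem' := La.const ⟨0, Bd.zero⟩
  neg_mem' := fun hf => La.neg hs hf

variable {v p d}

theorem LA.of_p_pow_mul {s δ μ : ℝ} {n : ℕ}
    {f : (Fin d → ℕ) → WittVector p F}
    (h : LA v s δ (μ + n) (fun y => (p : WittVector p F) ^ n * f y)) : LA v s δ μ f := by
  intro l y
  have := h l y
  have h2 := DD_map (AddMonoidHom.mulLeft ((p : WittVector p F) ^ n)) l f
  simp only [AddMonoidHom.coe_mulLeft] at h2
  rw [h2, ← add_assoc] at this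
  exact this.of_p_pow_mul

/-- division lemma -/
theorem La.div {s c c0 : ℝ} (hs : 0 < s) {D N z : (Fin d → ℕ) → WittVector p F}
    (hD : La v s D) (hN : La v s N) (h : ∀ y, D y * z y = N y) {a : ℕ} {u u' : WittVector p F}
    (hD0 : D 0 = (p : WittVector p F) ^ a * u) (hu : u * u' = 1) (hu' : Bd v s c u')
    (hz : ∀ y, Bd v s c0 (z y)) : La v s z := by
  obtain ⟨i1, δ1, μ1, h1, hD⟩ := hD.lift hs
  obtain ⟨i2, δ2, μ2, h2, hN⟩ := hN.lift hs
  set δ := min δ1 δ2 with hδ
  have hδ0 : 0 < δ := lt_min h1 h2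
  set μ := min μ1 μ2 with hμ
  set i := max i1 i2 with hi
  have hD' := hD i (le_max_left _ _) δ (min_le_left _ _) μ (min_le_left _ _)
  obtain ⟨m, hm⟩ := hD'.shrink hs hδ0 (a + 1 - c)
  have hη := hm m le_rfl
  have hN' := hN (i + m) ((le_max_right _ _).trans (Nat.le_add_right _ _)) δ (min_le_right _ _) μ
    (min_le_right _ _)
  simp only [smul_smul, ← pow_add, smul_zero] at hη
  -- the functions
  set η : (Fin d → ℕ) → WittVector p F := fun y => D (p ^ (i + m) • y) - D 0 with hηdef
  set hh : (Fin d → ℕ) → WittVector p F := fun y => u' * η y with hhdef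
  have hhLA : LA v s δ (a + 1) hh := by
    have := LA.const_mul hs hδ0.le hu' hη
    simpa using this
  set NN : (Fin d → ℕ) → WittVector p F := fun y => u' * N (p ^ (i + m) • y) with hNNdef
  have hNNLA : LA v s δ (c + μ) NN := LA.const_mul hs hδ0.le hu' hN'
  set zz : (Fin d → ℕ) → WittVector p F := fun y => z (p ^ (i + m) • y) with hzzdef
  have hrel : ∀ y, (p : WittVector p F) ^ a * zz y = NN y - hh y * zz y := by
    intro y
    have e1 := h (p ^ (i + m) • y)
    simp only [hNNdef, hhdef, hzzdef, hηdef, ← e1]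
    rw [hD0]
    have : u' * u = 1 := by rw [mul_comm]; exact hu
    linear_combination (-(p : WittVector p F) ^ a * z (p ^ (i + m) • y)) * this
  refine ⟨i + m, δ, c + μ - a, hδ0, ?_⟩
  -- claim
  have claim : ∀ K : ℕ, ∃ S : (Fin d → ℕ) → WittVector p F,
      LA v s δ (((K : ℝ) - 1) * a + (c + μ)) S ∧
      ∀ y, (p : WittVector p F) ^ (K * a) * zz y = S y + (-hh y) ^ K * zz y := by
    intro K
    induction K with
    | zero => exact ⟨fun _ => 0, LA.zero, fun y => by simp⟩
    | succ K ih =>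
      obtain ⟨S, hS, hS2⟩ := ih
      refine ⟨fun y => (p : WittVector p F) ^ (K * a) * NN y + (- hh y) * S y, ?_, fun y => ?_⟩
      · refine LA.add hs ?_ ?_
        · have e1 : Bd v s ((K * a : ℕ) : ℝ) ((p : WittVector p F) ^ (K * a)) := by
            have := (Bd.one (v := v) (p := p) (s := s)).p_pow_mul (K * a)
            simpa using this
          refine (LA.const_mul hs hδ0.le e1 hNNLA).mono hs le_rfl ?_
          push_cast
          linarith
        · refine ((hhLA.neg hs).mul hs hδ0.le hS).mono hs le_rfl ?_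
          push_cast
          linarith
      · have e2 := hS2 y
        have e3 := hrel y
        calc (p : WittVector p F) ^ ((K + 1) * a) * zz y
            = (p : WittVector p F) ^ (K * a) * ((p : WittVector p F) ^ a * zz y) := by
              rw [add_mul, one_mul, pow_add]; ring
          _ = (p : WittVector p F) ^ (K * a) * NN y
              - hh y * ((p : WittVector p F) ^ (K * a) * zz y) := by rw [e3]; ring
          _ = _ := by rw [e2]; ring
  intro l y
  -- choose K large
  obtain ⟨K, hK⟩ := exists_nat_ge (δ * l.length + (c + μ - a) - c0)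
  obtain ⟨S, hS, hS2⟩ := claim K
  have e1 : (fun y => (p : WittVector p F) ^ (K * a) * zz y)
      = fun y => S y + (-hh y) ^ K * zz y := funext hS2
  have e2 : Bd v s (δ * l.length + (c + μ - a) + (K * a : ℕ))
      (DD l (fun y => (p : WittVector p F) ^ (K * a) * zz y) y) := by
    rw [e1, DD_add]
    refine ((hS l y).mono hs ?_).add hs ?_
    · push_cast; linarith
    · have e3 : ∀ y, Bd v s (K * (a + 1) + c0) ((-hh y) ^ K * zz y) := by
        intro y
        have e4 := ((hhLA.neg hs).pow hs hδ0.le K).bd y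
        exact e4.mul hs (hz _)
      refine (DD_bd hs e3 l y).mono hs ?_
      push_cast
      nlinarith
  have h2 := DD_map (AddMonoidHom.mulLeft ((p : WittVector p F) ^ (K * a))) l zz
  simp only [AddMonoidHom.coe_mulLeft] at h2
  rw [h2] at e2
  exact e2.of_p_pow_mul

end Run7.h89
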