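import Pool.Agent.Run7.h89.LAfun

/-!
Freeness of the module of locally analytic vectors.
-/

set_option linter.unusedSectionVars false

namespace Run7.h89

open WittVector Filter

variable {p : ℕ} [hp : Fact p.Prime] {F : Type*} [Field F] [CharP F p] [PerfectRing F p]
variable {G : Type*} [Group G] [MulSemiringAction G F]

/-- action of `g` on Witt vectors -/
noncomputable def ga (g : G) : WittVector p F →+* WittVector p F :=
  WittVector.map (MulSemiringAction.toRingHom G F g)

theorem frobenius_ga (g : G) (x : WittVector p F) :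
    WittVector.frobenius (ga g x) = ga g (WittVector.frobenius x) := by
  ext k
  simp only [ga, WittVector.coeff_frobenius_charP, WittVector.map_coeff, map_pow]

/-- the data -/
structure Dat (p : ℕ) [hp : Fact p.Prime] (F : Type*) [Field F] [CharP F p] [PerfectRing F p]
    (G : Type*) [Group G] [MulSemiringAction G F] (h d : ℕ) where
  v : Valuation F NNReal
  hv : ∀ (g : G) (a : F), v (g • a) = v a
  R : G → Matrix (Fin h) (Fin h) (WittVector p F)
  hR : ∀ g i j, WittVector.frobenius (R g i j) = R g i j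
  H : Set G
  γ : (Fin d → ℕ) → G
  h0 : γ 0 ∈ H

variable {h d : ℕ}

namespace Dat

variable (D : Dat p F G h d)

/-- twisted action -/
noncomputable def tw (g : G) (x : Fin h → WittVector p F) : Fin h → WittVector p F :=
  fun i => ∑ j, D.R g i j * ga g (x j)

theorem tw_add (g : G) (x y : Fin h → WittVector p F) : D.tw g (x + y) = D.tw g x + D.tw g y := by
  ext1 i
  simp only [tw, Pi.add_apply, map_add, mul_add, Finset.sum_add_distrib]

theorem tw_smul (g : G) (c : WittVector p F) (x : Fin h → WittVector p F) :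
    D.tw g (fun i => c * x i) = fun i => ga g c * D.tw g x i := by
  ext1 i
  simp only [tw, map_mul, Finset.mul_sum]
  exact Finset.sum_congr rfl fun j _ => by ring

theorem tw_sum {ι : Type*} (S : Finset ι) (g : G) (c : ι → WittVector p F)
    (x : ι → Fin h → WittVector p F) :
    D.tw g (fun i => ∑ k ∈ S, c k * x k i) = fun i => ∑ k ∈ S, ga g (c k) * D.tw g (x k) i := by
  ext1 i
  simp only [tw, map_sum, map_mul, Finset.mul_sum]
  rw [Finset.sum_comm]
  exact Finset.sum_congr rfl fun j _ => Finset.sum_congr rfl fun k _ => by ring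

theorem tw_frob (g : G) (x : Fin h → WittVector p F) :
    D.tw g (fun i => WittVector.frobenius (x i)) = fun i => WittVector.frobenius (D.tw g x i) := by
  ext1 i
  simp only [tw, map_sum, map_mul, D.hR, frobenius_ga]

/-- scalars: overconvergent, invariant, locally analytic. -/
def Sc (s : ℝ) : Set (WittVector p F) :=
  {c | OC D.v s c ∧ (∀ g ∈ D.H, ga g c = c) ∧ La D.v s (fun y => ga (D.γ y) c)}

/-- locally analytic vectors. -/
def Mod (s : ℝ) : Set (Fin h → WittVector p F) :=
  {x | (∀ i, OC D.v s (x i)) ∧ (∀ g ∈ D.H, D.tw g x = x) ∧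
    ∀ i, La D.v s (fun y => D.tw (D.γ y) x i)}

end Dat

section scale

variable {v : Valuation F NNReal}

theorem LA.scale {s s' δ μ : ℝ} (hs' : 0 < s') (h : s' ≤ s)
    {f : (Fin d → ℕ) → WittVector p F} (hf : LA v s δ μ f) :
    LA v s' (δ * s' / s) (μ * s' / s) f := fun l y => by
  have hs : 0 < s := hs'.trans_le h
  have := (hf l y).scale hs' h
  convert this using 1
  field_simp

theorem La.scale {s s' : ℝ} (hs' : 0 < s') (h : s' ≤ s)
    {f : (Fin d → ℕ) → WittVector p F} (hf : La v s f) : La v s' f := by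
  have hs : 0 < s := hs'.trans_le h
  obtain ⟨i, δ, μ, hδ, hf⟩ := hf
  exact ⟨i, _, _, by positivity, hf.scale hs' h⟩

theorem LA_frobenius {s δ μ : ℝ} (hs : 0 < s) {f : (Fin d → ℕ) → WittVector p F} :
    LA v (s / p) δ μ (fun y => WittVector.frobenius (f y)) ↔ LA v s δ μ f := by
  refine forall_congr' fun l => forall_congr' fun y => ?_
  have h2 := DD_map (WittVector.frobenius (p := p) (R := F)).toAddMonoidHom l f
  simp only [RingHom.toAddMonoidHom_eq_coe, AddMonoidHom.coe_coe] at h2
  rw [h2]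
  exact bd_frobenius_iff hs

theorem La_frobenius {s : ℝ} (hs : 0 < s) {f : (Fin d → ℕ) → WittVector p F} :
    La v (s / p) (fun y => WittVector.frobenius (f y)) ↔ La v s f := by
  constructor
  · rintro ⟨i, δ, μ, hδ, hf⟩
    exact ⟨i, δ, μ, hδ, (LA_frobenius hs).1 hf⟩
  · rintro ⟨i, δ, μ, hδ, hf⟩
    exact ⟨i, δ, μ, hδ, (LA_frobenius hs).2 hf⟩

theorem La.of_p_pow_mul {s : ℝ} {n : ℕ}
    {f : (Fin d → ℕ) → WittVector p F}
    (h : La v s (fun y => (p : WittVector p F) ^ n * f y)) : La v s f := by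
  obtain ⟨i, δ, μ, hδ, h⟩ := h
  refine ⟨i, δ, μ - n, hδ, LA.of_p_pow_mul (n := n) ?_⟩
  simpa using h

variable (v)

/-- overconvergent elements form a ring -/
noncomputable def OCRing (s : ℝ) (hs : 0 < s) : Subring (WittVector p F) where
  carrier := {f | OC v s f}
  mul_mem' := fun hf hg => OC.mul hs hf hg
  one_mem' := OC.one hs
  add_mem' := fun hf hg => OC.add hs hf hg
  zero_mem' := OC.zero
  neg_mem' := fun hf => OC.neg hs hf

variable {v}

theorem det_mem {R : Type*} [CommRing R] (S : Subring R) {n : Type*} [Fintype n] [DecidableEq n]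
    (A : Matrix n n R) (h : ∀ i j, A i j ∈ S) : A.det ∈ S := by
  have : A = S.subtype.mapMatrix (Matrix.of fun i j => (⟨A i j, h i j⟩ : S)) := by
    ext i j; rfl
  rw [this, ← RingHom.map_det]
  exact Subtype.property _

theorem OC.det {s : ℝ} (hs : 0 < s) {n : Type*} [Fintype n] [DecidableEq n]
    (A : Matrix n n (WittVector p F)) (h : ∀ i j, OC v s (A i j)) : OC v s A.det :=
  det_mem (OCRing v s hs) A h

theorem La.det {s : ℝ} (hs : 0 < s) {n : Type*} [Fintype n] [DecidableEq n]
    (A : (Fin d → ℕ) → Matrix n n (WittVector p F)) (h : ∀ i j, La v s (fun y => A y i j)) :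
    La v s (fun y => (A y).det) := by
  have h1 := det_mem (LaRing p d v s hs) (Matrix.of fun i j => fun y => A y i j) h
  have h2 : (Matrix.of fun i j => fun y => A y i j : Matrix n n ((Fin d → ℕ) →
      WittVector p F)).det = fun y => (A y).det := by
    ext1 y
    have := RingHom.map_det (Pi.evalRingHom (fun _ : Fin d → ℕ => WittVector p F) y)
      (Matrix.of fun i j => fun y => A y i j)
    simp only [Pi.evalRingHom_apply] at this
    rw [this]
    rfl
  rwa [h2] at h1

theorem OC.p_pow {s : ℝ} (hs : 0 < s) (n : ℕ) : OC v s ((p : WittVector p F) ^ n) :=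
  Subring.pow_mem (OCRing v s hs) (natCast_mem _ p) n

end scale

/-- submatrix of the columns `m j` in rows `ι`. -/
def Mx {R : Type*} {n h : ℕ} (m : Fin n → Fin h → R) (ι : Fin n → Fin h) :
    Matrix (Fin n) (Fin n) R := Matrix.of fun i j => m j (ι i)

theorem Mx_update {R : Type*} {n h : ℕ} (m : Fin n → Fin h → R) (ι : Fin n → Fin h) (j : Fin n)
    (x : Fin h → R) : (Mx m ι).updateCol j (fun i => x (ι i)) = Mx (Function.update m j x) ι := by
  ext a b
  rcases eq_or_ne b j with rfl | hb
  · simp [Mx]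
  · simp [Mx, Matrix.updateCol_ne hb, Function.update_of_ne hb]

theorem cramer_mul {R : Type*} [CommRing R] {n : ℕ} (A : Matrix (Fin n) (Fin n) R)
    (c : Fin n → R) (j : Fin n) :
    (A.updateCol j (A.mulVec c)).det = A.det * c j := by
  rw [← Matrix.cramer_apply, Matrix.cramer_eq_adjugate_mulVec, Matrix.mulVec_mulVec,
    Matrix.adjugate_mul, Matrix.smul_mulVec, Matrix.one_mulVec]
  simp

/-- Cramer for combos -/
theorem cramer_combo {R : Type*} [CommRing R] {n h : ℕ} (m : Fin n → Fin h → R)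
    (ι : Fin n → Fin h) (c : Fin n → R) (x : Fin h → R) (hx : x = fun i => ∑ j, c j * m j i)
    (j : Fin n) : (Mx (Function.update m j x) ι).det = (Mx m ι).det * c j := by
  rw [← Mx_update, ← cramer_mul]
  congr 2
  ext i
  simp [Matrix.mulVec, dotProduct, Mx, hx, mul_comm]

/-- vanishing of bordered minors gives a linear relation. -/
theorem bordered {R : Type*} [CommRing R] [IsDomain R] {n h : ℕ} (m : Fin n → Fin h → R)
    (ι : Fin n → Fin h) (x : Fin h → R) (hm : (Mx m ι).det ≠ 0)
    (hz : ∀ i : Fin h, (Mx (Fin.cons x m : Fin (n + 1) → Fin h → R) (Fin.cons i ι)).det = 0)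
    (i : Fin h) :
    (Mx m ι).det * x i = ∑ j, (Mx (Function.update m j x) ι).det * m j i := by
  obtain ⟨w, hw0, hw⟩ := Matrix.exists_mulVec_eq_zero_iff.2 (hz i)
  have hrow : ∀ r : Fin (n + 1), ∑ j : Fin (n + 1),
      (Fin.cons x m : Fin (n + 1) → Fin h → R) j ((Fin.cons i ι : Fin (n + 1) → Fin h) r) * w j
        = 0 := by
    intro r
    have := congrFun hw r
    simpa [Matrix.mulVec, dotProduct, Mx] using this
  have h0 := hrow 0
  rw [Fin.sum_univ_succ] at h0
  simp only [Fin.cons_zero, Fin.cons_succ] at h0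
  have h1 : ∀ k : Fin n, x (ι k) * w 0 + ∑ j : Fin n, m j (ι k) * w j.succ = 0 := by
    intro k
    have := hrow k.succ
    rw [Fin.sum_univ_succ] at this
    simpa only [Fin.cons_zero, Fin.cons_succ] using this
  have hw00 : w 0 ≠ 0 := by
    intro hcon
    apply hw0
    have h2 : (Mx m ι).mulVec (fun j => w j.succ) = 0 := by
      ext k
      have := h1 k
      rw [hcon, mul_zero, zero_add] at this
      simpa [Matrix.mulVec, dotProduct, Mx] using this
    have h3 := Matrix.eq_zero_of_mulVec_eq_zero hm h2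
    ext j
    refine Fin.cases ?_ (fun j => ?_) j
    · exact hcon
    · exact congrFun h3 j
  -- Cramer
  have h4 : ∀ j, (Mx (Function.update m j x) ι).det * w 0 = - ((Mx m ι).det * w j.succ) := by
    intro j
    have e1 := cramer_combo m ι (fun j => - w j.succ) (fun i => ∑ j, (- w j.succ) * m j i) rfl j
    rw [← Mx_update] at e1
    have e2 : (fun k => (fun i => ∑ j, (- w j.succ) * m j i) (ι k)) =
        (w 0) • (fun k => x (ι k)) := by
      ext k
      have := h1 k
      simp only [Pi.smul_apply, smul_eq_mul, neg_mul, Finset.sum_neg_distrib]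
      rw [mul_comm (w 0)]
      have e3 : ∑ j : Fin n, w j.succ * m j (ι k) = ∑ j : Fin n, m j (ι k) * w j.succ :=
        Finset.sum_congr rfl fun j _ => mul_comm _ _
      rw [e3]
      linear_combination -this
    rw [e2, Matrix.det_updateCol_smul, Mx_update] at e1
    linear_combination e1
  have h5 : (w 0) * ((Mx m ι).det * x i) =
      (w 0) * ∑ j, (Mx (Function.update m j x) ι).det * m j i := by
    rw [Finset.mul_sum]
    have e1 : ∑ j, w 0 * ((Mx (Function.update m j x) ι).det * m j i)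
        = ∑ j, (- ((Mx m ι).det * w j.succ)) * m j i := by
      refine Finset.sum_congr rfl fun j _ => ?_
      rw [← h4]; ring
    rw [e1]
    have e2 : ∑ j : Fin n, (-((Mx m ι).det * w j.succ)) * m j i
        = - (Mx m ι).det * ∑ j : Fin n, m j i * w j.succ := by
      rw [Finset.mul_sum]
      exact Finset.sum_congr rfl fun j _ => by ring
    rw [e2]
    linear_combination (Mx m ι).det * h0
  exact mul_left_cancel₀ hw00 h5

namespace Dat

variable (D : Dat p F G h d)

theorem ga_OC {s : ℝ} {c : WittVector p F} (g : G) (hc : OC D.v s c) : OC D.v s (ga g c) :=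
  hc.map (fun a => D.hv g a)

theorem ga_Bd {s μ : ℝ} {c : WittVector p F} (g : G) (hc : Bd D.v s μ c) :
    Bd D.v s μ (ga g c) :=
  hc.map (fun a => D.hv g a)

theorem Sc_scale {s s' : ℝ} (hs' : 0 < s') (hss : s' ≤ s) {c : WittVector p F} (hc : c ∈ D.Sc s) :
    c ∈ D.Sc s' :=
  ⟨hc.1.scale hs' hss, hc.2.1, hc.2.2.scale hs' hss⟩

theorem Mod_scale {s s' : ℝ} (hs' : 0 < s') (hss : s' ≤ s) {x : Fin h → WittVector p F}
    (hx : x ∈ D.Mod s) : x ∈ D.Mod s' :=
  ⟨fun i => (hx.1 i).scale hs' hss, hx.2.1, fun i => (hx.2.2 i).scale hs' hss⟩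

theorem frob_injective : Function.Injective (WittVector.frobenius : WittVector p F →+* _) :=
  (WittVector.frobenius_bijective p F).injective

theorem Sc_frob {s : ℝ} (hs : 0 < s) {c : WittVector p F} :
    WittVector.frobenius c ∈ D.Sc (s / p) ↔ c ∈ D.Sc s := by
  unfold Sc
  simp only [Set.mem_ofPred_eq, oc_frobenius_iff hs, ← frobenius_ga, La_frobenius hs]
  constructor
  · rintro ⟨h1, h2, h3⟩
    exact ⟨h1, fun g hg => frob_injective (h2 g hg), h3⟩
  · rintro ⟨h1, h2, h3⟩
    exact ⟨h1, fun g hg => congrArg _ (h2 g hg), h3⟩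

theorem Mod_frob {s : ℝ} (hs : 0 < s) {x : Fin h → WittVector p F} :
    (fun i => WittVector.frobenius (x i)) ∈ D.Mod (s / p) ↔ x ∈ D.Mod s := by
  unfold Mod
  simp only [Set.mem_ofPred_eq, oc_frobenius_iff hs, D.tw_frob, La_frobenius hs]
  constructor
  · rintro ⟨h1, h2, h3⟩
    refine ⟨h1, fun g hg => ?_, h3⟩
    ext1 i
    exact frob_injective (congrFun (h2 g hg) i)
  · rintro ⟨h1, h2, h3⟩
    refine ⟨h1, fun g hg => ?_, h3⟩
    rw [h2 g hg]

theorem Mod_update {s : ℝ} {n : ℕ} {m : Fin n → Fin h → WittVector p F}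
    (hm : ∀ j, m j ∈ D.Mod s) {x : Fin h → WittVector p F} (hx : x ∈ D.Mod s) (j : Fin n) :
    ∀ k, Function.update m j x k ∈ D.Mod s := by
  intro k
  rcases eq_or_ne k j with rfl | hk
  · simpa using hx
  · simpa [Function.update_of_ne hk] using hm k

/-- main structure theorem, part 1 -/
theorem main1 : ∃ (n : ℕ) (m : Fin n → Fin h → WittVector p F) (ι : Fin n → Fin h) (s2 : ℝ)
    (a : ℕ) (u u' : WittVector p F), 0 < s2 ∧ (∀ j, m j ∈ D.Mod s2) ∧
    (Mx m ι).det = (p : WittVector p F) ^ a * u ∧ u * u' = 1 ∧ OC D.v s2 u' ∧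
    (∀ (s : ℝ) (m' : Fin n → Fin h → WittVector p F) (ι' : Fin n → Fin h), 0 < s →
      (∀ j, m' j ∈ D.Mod s) → (p : WittVector p F) ^ a ∣ (Mx m' ι').det) ∧
    (∀ s, 0 < s → s ≤ s2 → ∀ x ∈ D.Mod s, ∃ c : Fin n → WittVector p F,
      (∀ j, c j ∈ D.Sc s) ∧ x = fun i => ∑ j, c j * m j i) := by
  classical
  -- maximal n
  let P : ℕ → Prop := fun n => ∃ (s : ℝ) (m : Fin n → Fin h → WittVector p F)
    (ι : Fin n → Fin h), 0 < s ∧ (∀ j, m j ∈ D.Mod s) ∧ (Mx m ι).det ≠ 0
  have hP0 : P 0 := ⟨1, fun j => j.elim0, fun j => j.elim0, one_pos, fun j => j.elim0, by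
    simp [Mx]⟩
  have hPle : ∀ n, P n → n ≤ h := by
    rintro n ⟨s, m, ι, _, _, hdet⟩
    have hinj : Function.Injective ι := by
      intro i j hij
      by_contra hne
      exact hdet (Matrix.det_zero_of_row_eq hne (by ext k; simp [Mx, hij]))
    simpa using Fintype.card_le_of_injective ι hinj
  set n := Nat.findGreatest P h with hn
  have hPn : P n := Nat.findGreatest_spec (Nat.zero_le h) hP0
  have hmax : ¬ P (n + 1) := by
    intro hcon
    have := Nat.le_findGreatest (hPle _ hcon) hcon
    omega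
  -- minimal a
  let Q : ℕ → Prop := fun a => ∃ (s : ℝ) (m : Fin n → Fin h → WittVector p F)
    (ι : Fin n → Fin h) (u : WittVector p F), 0 < s ∧ (∀ j, m j ∈ D.Mod s) ∧ u.coeff 0 ≠ 0 ∧
      (Mx m ι).det = (p : WittVector p F) ^ a * u
  have hQ : ∃ a, Q a := by
    obtain ⟨s, m, ι, hs, hm, hdet⟩ := hPn
    obtain ⟨a, u, hu, ha⟩ := WittVector.exists_eq_pow_p_mul _ hdet
    exact ⟨a, s, m, ι, u, hs, hm, hu, ha⟩
  obtain ⟨s1, m, ι, u, hs1, hm, hu0, hdet⟩ := Nat.find_spec hQ
  set a := Nat.find hQ with ha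
  have hmin : ∀ (s : ℝ) (m' : Fin n → Fin h → WittVector p F) (ι' : Fin n → Fin h), 0 < s →
      (∀ j, m' j ∈ D.Mod s) → (p : WittVector p F) ^ a ∣ (Mx m' ι').det := by
    intro s m' ι' hs hm'
    by_cases hd : (Mx m' ι').det = 0
    · rw [hd]; exact dvd_zero _
    · obtain ⟨b, w, hw, hb⟩ := WittVector.exists_eq_pow_p_mul _ hd
      have : a ≤ b := Nat.find_min' hQ ⟨s, m', ι', w, hs, hm', hw, hb⟩
      rw [hb]
      exact (pow_dvd_pow _ this).mul_right _
  -- unit
  have huOC : OC D.v s1 u := by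
    refine OC.of_p_pow_mul (n := a) ?_
    rw [← hdet]
    exact OC.det hs1 _ fun i j => (hm j).1 _
  obtain ⟨s2, hs2, hs21, u', huu', hu'⟩ := exists_inv hs1 huOC hu0
  have hp0 : (p : WittVector p F) ≠ 0 := WittVector.p_nonzero p F
  have hpa0 : (p : WittVector p F) ^ a ≠ 0 := pow_ne_zero _ hp0
  have hdet0 : (Mx m ι).det ≠ 0 := by
    rw [hdet]
    refine mul_ne_zero hpa0 ?_
    rintro rfl
    exact hu0 (by simp)
  refine ⟨n, m, ι, s2, a, u, u', hs2, fun j => D.Mod_scale hs2 hs21 (hm j), hdet, huu', hu', hmin,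
    fun s hs hss2 x hx => ?_⟩
  have hms : ∀ j, m j ∈ D.Mod s := fun j => D.Mod_scale hs (hss2.trans hs21) (hm j)
  -- Cramer
  have hN : ∀ j, ∃ q, (Mx (Function.update m j x) ι).det = (p : WittVector p F) ^ a * q :=
    fun j => hmin s _ ι hs (D.Mod_update hms hx j)
  choose q hq using hN
  have hbord : ∀ i, (Mx m ι).det * x i = ∑ j, (Mx (Function.update m j x) ι).det * m j i := by
    refine bordered m ι x hdet0 fun i => ?_
    by_contra hcon
    refine hmax ⟨s, _, _, hs, fun j => ?_, hcon⟩
    refine Fin.cases ?_ (fun j => ?_) j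
    · simpa using hx
    · simpa using hms j
  have hxc : x = fun i => ∑ j, (u' * q j) * m j i := by
    ext1 i
    have e1 := hbord i
    simp only [hdet, hq] at e1
    have e2 : (p : WittVector p F) ^ a * (u * x i) =
        (p : WittVector p F) ^ a * ∑ j, q j * m j i := by
      rw [Finset.mul_sum, ← mul_assoc, e1]
      exact Finset.sum_congr rfl fun j _ => by ring
    have e3 := mul_left_cancel₀ hpa0 e2
    calc x i = u' * (u * x i) := by rw [← mul_assoc, mul_comm u' u, huu', one_mul]
      _ = u' * ∑ j, q j * m j i := by rw [e3]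
      _ = _ := by rw [Finset.mul_sum]; exact Finset.sum_congr rfl fun j _ => by ring
  have hu's : OC D.v s u' := hu'.scale hs hss2
  have hcOC : ∀ j, OC D.v s (u' * q j) := by
    intro j
    refine OC.mul hs hu's (OC.of_p_pow_mul (n := a) ?_)
    rw [← hq]
    exact OC.det hs _ fun i k => (D.Mod_update hms hx j k).1 _
  refine ⟨fun j => u' * q j, fun j => ⟨hcOC j, fun g hg => ?_, ?_⟩, hxc⟩
  · -- invariance
    have e1 : D.tw g x = fun i => ∑ j, ga g (u' * q j) * D.tw g (m j) i := by
      conv_lhs => rw [hxc]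
      exact D.tw_sum _ g _ _
    rw [hx.2.1 g hg] at e1
    have e2 : x = fun i => ∑ j, ga g (u' * q j) * m j i := by
      rw [e1]
      ext1 i
      exact Finset.sum_congr rfl fun j _ => by rw [(hm j).2.1 g hg]
    have e3 := cramer_combo m ι _ x hxc j
    have e4 := cramer_combo m ι _ x e2 j
    rw [e3] at e4
    exact (mul_left_cancel₀ hdet0 e4).symm
  · -- analyticity
    obtain ⟨c0, hc0⟩ := (hcOC j).bd hs
    obtain ⟨c1, hc1⟩ := hu's.bd hs
    set D' : (Fin d → ℕ) → WittVector p F :=
      fun y => (Mx (fun k => D.tw (D.γ y) (m k)) ι).det with hD'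
    set N' : (Fin d → ℕ) → WittVector p F :=
      fun y => (Mx (Function.update (fun k => D.tw (D.γ y) (m k)) j (D.tw (D.γ y) x)) ι).det
      with hN'
    have hm0 : (fun k => D.tw (D.γ 0) (m k)) = m := by
      ext1 k; exact (hm k).2.1 _ D.h0
    refine La.div (D := D') (N := N') (c := c1) (c0 := c0) hs ?_ ?_ ?_ (a := a) (u := u)
      (u' := u') ?_ huu' hc1 ?_
    · refine La.det hs _ fun i k => ?_
      exact (hms k).2.2 (ι i)
    · refine La.det hs _ fun i k => ?_
      rcases eq_or_ne k j with rfl | hk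
      · simp only [Mx, Matrix.of_apply, Function.update_self]
        exact hx.2.2 (ι i)
      · simp only [Mx, Matrix.of_apply, Function.update_of_ne hk]
        exact (hms k).2.2 (ι i)
    · intro y
      have e1 : D.tw (D.γ y) x = fun i => ∑ j, ga (D.γ y) (u' * q j) * D.tw (D.γ y) (m j) i := by
        conv_lhs => rw [hxc]
        exact D.tw_sum _ _ _ _
      exact (cramer_combo _ ι _ _ e1 j).symm
    · simp only [hD']
      rw [hm0]; exact hdet
    · intro y
      exact D.ga_Bd _ hc0

end Dat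

end Run7.h89
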