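import Pool.Agent.Run7.h89.Hensel

/-!
Integrality: the reduction mod `p` of the basis stays independent.
-/

set_option linter.unusedSectionVars false

namespace Run7.h89

open WittVector Filter

variable {p : ℕ} [hp : Fact p.Prime] {F : Type*} [Field F] [CharP F p] [PerfectRing F p]
variable {G : Type*} [Group G] [MulSemiringAction G F] {h d : ℕ}

/-- reduction mod `p` -/
noncomputable def rd : WittVector p F →+* F := WittVector.constantCoeff

theorem rd_apply (x : WittVector p F) : rd x = x.coeff 0 := rfl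

theorem rd_ga (g : G) (x : WittVector p F) : rd (ga g x) = g • rd x := by
  simp only [rd_apply, ga, WittVector.map_coeff]
  rfl

theorem rd_frob (x : WittVector p F) : rd (WittVector.frobenius x) = rd x ^ p := by
  simp only [rd_apply, WittVector.coeff_frobenius_charP]

theorem rd_eq_zero {x : WittVector p F} : rd x = 0 ↔ (p : WittVector p F) ∣ x := by
  constructor
  · intro h
    have : (p : WittVector p F) ^ 1 ∣ x - 0 := by
      refine dvd_sub_of_coeff fun k hk => ?_
      have : k = 0 := by omega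
      subst this
      rw [← rd_apply, h]; simp
    simpa using this
  · rintro ⟨y, rfl⟩
    have : rd (p : WittVector p F) = 0 := by
      rw [map_natCast]; exact CharP.cast_eq_zero F p
    rw [map_mul, this, zero_mul]

theorem rd_eq_iff {x y : WittVector p F} : rd x = rd y ↔ (p : WittVector p F) ∣ x - y := by
  rw [← rd_eq_zero, map_sub, sub_eq_zero]

theorem isUnit_of_rd {x : WittVector p F} (hx : rd x ≠ 0) : IsUnit x :=
  WittVector.isUnit_of_coeff_zero_ne_zero x hx

theorem p_ne_zero' : (p : WittVector p F) ≠ 0 := WittVector.p_nonzero p F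

theorem ga_p (g : G) : ga g (p : WittVector p F) = p := map_natCast _ _

theorem rd_det {n : Type*} [Fintype n] [DecidableEq n] (A : Matrix n n (WittVector p F)) :
    rd A.det = (A.map rd).det := RingHom.map_det rd A

namespace Dat

variable (D : Dat p F G h d)

theorem Mod_sum {ι : Type*} (S : Finset ι) {s : ℝ} (hs : 0 < s) {c : ι → WittVector p F}
    {x : ι → Fin h → WittVector p F} (hc : ∀ k ∈ S, c k ∈ D.Sc s) (hx : ∀ k ∈ S, x k ∈ D.Mod s) :
    (fun i => ∑ k ∈ S, c k * x k i) ∈ D.Mod s := by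
  refine ⟨fun i => ?_, fun g hg => ?_, fun i => ?_⟩
  · exact Subring.sum_mem (OCRing D.v s hs) fun k hk => OC.mul hs (hc k hk).1 ((hx k hk).1 i)
  · rw [D.tw_sum]
    ext1 i
    exact Finset.sum_congr rfl fun k hk => by rw [(hc k hk).2.1 g hg, (hx k hk).2.1 g hg]
  · simp only [D.tw_sum]
    exact La.sum hs fun k hk => ((hc k hk).2.2).mul hs ((hx k hk).2.2 i)

theorem tw_sub (g : G) (x y : Fin h → WittVector p F) : D.tw g (x - y) = D.tw g x - D.tw g y := by
  ext1 i
  simp only [tw, Pi.sub_apply, map_sub, mul_sub, Finset.sum_sub_distrib]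

theorem Mod_sub {s : ℝ} (hs : 0 < s) {x y : Fin h → WittVector p F}
    (hx : x ∈ D.Mod s) (hy : y ∈ D.Mod s) : x - y ∈ D.Mod s := by
  refine ⟨fun i => ?_, fun g hg => ?_, fun i => ?_⟩
  · exact Subring.sub_mem (OCRing D.v s hs) (hx.1 i) (hy.1 i)
  · rw [D.tw_sub, hx.2.1 g hg, hy.2.1 g hg]
  · simp only [D.tw_sub, Pi.sub_apply]
    exact (hx.2.2 i).sub hs (hy.2.2 i)

theorem Mod_of_p_mul {s : ℝ} {x : Fin h → WittVector p F}
    (hx : (fun i => (p : WittVector p F) * x i) ∈ D.Mod s) : x ∈ D.Mod s := by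
  refine ⟨fun i => (hx.1 i).of_p_mul, fun g hg => ?_, fun i => ?_⟩
  · have := hx.2.1 g hg
    rw [D.tw_smul, ga_p] at this
    ext1 i
    exact mul_left_cancel₀ p_ne_zero' (congrFun this i)
  · have := hx.2.2 i
    simp only [D.tw_smul, ga_p] at this
    refine La.of_p_pow_mul (n := 1) ?_
    simpa using this

theorem rd_tw (g : G) (x : Fin h → WittVector p F) (i : Fin h) :
    rd (D.tw g x i) = ∑ l, rd (D.R g i l) * g • rd (x l) := by
  simp only [tw, map_sum, map_mul, rd_ga]

/-- the matrix of Frobenius -/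
theorem phi_matrix {n : ℕ} {m : Fin n → Fin h → WittVector p F} {s2 : ℝ} (hs2 : 0 < s2)
    (hm : ∀ j, m j ∈ D.Mod s2)
    (hgen : ∀ s, 0 < s → s ≤ s2 → ∀ x ∈ D.Mod s, ∃ c : Fin n → WittVector p F,
      (∀ j, c j ∈ D.Sc s) ∧ x = fun i => ∑ j, c j * m j i) :
    ∃ a' : Matrix (Fin n) (Fin n) (WittVector p F), (∀ i j, a' i j ∈ D.Sc (s2 / p)) ∧
      ∀ j i, m j i = ∑ k, a' k j * WittVector.frobenius (m k i) := by
  have h1 : ∀ j, ∃ c : Fin n → WittVector p F, (∀ k, c k ∈ D.Sc (s2 / p)) ∧
      ∀ i, m j i = ∑ k, c k * WittVector.frobenius (m k i) := by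
    intro j
    have hsur := (WittVector.frobenius_bijective p F).surjective
    choose x hx using fun i => hsur (m j i)
    have hp0 : (p : ℝ) ≠ 0 := by exact_mod_cast hp.out.ne_zero
    have hp1 : (1 : ℝ) ≤ p := by exact_mod_cast hp.out.one_le
    have e1 : x ∈ D.Mod (p * s2) := by
      rw [← D.Mod_frob (by positivity)]
      have e2 : (p : ℝ) * s2 / p = s2 := by field_simp
      rw [e2]
      have e3 : (fun i => WittVector.frobenius (x i)) = m j := funext hx
      rw [e3]
      exact hm j
    have e4 : x ∈ D.Mod s2 := D.Mod_scale hs2 (by nlinarith) e1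
    obtain ⟨c, hc, hxc⟩ := hgen s2 hs2 le_rfl x e4
    refine ⟨fun k => WittVector.frobenius (c k), fun k => (D.Sc_frob hs2).2 (hc k), fun i => ?_⟩
    rw [← hx i, congrFun hxc i, map_sum]
    simp only [map_mul]
  choose c hc hc2 using h1
  exact ⟨Matrix.of fun k j => c j k, fun k j => hc j k, hc2⟩

theorem rd_Mx {n1 : ℕ} (m : Fin n1 → Fin h → WittVector p F) (ι : Fin n1 → Fin h) :
    (Mx m ι).map rd = Mx (fun k i => rd (m k i)) ι := rfl

theorem rd_update {n1 : ℕ} (m : Fin n1 → Fin h → WittVector p F) (k : Fin n1)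
    (x : Fin h → WittVector p F) :
    (fun l i => rd (Function.update m k x l i)) =
      Function.update (fun l i => rd (m l i)) k (fun i => rd (x i)) := by
  ext l i
  rcases eq_or_ne l k with rfl | hl
  · simp
  · simp [Function.update_of_ne hl]

/-- relation mod `p` -/
theorem rel_mod_p {n : ℕ} (m : Fin n → Fin h → WittVector p F) :
    ∃ (n1 : ℕ) (κ : Fin n1 → Fin n) (ι1 : Fin n1 → Fin h) (B : Matrix (Fin n1) (Fin n) F),
      rd (Mx (fun k => m (κ k)) ι1).det ≠ 0 ∧ Function.Injective κ ∧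
      ∀ j i, rd (m j i) = ∑ k, B k j * rd (m (κ k) i) := by
  classical
  let P : ℕ → Prop := fun k => ∃ (κ : Fin k → Fin n) (ι1 : Fin k → Fin h),
    rd (Mx (fun l => m (κ l)) ι1).det ≠ 0
  have hP0 : P 0 := ⟨fun j => j.elim0, fun j => j.elim0, by simp [Mx]⟩
  have hPle : ∀ k, P k → k ≤ h := by
    rintro k ⟨κ, ι, hdet⟩
    have hinj : Function.Injective ι := by
      intro i j hij
      by_contra hne
      apply hdet
      rw [Matrix.det_zero_of_row_eq hne (by ext k; simp [Mx, hij]), map_zero]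
    simpa using Fintype.card_le_of_injective ι hinj
  set n1 := Nat.findGreatest P h with hn1
  obtain ⟨κ, ι1, hdet⟩ : P n1 := Nat.findGreatest_spec (Nat.zero_le h) hP0
  have hmax : ¬ P (n1 + 1) := by
    intro hcon
    have := Nat.le_findGreatest (hPle _ hcon) hcon
    omega
  have hκ : Function.Injective κ := by
    intro i j hij
    by_contra hne
    apply hdet
    rw [Matrix.det_zero_of_column_eq hne (by intro k; simp [Mx, hij]), map_zero]
  set mb : Fin n → Fin h → F := fun j i => rd (m j i) with hmb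
  have hA : (Mx (fun k => mb (κ k)) ι1).det ≠ 0 := by
    have := hdet
    rwa [rd_det, rd_Mx] at this
  refine ⟨n1, κ, ι1, Matrix.of fun k j =>
    (Mx (Function.update (fun k => mb (κ k)) k (mb j)) ι1).det / (Mx (fun k => mb (κ k)) ι1).det,
    hdet, hκ, fun j i => ?_⟩
  have h1 := bordered (fun k => mb (κ k)) ι1 (mb j) hA (fun i => ?_) i
  · have h2 : mb j i = (∑ k, (Mx (Function.update (fun k => mb (κ k)) k (mb j)) ι1).det *
        mb (κ k) i) / (Mx (fun k => mb (κ k)) ι1).det := by
      rw [eq_div_iff hA, ← h1]; ring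
    change mb j i = _
    rw [h2, Finset.sum_div]
    exact Finset.sum_congr rfl fun k _ => by
      simp only [Matrix.of_apply, hmb]; ring
  · by_contra hcon
    apply hmax
    refine ⟨Fin.cons j κ, Fin.cons i ι1, ?_⟩
    rw [rd_det, rd_Mx]
    convert hcon using 2
    congr 1
    ext k l
    refine Fin.cases ?_ (fun k => ?_) k
    · simp [hmb]
    · simp [hmb]

end Dat

end Run7.h89
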