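import Pool.Agent.Run7.h89.Main3

/-!
Integrality, continued.
-/

set_option linter.unusedSectionVars false

namespace Run7.h89

open WittVector Filter

variable {p : ℕ} [hp : Fact p.Prime] {F : Type*} [Field F] [CharP F p] [PerfectRing F p]
variable {G : Type*} [Group G] [MulSemiringAction G F] {h d : ℕ}

theorem rd_cramer {n1 : ℕ} (N : Fin n1 → Fin h → WittVector p F) (x : Fin h → WittVector p F)
    (C : Fin n1 → F) (hx : ∀ i, rd (x i) = ∑ k, C k * rd (N k i)) (ι1 : Fin n1 → Fin h)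
    (k : Fin n1) :
    rd (Mx (Function.update N k x) ι1).det = rd (Mx N ι1).det * C k := by
  rw [rd_det, rd_det, Dat.rd_Mx, Dat.rd_Mx, Dat.rd_update]
  exact cramer_combo (fun l i => rd (N l i)) ι1 C (fun i => rd (x i)) (funext hx) k

theorem Qbar {n n1 : ℕ} (mb : Fin n → Fin h → F) (ab : Matrix (Fin n) (Fin n) F)
    (B : Matrix (Fin n1) (Fin n) F) (κ : Fin n1 → Fin n) (ι1 : Fin n1 → Fin h)
    (h1 : ∀ j i, mb j i = ∑ k, B k j * mb (κ k) i)
    (h2 : ∀ j i, mb j i = ∑ k, ab k j * (mb k i) ^ p)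
    (hA : (Mx (fun k => mb (κ k)) ι1).det ≠ 0) :
    (Qf p κ ab B).det ≠ 0 ∧ Psi p κ ab B = 0 := by
  set A := Mx (fun k => mb (κ k)) ι1 with hAdef
  set Am : Matrix (Fin n1) (Fin n) F := Matrix.of fun i j => mb j (ι1 i) with hAm
  set Ap := A.map (frobenius F p) with hAp
  have e1 : Am = A * B := by
    ext i j
    rw [Matrix.mul_apply]
    simp only [hAm, hAdef, Mx, Matrix.of_apply]
    rw [h1 j (ι1 i)]
    exact Finset.sum_congr rfl fun k _ => mul_comm _ _
  have e2 : Am = Am.map (frobenius F p) * ab := by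
    ext i j
    rw [Matrix.mul_apply]
    simp only [hAm, Matrix.of_apply, Matrix.map_apply, frobenius_def]
    rw [h2 j (ι1 i)]
    exact Finset.sum_congr rfl fun k _ => mul_comm _ _
  have e3 : Am = Ap * Cf p ab B := by
    have : Am.map (frobenius F p) = Ap * B.map (frobenius F p) := by
      rw [e1, Matrix.map_mul]
    rw [e2, this, Matrix.mul_assoc]
    rfl
  have e4 : A = Ap * Qf p κ ab B := by
    have : A = Am.submatrix id κ := rfl
    rw [this, e3]
    rfl
  have hdetAp : Ap.det ≠ 0 := by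
    have : Ap.det = frobenius F p A.det := (RingHom.map_det _ _).symm
    rw [this, frobenius_def]
    exact pow_ne_zero _ hA
  constructor
  · intro h0
    apply hA
    rw [e4, Matrix.det_mul, h0, mul_zero]
  · have e5 : Ap * (Qf p κ ab B * B) = Ap * Cf p ab B := by
      rw [← Matrix.mul_assoc, ← e4, ← e1, ← e3]
    have hu : IsUnit Ap := (Matrix.isUnit_iff_isUnit_det _).2 (isUnit_iff_ne_zero.2 hdetAp)
    have hu' : IsUnit Ap.det := isUnit_iff_ne_zero.2 hdetAp
    have e6 : Qf p κ ab B * B = Cf p ab B := by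
      have := congrArg (fun X => Ap⁻¹ * X) e5
      simp only [← Matrix.mul_assoc, Matrix.nonsing_inv_mul _ hu', Matrix.one_mul] at this
      exact this
    unfold Psi
    rw [e6, sub_self]

theorem fix_unique' {n n1 : ℕ} (κ : Fin n1 → Fin n) (a : Matrix (Fin n) (Fin n) (WittVector p F))
    {Z Z' : Matrix (Fin n1) (Fin n) (WittVector p F)}
    (hQ : rd (Qf p κ a Z).det ≠ 0)
    (hZ : Psi p κ a Z = 0) (hZ' : Psi p κ a Z' = 0) (h : Z'.map rd = Z.map rd) : Z' = Z := by
  have hu : IsUnit (Qf p κ a Z).det := isUnit_of_rd hQ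
  refine fix_unique κ a (Matrix.nonsing_inv_mul _ hu) hZ hZ' fun i j => ?_
  rw [pow_one]
  exact rd_eq_iff.1 (congrFun (congrFun h i) j)

theorem map_ga_one_eq {n n1 : ℕ} (A : Matrix (Fin n1) (Fin n) (WittVector p F)) (g : G)
    (h : ∀ i j, ga g (A i j) = A i j) : A.map (ga g) = A := by
  ext1 i j; exact h i j

namespace Dat

variable (D : Dat p F G h d)

theorem rel_tw {n n1 : ℕ} {m : Fin n → Fin h → WittVector p F} {κ : Fin n1 → Fin n}
    {B : Matrix (Fin n1) (Fin n) F}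
    (hB : ∀ j i, rd (m j i) = ∑ k, B k j * rd (m (κ k) i)) (g : G) (j : Fin n) (i : Fin h) :
    rd (D.tw g (m j) i) = ∑ k, (g • B k j) * rd (D.tw g (m (κ k)) i) := by
  simp only [D.rd_tw]
  have e1 : ∀ l, g • rd (m j l) = ∑ k, (g • B k j) * (g • rd (m (κ k) l)) := by
    intro l
    rw [hB j l, Finset.smul_sum]
    exact Finset.sum_congr rfl fun k _ => smul_mul' _ _ _
  simp only [e1, Finset.mul_sum]
  rw [Finset.sum_comm]
  exact Finset.sum_congr rfl fun k _ => Finset.sum_congr rfl fun l _ => by ring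

theorem tw_phi {n : ℕ} {m : Fin n → Fin h → WittVector p F}
    {a' : Matrix (Fin n) (Fin n) (WittVector p F)}
    (ha : ∀ j i, m j i = ∑ k, a' k j * WittVector.frobenius (m k i)) (g : G) (j : Fin n)
    (i : Fin h) :
    D.tw g (m j) i = ∑ k, ga g (a' k j) * WittVector.frobenius (D.tw g (m k) i) := by
  have e1 : m j = fun i => ∑ k, a' k j * (fun k i => WittVector.frobenius (m k i)) k i :=
    funext (ha j)
  rw [e1, D.tw_sum]
  refine Finset.sum_congr rfl fun k _ => ?_
  have := congrFun (D.tw_frob g (m k)) i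
  rw [← this]

theorem a_eq_zero {n : ℕ} {m : Fin n → Fin h → WittVector p F} {ι : Fin n → Fin h} {s2 : ℝ}
    {a : ℕ} {u u' : WittVector p F} (hs2 : 0 < s2) (hm : ∀ j, m j ∈ D.Mod s2)
    (hdet : (Mx m ι).det = (p : WittVector p F) ^ a * u) (huu' : u * u' = 1)
    (hmin : ∀ (s : ℝ) (m' : Fin n → Fin h → WittVector p F) (ι' : Fin n → Fin h), 0 < s →
      (∀ j, m' j ∈ D.Mod s) → (p : WittVector p F) ^ a ∣ (Mx m' ι').det)
    (hgen : ∀ s, 0 < s → s ≤ s2 → ∀ x ∈ D.Mod s, ∃ c : Fin n → WittVector p F,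
      (∀ j, c j ∈ D.Sc s) ∧ x = fun i => ∑ j, c j * m j i) : a = 0 := by
  classical
  by_contra ha0
  have hp1 : (1 : ℝ) ≤ p := by exact_mod_cast hp.out.one_le
  have hp0 : (p : ℝ) ≠ 0 := by exact_mod_cast hp.out.ne_zero
  obtain ⟨n1, κ, ι1, B, hdet1, hκ, hB⟩ := rel_mod_p m
  -- κ is not surjective
  obtain ⟨j0, hj0⟩ : ∃ j0, ∀ k, κ k ≠ j0 := by
    by_contra hcon
    push Not at hcon
    have hsurj : Function.Surjective κ := hcon
    have hcard : n1 = n := by
      have := Fintype.card_of_bijective ⟨hκ, hsurj⟩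
      simpa using this
    subst hcard
    have := hmin s2 (fun k => m (κ k)) ι1 hs2 (fun k => hm _)
    apply hdet1
    rw [rd_eq_zero]
    exact (dvd_pow_self _ ha0).trans this
  obtain ⟨a', ha', hphi⟩ := D.phi_matrix hs2 hm hgen
  -- mod p data
  set mb : Fin n → Fin h → F := fun j i => rd (m j i) with hmb
  set ab : Matrix (Fin n) (Fin n) F := a'.map rd with hab
  have hphib : ∀ j i, mb j i = ∑ k, ab k j * (mb k i) ^ p := by
    intro j i
    simp only [hmb, hab, Matrix.map_apply]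
    rw [hphi j i, map_sum]
    simp only [map_mul, rd_frob]
  have hA : (Mx (fun k => mb (κ k)) ι1).det ≠ 0 := by
    have := hdet1
    rwa [rd_det, rd_Mx] at this
  obtain ⟨hQb, hPsib⟩ := Qbar mb ab B κ ι1 hB hphib hA
  -- B is H-invariant
  have hBinv : ∀ g ∈ D.H, ∀ k j, g • B k j = B k j := by
    intro g hg k j
    have e1 := rd_cramer (fun k => m (κ k)) (m j) (fun k => B k j) (hB j) ι1 k
    have e2 := rd_cramer (fun k => m (κ k)) (m j) (fun k => g • B k j) (fun i => by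
      have := D.rel_tw hB g j i
      rw [(hm j).2.1 g hg] at this
      rw [this]
      exact Finset.sum_congr rfl fun k _ => by rw [(hm (κ k)).2.1 g hg]) ι1 k
    rw [e1] at e2
    exact (mul_left_cancel₀ hdet1 e2).symm
  -- functions
  set M : (Fin d → ℕ) → Fin n → Fin h → WittVector p F := fun y j => D.tw (D.γ y) (m j) with hM
  have hM0 : M 0 = m := by
    ext1 j; exact (hm j).2.1 _ D.h0
  set D1 : (Fin d → ℕ) → WittVector p F := fun y => (Mx (fun k => M y (κ k)) ι1).det with hD1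
  have hMLa : ∀ j i, La D.v s2 (fun y => M y j i) := fun j i => (hm j).2.2 i
  have hD1La : La D.v s2 D1 := La.det hs2 _ fun i k => hMLa _ _
  have hD10 : D1 0 = (Mx (fun k => m (κ k)) ι1).det := by simp only [hD1, hM0]
  have hD1OC : OC D.v s2 (D1 0) := by
    rw [hD10]; exact OC.det hs2 _ fun i k => (hm _).1 _
  obtain ⟨s3, hs3, hs32, y1, hy1, hy1OC⟩ := exists_inv hs2 hD1OC (by
    rw [hD10]; exact hdet1)
  obtain ⟨cy1, hcy1⟩ := hy1OC.bd hs3
  obtain ⟨hz1La, i0, hi0⟩ := La.inv hs3 (hD1La.scale hs3 hs32) hy1 hcy1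
  set z1 : (Fin d → ℕ) → WittVector p F := fun y => Ring.inverse (D1 y) with hz1
  -- Z0
  set Z0 : (Fin d → ℕ) → Matrix (Fin n1) (Fin n) (WittVector p F) := fun y =>
    Matrix.of fun k j => z1 y * (Mx (Function.update (fun k' => M y (κ k')) k (M y j)) ι1).det
    with hZ0
  have hZ0La : ∀ k j, La D.v s3 (fun y => Z0 y k j) := by
    intro k j
    refine La.mul hs3 hz1La ?_
    refine (La.det hs2 _ fun i l => ?_).scale hs3 hs32
    rcases eq_or_ne l k with rfl | hl
    · simp only [Mx, Matrix.of_apply, Function.update_self]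
      exact hMLa _ _
    · simp only [Mx, Matrix.of_apply, Function.update_of_ne hl]
      exact hMLa _ _
  have hZ0red : ∀ y, D1 y * z1 y = 1 → (Z0 y).map rd = B.map (D.γ y • ·) := by
    intro y hy
    ext k j
    simp only [Matrix.map_apply, hZ0, Matrix.of_apply, map_mul]
    have e1 := rd_cramer (fun k' => M y (κ k')) (M y j) (fun k => D.γ y • B k j)
      (fun i => D.rel_tw hB (D.γ y) j i) ι1 k
    rw [e1]
    have e2 : rd (D1 y) * rd (z1 y) = 1 := by rw [← map_mul, hy, map_one]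
    have e3 : (Mx (fun k' => M y (κ k')) ι1).det = D1 y := rfl
    rw [e3]
    linear_combination (D.γ y • B k j) * e2
  -- the Frobenius matrix as a function
  set av : (Fin d → ℕ) → Matrix (Fin n) (Fin n) (WittVector p F) :=
    fun y => a'.map (ga (D.γ y)) with hav
  have hs2p : 0 < s2 / p := by positivity
  set s4 := min s3 (s2 / p) with hs4def
  have hs4 : 0 < s4 := lt_min hs3 hs2p
  have hav0 : av 0 = a' := map_ga_one_eq _ _ fun i j => (ha' i j).2.1 _ D.h0
  have havLa : ∀ i j, La D.v s4 (fun y => av y i j) := fun i j =>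
    ((ha' i j).2.2).scale hs4 (min_le_right _ _)
  have hZ0La4 : ∀ k j, La D.v s4 (fun y => Z0 y k j) := fun k j =>
    (hZ0La k j).scale hs4 (min_le_left _ _)
  have hCfLa : ∀ k j, La D.v s4 (fun y => Cf p (av y) (Z0 y) k j) := by
    intro k j
    simp only [Cf, Matrix.mul_apply, Matrix.map_apply]
    exact La.sum hs4 fun l _ => ((hZ0La4 k l).pow hs4 p).mul hs4 (havLa l j)
  have hQfLa : ∀ k l, La D.v s4 (fun y => Qf p κ (av y) (Z0 y) k l) := fun k l => hCfLa k (κ l)
  have hPsiLa : ∀ k j, La D.v s4 (fun y => Psi p κ (av y) (Z0 y) k j) := by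
    intro k j
    simp only [Psi, Matrix.sub_apply, Matrix.mul_apply]
    exact (La.sum hs4 fun l _ => (hQfLa k l).mul hs4 (hZ0La4 l j)).sub hs4 (hCfLa k j)
  have hav_rd : ∀ y, (av y).map rd = ab.map (MulSemiringAction.toRingHom G F (D.γ y)) := by
    intro y
    ext i j
    simp only [hav, hab, Matrix.map_apply, rd_ga]
    rfl
  have hBmap : ∀ g : G, B.map (g • ·) = B.map (MulSemiringAction.toRingHom G F g) := fun g => rfl
  have hQred : ∀ y, D1 y * z1 y = 1 → ∀ Z : Matrix (Fin n1) (Fin n) (WittVector p F),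
      Z.map rd = B.map (D.γ y • ·) → rd (Qf p κ (av y) Z).det ≠ 0 := by
    intro y hy Z hZ
    rw [rd_det, Qf_map, hZ, hav_rd, hBmap, ← Qf_map]
    have := RingHom.map_det (MulSemiringAction.toRingHom G F (D.γ y)) (Qf p κ ab B)
    rw [RingHom.mapMatrix_apply] at this
    rw [← this]
    exact (map_ne_zero _).2 hQb
  have hPsired : ∀ y, D1 y * z1 y = 1 → (Psi p κ (av y) (Z0 y)).map rd = 0 := by
    intro y hy
    rw [Psi_map, hZ0red y hy, hav_rd, hBmap, ← Psi_map, hPsib]
    ext i j; simp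
  -- the determinant of Q
  set Dq : (Fin d → ℕ) → WittVector p F := fun y => (Qf p κ (av y) (Z0 y)).det with hDq
  have hDqLa : La D.v s4 Dq := La.det hs4 _ hQfLa
  have hz10 : D1 0 * z1 0 = 1 := by
    have := hi0 i0 le_rfl 0
    simpa using this
  have hz10OC : OC D.v s3 (z1 0) := by
    have : z1 0 = y1 := by
      calc z1 0 = z1 0 * (D1 0 * y1) := by rw [hy1, mul_one]
        _ = (D1 0 * z1 0) * y1 := by ring
        _ = y1 := by rw [hz10, one_mul]
    rw [this]; exact hy1OC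
  have hZ00OC : ∀ k j, OC D.v s4 (Z0 0 k j) := by
    intro k j
    refine OC.scale hs4 (min_le_left _ _) (s := s3) ?_
    simp only [hZ0, Matrix.of_apply]
    refine OC.mul hs3 hz10OC ?_
    refine OC.scale hs3 hs32 (OC.det hs2 _ fun i l => ?_)
    rw [hM0]
    rcases eq_or_ne l k with rfl | hl
    · simp only [Mx, Matrix.of_apply, Function.update_self]
      exact (hm _).1 _
    · simp only [Mx, Matrix.of_apply, Function.update_of_ne hl]
      exact (hm _).1 _
  have hDq0OC : OC D.v s4 (Dq 0) := by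
    refine OC.det hs4 _ fun k l => ?_
    rw [hav0]
    simp only [Qf, Cf, Matrix.submatrix_apply, Matrix.mul_apply, Matrix.map_apply, id]
    refine Subring.sum_mem (OCRing D.v s4 hs4) fun i _ => ?_
    refine Subring.mul_mem (OCRing D.v s4 hs4) (Subring.pow_mem (OCRing D.v s4 hs4) ?_ p) ?_
    · exact hZ00OC k i
    · exact ((ha' i (κ l)).1).scale hs4 (min_le_right _ _)
  obtain ⟨s5, hs5, hs54, y2, hy2, hy2OC⟩ := exists_inv hs4 hDq0OC
    (hQred 0 hz10 _ (hZ0red 0 hz10))
  obtain ⟨cy2, hcy2⟩ := hy2OC.bd hs5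
  obtain ⟨hz2La, i1, hi1⟩ := La.inv hs5 (hDqLa.scale hs5 hs54) hy2 hcy2
  set z2 : (Fin d → ℕ) → WittVector p F := fun y => Ring.inverse (Dq y) with hz2
  set Q' : (Fin d → ℕ) → Matrix (Fin n1) (Fin n1) (WittVector p F) :=
    fun y => Matrix.of fun k l => z2 y * (Qf p κ (av y) (Z0 y)).adjugate k l with hQ'
  have hQ'La : ∀ k l, La D.v s5 (fun y => Q' y k l) := by
    intro k l
    exact hz2La.mul hs5 ((La.adj hs4 _ hQfLa k l).scale hs5 hs54)
  have hQ'inv : ∀ y, Dq y * z2 y = 1 → Q' y * Qf p κ (av y) (Z0 y) = 1 := by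
    intro y hy
    have e1 : Q' y = z2 y • (Qf p κ (av y) (Z0 y)).adjugate := by
      ext1 k l; simp [hQ']
    rw [e1, Matrix.smul_mul, Matrix.adjugate_mul, smul_smul]
    have : z2 y * (Qf p κ (av y) (Z0 y)).det = 1 := by rw [mul_comm]; exact hy
    rw [this, one_smul]
  -- common level
  obtain ⟨i2, δ2, μ2, hδ2, hc2⟩ := La.common hs5
    (f := fun (k : Fin n × Fin n) y => av y k.1 k.2) (fun k => (havLa k.1 k.2).scale hs5 hs54)
  obtain ⟨i3, δ3, μ3, hδ3, hc3⟩ := La.common hs5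
    (f := fun (k : Fin n1 × Fin n) y => Z0 y k.1 k.2) (fun k => (hZ0La4 k.1 k.2).scale hs5 hs54)
  obtain ⟨i4, δ4, μ4, hδ4, hc4⟩ := La.common hs5
    (f := fun (k : Fin n1 × Fin n1) y => Q' y k.1 k.2) (fun k => (hQ'La k.1 k.2))
  obtain ⟨i5, δ5, μ5, hδ5, hc5⟩ := La.common hs5
    (f := fun (k : Fin n1 × Fin n) y => Psi p κ (av y) (Z0 y) k.1 k.2)
    (fun k => (hPsiLa k.1 k.2).scale hs5 hs54)
  obtain ⟨i, hii⟩ : ∃ i, i = i0 + i1 + i2 + i3 + i4 + i5 := ⟨_, rfl⟩
  obtain ⟨δ, hδ, hδ2', hδ3', hδ4', hδ5'⟩ : ∃ δ : ℝ, 0 < δ ∧ δ ≤ δ2 ∧ δ ≤ δ3 ∧ δ ≤ δ4 ∧ δ ≤ δ5 :=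
    ⟨min (min δ2 δ3) (min δ4 δ5), lt_min (lt_min hδ2 hδ3) (lt_min hδ4 hδ5),
      (min_le_left _ _).trans (min_le_left _ _), (min_le_left _ _).trans (min_le_right _ _),
      (min_le_right _ _).trans (min_le_left _ _), (min_le_right _ _).trans (min_le_right _ _)⟩
  obtain ⟨μ, hμ0, hμ2', hμ3', hμ4', hμ5'⟩ :
      ∃ μ : ℝ, μ ≤ 0 ∧ μ ≤ μ2 ∧ μ ≤ μ3 ∧ μ ≤ μ4 ∧ μ ≤ μ5 :=
    ⟨min 0 (min (min μ2 μ3) (min μ4 μ5)), min_le_left _ _,
      (min_le_right _ _).trans ((min_le_left _ _).trans (min_le_left _ _)),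
      (min_le_right _ _).trans ((min_le_left _ _).trans (min_le_right _ _)),
      (min_le_right _ _).trans ((min_le_right _ _).trans (min_le_left _ _)),
      (min_le_right _ _).trans ((min_le_right _ _).trans (min_le_right _ _))⟩
  have g2 : MB D.v s5 δ μ (fun y => av (p ^ i • y)) := fun a b =>
    hc2 i (by omega) δ hδ2' μ hμ2' (a, b)
  have g3 : MB D.v s5 δ μ (fun y => Z0 (p ^ i • y)) := fun a b =>
    hc3 i (by omega) δ hδ3' μ hμ3' (a, b)
  have g4 : MB D.v s5 δ μ (fun y => Q' (p ^ i • y)) := fun a b =>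
    hc4 i (by omega) δ hδ4' μ hμ4' (a, b)
  have g5 : MB D.v s5 δ μ (fun y => Psi p κ (av (p ^ i • y)) (Z0 (p ^ i • y))) := fun a b =>
    hc5 i (by omega) δ hδ5' μ hμ5' (a, b)
  have hgood1 : ∀ y, D1 (p ^ i • y) * z1 (p ^ i • y) = 1 := hi0 i (by omega)
  have hgood2 : ∀ y, Dq (p ^ i • y) * z2 (p ^ i • y) = 1 := hi1 i (by omega)
  -- scaling
  obtain ⟨ε, hεdef⟩ : ∃ ε : ℝ, ε = 1 / (6 * p) := ⟨_, rfl⟩
  have hε : 0 < ε := by rw [hεdef]; positivity
  have hpε : p * ε ≤ 1 / 2 := by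
    rw [hεdef]
    have : (p : ℝ) * (1 / (6 * p)) = 1 / 6 := by field_simp
    rw [this]; norm_num
  have h6ε : 6 * ε ≤ 1 := by
    rw [hεdef]
    have : 6 * (1 / (6 * (p : ℝ))) = 1 / p := by field_simp
    rw [this]
    exact (div_le_one (by linarith)).2 hp1
  obtain ⟨t, htdef⟩ : ∃ t : ℝ, t = ε / (1 - μ) := ⟨_, rfl⟩
  have h1μ : 1 ≤ 1 - μ := by linarith
  have ht0 : 0 < t := by rw [htdef]; exact div_pos hε (by linarith)
  have htε : t * (1 - μ) = ε := by
    rw [htdef]; field_simp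
  have ht1 : t ≤ 1 := by nlinarith
  set s6 := s5 * t with hs6def
  have hs6 : 0 < s6 := by positivity
  have hs65 : s6 ≤ s5 := by nlinarith
  set δ6 := δ * s6 / s5 with hδ6def
  have hδ6 : 0 < δ6 := by positivity
  have hμs : -ε ≤ μ * s6 / s5 := by
    have : μ * s6 / s5 = μ * t := by rw [hs6def]; field_simp
    rw [this]; nlinarith
  have hμs' : (μ - 1) * s6 / s5 = -ε := by
    have : (μ - 1) * s6 / s5 = (μ - 1) * t := by rw [hs6def]; field_simp
    rw [this]; linarith
  have k2 : MB D.v s6 δ6 (-ε) (fun y => av (p ^ i • y)) := fun a b =>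
    ((g2 a b).scale hs6 hs65).mono hs6 le_rfl hμs
  have k3 : MB D.v s6 δ6 (-ε) (fun y => Z0 (p ^ i • y)) := fun a b =>
    ((g3 a b).scale hs6 hs65).mono hs6 le_rfl hμs
  have k4 : MB D.v s6 δ6 (-ε) (fun y => Q' (p ^ i • y)) := fun a b =>
    ((g4 a b).scale hs6 hs65).mono hs6 le_rfl hμs
  have hE : ∀ y, Dv 1 (Psi p κ (av (p ^ i • y)) (Z0 (p ^ i • y))) := by
    intro y a b
    rw [pow_one, ← rd_eq_zero]
    exact congrFun (congrFun (hPsired _ (hgood1 y)) a) b
  have k5 : MB D.v s6 δ6 (1 - ε) (fun y => Psi p κ (av (p ^ i • y)) (Z0 (p ^ i • y))) := by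
    intro a b
    choose E hEE using fun y => hE y a b
    have e1 : (fun y => Psi p κ (av (p ^ i • y)) (Z0 (p ^ i • y)) a b) =
        fun y => (p : WittVector p F) ^ 1 * E y := funext hEE
    have e2 := g5 a b
    rw [e1] at e2
    have e3 : LA D.v s5 δ (μ - 1) E := by
      refine LA.of_p_pow_mul (n := 1) ?_
      simpa using e2
    have e4 := e3.scale hs6 hs65
    rw [hμs'] at e4
    rw [e1]
    have e5 : Bd D.v s6 1 ((p : WittVector p F) ^ 1) := by
      have := (Bd.one (v := D.v) (p := p) (s := s6)).p_mul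
      simpa using this
    have := LA.const_mul hs6 hδ6.le e5 e4
    simpa only [sub_eq_add_neg] using this
  obtain ⟨L, hL1, hL2, hL3⟩ := fix_thm hs6 hδ6.le hε.le hpε h6ε κ k2 k3 k4
    (fun y => hQ'inv _ (hgood2 y)) hE k5
  have hLred : ∀ y, (L y).map rd = B.map (D.γ (p ^ i • y) • ·) := by
    intro y
    rw [← hZ0red _ (hgood1 y)]
    ext a b
    have := hL2 y a b
    rw [pow_one] at this
    exact rd_eq_iff.2 this
  have hL0red : (L 0).map rd = B := by
    rw [hLred]
    ext a b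
    simp only [smul_zero, Matrix.map_apply]
    exact hBinv _ D.h0 a b
  have hPsiL0 : Psi p κ a' (L 0) = 0 := by
    have := hL1 0
    rwa [smul_zero, hav0] at this
  -- L y is the orbit of L 0
  have hgaPsi : ∀ g : G, Psi p κ (a'.map (ga g)) ((L 0).map (ga g)) = 0 := by
    intro g
    rw [← Psi_map, hPsiL0]
    ext1 a b; simp
  have hgared : ∀ g : G, ((L 0).map (ga g)).map rd = B.map (g • ·) := by
    intro g
    ext a b
    have := congrFun (congrFun hL0red a) b
    simp only [Matrix.map_apply] at this ⊢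
    rw [rd_ga, this]
  have horb : ∀ y, (L 0).map (ga (D.γ (p ^ i • y))) = L y := by
    intro y
    refine fix_unique' κ (av (p ^ i • y)) (hQred _ (hgood1 y) _ (hLred y)) (hL1 y)
      (hgaPsi _) ?_
    rw [hgared, hLred]
  have hH : ∀ g ∈ D.H, (L 0).map (ga g) = L 0 := by
    intro g hg
    have e1 : a'.map (ga g) = a' := map_ga_one_eq _ _ fun i j => (ha' i j).2.1 _ hg
    refine fix_unique' κ a' ?_ hPsiL0 ?_ ?_
    · have := hQred 0 hz10 (L 0) (by
        rw [hL0red]
        ext a b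
        exact (hBinv _ D.h0 a b).symm)
      rwa [hav0] at this
    · have := hgaPsi g
      rwa [e1] at this
    · rw [hgared, hL0red]
      ext a b
      exact hBinv _ hg a b
  -- scalars
  set s7 := s6 / 2 with hs7def
  have hs7 : 0 < s7 := by positivity
  have hs76 : s7 < s6 := by rw [hs7def]; linarith
  have hLSc : ∀ k j, L 0 k j ∈ D.Sc s7 := by
    intro k j
    refine ⟨((hL3 k j).bd 0).oc hs7 hs76, fun g hg => congrFun (congrFun (hH g hg) k) j, ?_⟩
    refine La.of_level i ?_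
    have e1 : (fun y => ga (D.γ (p ^ i • y)) (L 0 k j)) = fun y => L y k j := by
      ext1 y
      exact congrFun (congrFun (horb y) k) j
    rw [e1]
    have e2 : La D.v s6 (fun y => L y k j) := ⟨0, δ6, -ε, hδ6, by simpa using hL3 k j⟩
    exact e2.scale hs7 hs76.le
  -- contradiction
  have hs72 : s7 ≤ s2 := by
    have : s5 ≤ s2 := hs54.trans ((min_le_left _ _).trans hs32)
    linarith
  have hmS : ∀ j, m j ∈ D.Mod s7 := fun j => D.Mod_scale hs7 hs72 (hm j)
  have hx : (m j0 - fun i => ∑ k, L 0 k j0 * m (κ k) i) ∈ D.Mod s7 :=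
    D.Mod_sub hs7 (hmS j0) (D.Mod_sum Finset.univ hs7 (fun k _ => hLSc k j0) (fun k _ => hmS _))
  have hdvd : ∀ i, (p : WittVector p F) ∣ (m j0 - fun i => ∑ k, L 0 k j0 * m (κ k) i) i := by
    intro i
    rw [← rd_eq_zero]
    simp only [Pi.sub_apply, map_sub, map_sum, map_mul]
    rw [hB j0 i, sub_eq_zero]
    refine Finset.sum_congr rfl fun k _ => ?_
    have := congrFun (congrFun hL0red k) j0
    simp only [Matrix.map_apply] at this
    rw [this]
  choose x' hx' using hdvd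
  have hx'M : x' ∈ D.Mod s7 := by
    refine D.Mod_of_p_mul ?_
    have : (fun i => (p : WittVector p F) * x' i) =
        (m j0 - fun i => ∑ k, L 0 k j0 * m (κ k) i) := by
      ext1 i; exact (hx' i).symm
    rw [this]; exact hx
  obtain ⟨c, hc, hxc⟩ := hgen s7 hs7 hs72 x' hx'M
  have hcomb : m j0 = fun i => ∑ j, (p * c j + ∑ k, if κ k = j then L 0 k j0 else 0) * m j i := by
    ext1 i
    have e1 := hx' i
    rw [congrFun hxc i] at e1
    simp only [Pi.sub_apply] at e1
    have e2 : m j0 i = (p : WittVector p F) * ∑ j, c j * m j i + ∑ k, L 0 k j0 * m (κ k) i := by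
      rw [← e1]; ring
    rw [e2]
    simp only [add_mul, Finset.sum_add_distrib, Finset.mul_sum, Finset.sum_mul]
    congr 1
    · exact Finset.sum_congr rfl fun j _ => by ring
    · rw [Finset.sum_comm]
      refine Finset.sum_congr rfl fun k _ => ?_
      rw [Finset.sum_eq_single (κ k)]
      · simp
      · intro b _ hb
        rw [if_neg hb.symm, zero_mul]
      · intro hb; exact absurd (Finset.mem_univ _) hb
  have e1 := cramer_combo m ι _ (m j0) hcomb j0
  rw [Function.update_eq_self] at e1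
  have hdet0 : (Mx m ι).det ≠ 0 := by
    rw [hdet]
    refine mul_ne_zero (pow_ne_zero _ p_ne_zero') ?_
    rintro rfl
    rw [zero_mul] at huu'
    exact zero_ne_one huu'
  have e2 : (p : WittVector p F) * c j0 + ∑ k, (if κ k = j0 then L 0 k j0 else 0) = 1 := by
    have e3 : (Mx m ι).det * 1 = (Mx m ι).det *
        (p * c j0 + ∑ k, if κ k = j0 then L 0 k j0 else 0) := by rw [mul_one]; exact e1
    exact (mul_left_cancel₀ hdet0 e3).symm
  have e4 : ∑ k, (if κ k = j0 then L 0 k j0 else 0) = 0 :=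
    Finset.sum_eq_zero fun k _ => if_neg (hj0 k)
  rw [e4, add_zero] at e2
  have e5 : rd ((p : WittVector p F) * c j0) = 0 := rd_eq_zero.2 ⟨_, rfl⟩
  rw [e2, map_one] at e5
  exact one_ne_zero e5

end Dat

end Run7.h89
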