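import Pool.Agent.Run7.h89.Zp

/-!
The structure theorem.
-/

set_option linter.unusedSectionVars false

namespace Run7.h89

open WittVector Filter

variable {p : ℕ} [hp : Fact p.Prime] {F : Type*} [Field F] [CharP F p] [PerfectRing F p]
variable {G : Type*} [Group G] [MulSemiringAction G F] {h d : ℕ}

namespace Dat

variable (D : Dat p F G h d)

/-- a good basis at level `s` -/
def Good (s : ℝ) {n : ℕ} (ι : Fin n → Fin h) (b : Fin n → Fin h → WittVector p F) : Prop :=
  (∀ j, b j ∈ D.Mod s) ∧ (∃ w, (Mx b ι).det * w = 1 ∧ OC D.v s w) ∧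
  (∀ x ∈ D.Mod s, ∃ c : Fin n → WittVector p F, (∀ j, c j ∈ D.Sc s) ∧
    x = fun i => ∑ j, c j * b j i)

theorem good_of_frob {s : ℝ} (hs : 0 < s) {n : ℕ} {ι : Fin n → Fin h}
    {b : Fin n → Fin h → WittVector p F} (hb : D.Good (s / p) ι b) :
    ∃ b', D.Good s ι b' := by
  have hsur := (WittVector.frobenius_bijective p F).surjective
  choose x hx using fun j i => hsur (b j i)
  obtain ⟨h1, ⟨w, hw, hwOC⟩, h3⟩ := hb
  obtain ⟨w', rfl⟩ := hsur w
  have hdet : WittVector.frobenius (Mx x ι).det = (Mx b ι).det := by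
    have := RingHom.map_det (WittVector.frobenius : WittVector p F →+* _) (Mx x ι)
    rw [this]
    congr 1
    ext1 i j
    simp [Mx, hx]
  refine ⟨x, fun j => ?_, ⟨w', ?_, ?_⟩, fun y hy => ?_⟩
  · rw [← D.Mod_frob hs]
    have : (fun i => WittVector.frobenius (x j i)) = b j := funext (hx j)
    rw [this]
    exact h1 j
  · apply frob_injective
    rw [map_mul, hdet, hw, map_one]
  · exact (oc_frobenius_iff hs).1 hwOC
  · obtain ⟨c, hc, hyc⟩ := h3 _ ((D.Mod_frob hs).2 hy)
    choose c' hc' using fun j => hsur (c j)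
    refine ⟨c', fun j => ?_, ?_⟩
    · rw [← D.Sc_frob hs, hc']; exact hc j
    · ext1 i
      apply frob_injective
      have := congrFun hyc i
      rw [this, map_sum]
      exact Finset.sum_congr rfl fun j _ => by rw [map_mul, hc', hx]

theorem good_all {s2 : ℝ} (hs2 : 0 < s2) {n : ℕ} {ι : Fin n → Fin h}
    (hgood : ∀ s, 0 < s → s ≤ s2 → ∃ b, D.Good s ι b) : ∀ s, 0 < s → ∃ b, D.Good s ι b := by
  have hp1 : (1 : ℝ) < p := by exact_mod_cast hp.out.one_lt
  have hp0 : (0 : ℝ) < p := by linarith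
  have key : ∀ k : ℕ, ∀ s, 0 < s → s ≤ s2 * p ^ k → ∃ b, D.Good s ι b := by
    intro k
    induction k with
    | zero => intro s hs hss; exact hgood s hs (by simpa using hss)
    | succ k ih =>
      intro s hs hss
      obtain ⟨b, hb⟩ := ih (s / p) (by positivity) (by
        rw [div_le_iff₀ hp0]
        rw [pow_succ] at hss
        linarith)
      exact D.good_of_frob hs hb
  intro s hs
  obtain ⟨k, hk⟩ := pow_unbounded_of_one_lt (s / s2) hp1
  refine key k s hs ?_
  rw [div_lt_iff₀ hs2] at hk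
  linarith

/-- the structure theorem -/
theorem struct (R0 : G → Matrix (Fin h) (Fin h) ℤ_[p]) (hR0 : ∀ g, D.R g = (R0 g).map zp) :
    ∃ (n : ℕ) (ι : Fin n → Fin h) (N0 : Matrix (Fin h) (Fin n) ℤ_[p]),
      N0.submatrix ι id = 1 ∧
      (∀ g ∈ D.H, R0 g * N0 = N0 * (R0 g * N0).submatrix ι id) ∧
      ∀ s, 0 < s → (∀ x ∈ D.Mod s, ∀ i, x i = ∑ k, zp (N0 i k) * x (ι k)) ∧
        ∃ b, D.Good s ι b := by
  obtain ⟨n, m, ι, s2, a, u, u', hs2, hm, hdet, huu', hu', hmin, hgen⟩ := D.main1
  have ha := D.a_eq_zero hs2 hm hdet huu' hmin hgen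
  subst ha
  rw [pow_zero, one_mul] at hdet
  have hgood : ∀ s, 0 < s → s ≤ s2 → D.Good s ι m := fun s hs hss =>
    ⟨fun j => D.Mod_scale hs hss (hm j), ⟨u', by rw [hdet]; exact huu', hu'.scale hs hss⟩,
      hgen s hs hss⟩
  obtain ⟨a', ha', hphi⟩ := D.phi_matrix hs2 hm hgen
  set mm : Matrix (Fin h) (Fin n) (WittVector p F) := Matrix.of fun i j => m j i with hmm
  set A : Matrix (Fin n) (Fin n) (WittVector p F) := Mx m ι with hA
  have hAmm : A = mm.submatrix ι id := rfl
  have hdetu : IsUnit A.det := IsUnit.of_mul_eq_one u' (by rw [hdet]; exact huu')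
  set N : Matrix (Fin h) (Fin n) (WittVector p F) := mm * A⁻¹ with hN
  have hNA : N * A = mm := by
    rw [hN, Matrix.mul_assoc, Matrix.nonsing_inv_mul _ hdetu, Matrix.mul_one]
  have hcancel : ∀ {k : ℕ} (X Y : Matrix (Fin k) (Fin n) (WittVector p F)),
      X * A = Y * A → X = Y := by
    intro k X Y hXY
    have := congrArg (fun Z => Z * A⁻¹) hXY
    simpa only [Matrix.mul_assoc, Matrix.mul_nonsing_inv _ hdetu, Matrix.mul_one] using this
  set fr : WittVector p F →+* WittVector p F := WittVector.frobenius with hfr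
  have hphi' : mm = mm.map fr * a' := by
    ext1 i j
    rw [Matrix.mul_apply]
    simp only [hmm, Matrix.of_apply, Matrix.map_apply]
    rw [hphi j i]
    exact Finset.sum_congr rfl fun k _ => mul_comm _ _
  have hAphi : A = A.map fr * a' := by
    have e : mm.submatrix ι id = (mm.map fr * a').submatrix ι id := by rw [← hphi']
    exact e
  have hNfr : N.map fr = N := by
    apply hcancel
    have e1 : N.map fr * A.map fr = mm.map fr := by
      rw [← Matrix.map_mul, hNA]
    calc N.map fr * A = N.map fr * (A.map fr * a') := by rw [← hAphi]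
      _ = mm.map fr * a' := by rw [← Matrix.mul_assoc, e1]
      _ = mm := hphi'.symm
      _ = N * A := hNA.symm
  have hex : ∀ i k, ∃ z : ℤ_[p], zp z = N i k := fun i k =>
    exists_zp (congrFun (congrFun hNfr i) k)
  choose N0 hN0 using hex
  have hN0map : (Matrix.of N0).map zp = N := by
    ext1 i k; exact hN0 i k
  have hNι : N.submatrix ι id = 1 := by
    have e : N.submatrix ι id = A * A⁻¹ := rfl
    rw [e, Matrix.mul_nonsing_inv _ hdetu]
  have hzinj : ∀ {k l : ℕ} (X Y : Matrix (Fin k) (Fin l) ℤ_[p]),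
      X.map (zp : ℤ_[p] →+* WittVector p F) = Y.map zp → X = Y := by
    intro k l X Y hXY
    ext1 i j
    exact zp_injective (congrFun (congrFun hXY i) j)
  refine ⟨n, ι, Matrix.of N0, ?_, ?_, fun s hs => ⟨?_, ?_⟩⟩
  · apply hzinj
    have e1 : ((Matrix.of N0).submatrix ι id).map (zp : ℤ_[p] →+* WittVector p F)
        = N.submatrix ι id := by
      rw [← hN0map]; rfl
    rw [e1, hNι]
    ext1 i j
    simp only [Matrix.map_apply, Matrix.one_apply]
    split_ifs <;> simp
  · intro g hg
    apply hzinj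
    rw [Matrix.map_mul, Matrix.map_mul, hN0map, ← hR0]
    have e1 : ((R0 g * Matrix.of N0).submatrix ι id).map (zp : ℤ_[p] →+* WittVector p F)
        = (D.R g * N).submatrix ι id := by
      rw [← hN0map, hR0, ← Matrix.map_mul]; rfl
    rw [e1]
    -- invariance
    have e2 : D.R g * mm.map (ga g) = mm := by
      ext1 i j
      have := congrFun ((hm j).2.1 g hg) i
      rw [Matrix.mul_apply]
      simpa only [tw, hmm, Matrix.map_apply, Matrix.of_apply] using this
    have e3 : N.map (ga g) = N := by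
      ext1 i k
      rw [Matrix.map_apply, ← hN0 i k, ga_zp]
    have e4 : N * A.map (ga g) = mm.map (ga g) := by
      conv_lhs => rw [← e3]
      rw [← Matrix.map_mul, hNA]
    have e5 : D.R g * N * A.map (ga g) = N * A := by
      rw [Matrix.mul_assoc, e4, e2, hNA]
    have e6 : A.map (ga g) * A⁻¹.map (ga g) = 1 := by
      rw [← Matrix.map_mul, Matrix.mul_nonsing_inv _ hdetu]
      ext1 i j
      simp only [Matrix.map_apply, Matrix.one_apply]
      split_ifs <;> simp
    have e7 : D.R g * N = N * (A * A⁻¹.map (ga g)) := by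
      have := congrArg (fun Z => Z * A⁻¹.map (ga g)) e5
      simpa only [Matrix.mul_assoc, e6, Matrix.mul_one] using this
    have e8 : (D.R g * N).submatrix ι id = A * A⁻¹.map (ga g) := by
      rw [e7]
      have : (N * (A * A⁻¹.map (ga g))).submatrix ι id
          = N.submatrix ι id * (A * A⁻¹.map (ga g)) := rfl
      rw [this, hNι, Matrix.one_mul]
    rw [e8]; exact e7
  · -- x = N x_ι
    intro x hx i
    have hx' : x ∈ D.Mod (min s s2) := D.Mod_scale (lt_min hs hs2) (min_le_left _ _) hx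
    obtain ⟨c, hc, hxc⟩ := hgen _ (lt_min hs hs2) (min_le_right _ _) x hx'
    have e1 : x = mm.mulVec c := by
      rw [hxc]
      ext1 i
      simp only [Matrix.mulVec, dotProduct, hmm, Matrix.of_apply]
      exact Finset.sum_congr rfl fun k _ => mul_comm _ _
    have e2 : (fun k => x (ι k)) = A.mulVec c := by
      rw [e1]; rfl
    have e3 : N.mulVec (fun k => x (ι k)) = x := by
      rw [e2, Matrix.mulVec_mulVec, hNA, ← e1]
    have e4 := congrFun e3 i
    rw [← e4]
    simp only [Matrix.mulVec, dotProduct, Matrix.of_apply, hN0]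
  · exact D.good_all hs2 (fun s hs hss => ⟨m, hgood s hs hss⟩) s hs

/-- the matrix identity for a good basis -/
theorem Good.combo {s : ℝ} (hs : 0 < s) {n : ℕ} {ι : Fin n → Fin h}
    {b : Fin n → Fin h → WittVector p F} {N0 : Matrix (Fin h) (Fin n) ℤ_[p]}
    (hb : D.Good s ι b)
    (hN : ∀ x ∈ D.Mod s, ∀ i, x i = ∑ k, zp (N0 i k) * x (ι k))
    {x : Fin h → WittVector p F} (hxOC : ∀ i, OC D.v s (x i)) (hxH : ∀ g ∈ D.H, D.tw g x = x)
    (hx : ∀ i, x i = ∑ k, zp (N0 i k) * x (ι k)) :
    ∃ c : Fin n → WittVector p F, (∀ j, OC D.v s (c j)) ∧ (∀ j, ∀ g ∈ D.H, ga g (c j) = c j) ∧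
      x = fun i => ∑ j, c j * b j i := by
  obtain ⟨h1, ⟨w, hw, hwOC⟩, h3⟩ := hb
  set A := Mx b ι with hA
  have hdetu : IsUnit A.det := IsUnit.of_mul_eq_one w hw
  set c : Fin n → WittVector p F := fun j => w * (A.adjugate.mulVec (fun k => x (ι k))) j with hc
  have hAc : A.mulVec c = fun k => x (ι k) := by
    have e1 : c = w • A.adjugate.mulVec (fun k => x (ι k)) := rfl
    rw [e1, Matrix.mulVec_smul, Matrix.mulVec_mulVec, Matrix.mul_adjugate, Matrix.smul_mulVec,
      Matrix.one_mulVec, smul_smul, mul_comm w, hw, one_smul]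
  have hxc : x = fun i => ∑ j, c j * b j i := by
    ext1 i
    rw [hx i]
    have e1 : ∀ k, x (ι k) = ∑ j, c j * b j (ι k) := by
      intro k
      rw [← congrFun hAc k]
      simp only [Matrix.mulVec, dotProduct, hA, Mx, Matrix.of_apply]
      exact Finset.sum_congr rfl fun j _ => mul_comm _ _
    have e2 : ∀ j, b j i = ∑ k, zp (N0 i k) * b j (ι k) := fun j => hN _ (h1 j) i
    simp only [e1]
    have e3 : ∑ j, c j * b j i = ∑ j, c j * ∑ k, zp (N0 i k) * b j (ι k) :=
      Finset.sum_congr rfl fun j _ => by rw [← e2]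
    rw [e3]
    simp only [Finset.mul_sum]
    rw [Finset.sum_comm]
    exact Finset.sum_congr rfl fun j _ => Finset.sum_congr rfl fun k _ => by ring
  have hdet0 : A.det ≠ 0 := hdetu.ne_zero
  refine ⟨c, fun j => ?_, fun j g hg => ?_, hxc⟩
  · refine OC.mul hs hwOC ?_
    simp only [Matrix.mulVec, dotProduct]
    refine Subring.sum_mem (OCRing D.v s hs) fun k _ => OC.mul hs ?_ (hxOC _)
    rw [Matrix.adjugate_apply]
    refine OC.det hs _ fun i' j' => ?_
    rcases eq_or_ne i' k with rfl | hi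
    · rw [Matrix.updateRow_self]
      rcases eq_or_ne j' j with rfl | hj
      · rw [Pi.single_eq_same]; exact OC.one hs
      · rw [Pi.single_eq_of_ne hj]; exact OC.zero
    · rw [Matrix.updateRow_ne hi]; exact (h1 _).1 _
  · have e1 : D.tw g x = fun i => ∑ j, ga g (c j) * D.tw g (b j) i := by
      conv_lhs => rw [hxc]
      exact D.tw_sum _ _ _ _
    rw [hxH g hg] at e1
    have e2 : x = fun i => ∑ j, ga g (c j) * b j i := by
      rw [e1]
      ext1 i
      exact Finset.sum_congr rfl fun j _ => by rw [(h1 j).2.1 g hg]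
    have e3 := cramer_combo b ι _ x hxc j
    have e4 := cramer_combo b ι _ x e2 j
    rw [e3] at e4
    exact (mul_left_cancel₀ hdet0 e4).symm

end Dat

end Run7.h89
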