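import Pool.Agent.Run7.h89.Main5

/-!
# Locally analytic vectors in overconvergent period modules: definitions

Teichmuller coordinates, the valuations `w_r`, overconvergence, and locally analytic elements, for
the Witt vectors of a perfect valued field `(F, v)`.
-/

set_option linter.unusedSectionVars false

namespace Run7.h89.Ked

open scoped NNReal Topology TensorProduct
open WittVector Filter

section Valuations

variable {p : ℕ} [hp : Fact p.Prime] {F : Type*} [Field F] [CharP F p] [PerfectRing F p]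

open scoped Classical in
/-- The additive valuation `v^♭ = -log_p (v a)`, with value `⊤` at `a = 0`. -/
noncomputable def addVal (p : ℕ) {F : Type*} [Field F] (v : Valuation F ℝ≥0) (a : F) : EReal :=
  if a = 0 then ⊤ else ((-Real.logb p (v a) : ℝ) : EReal)

/-- The Teichmuller coordinate `x_k` of a Witt vector `x = ∑ p^k [x_k]`. -/
noncomputable def teichCoord (x : WittVector p F) (k : ℕ) : F :=
  ((_root_.frobeniusEquiv F p).symm ^ k) (x.coeff k)

/-- The term `k + (p-1)/(pr) v^♭(x_k)`. -/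
noncomputable def wTerm (v : Valuation F ℝ≥0) (r : ℝ) (x : WittVector p F) (k : ℕ) : EReal :=
  ((k : ℝ) : EReal) + ((((p : ℝ) - 1) / ((p : ℝ) * r) : ℝ) : EReal) * addVal p v (teichCoord x k)

/-- The valuation `w_r(x) = inf_k (k + (p-1)/(pr) v^♭(x_k))`. -/
noncomputable def w (v : Valuation F ℝ≥0) (r : ℝ) (x : WittVector p F) : EReal :=
  ⨅ k, wTerm v r x k

/-- The condition `k + (p-1)/(pr) v^♭(x_k) → +∞` defining `Ã^{†,r}`. -/
def IsOverconvergent (v : Valuation F ℝ≥0) (r : ℝ) (x : WittVector p F) : Prop :=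
  Tendsto (wTerm v r x) atTop (𝓝 ⊤)

/-- The valuation on `(Ã^{†,r})^h`, the minimum over the coordinates. -/
noncomputable def wVec {h : ℕ} (v : Valuation F ℝ≥0) (r : ℝ) (x : Fin h → WittVector p F) :
    EReal :=
  ⨅ i, w v r (x i)

end Valuations

section LocAn

/-- The `n`-th Mahler coefficient `a_n = (Δ_1^{n_1} ⋯ Δ_d^{n_d} f)(0)` of a function, computed
from its restriction `f` to `ℕ^d`. -/
def mahler {d : ℕ} {M : Type*} [AddCommGroup M] (f : (Fin d → ℕ) → M) (n : Fin d → ℕ) : M :=
  (List.finRange d).foldr (fun j g => (fwdDiff (Pi.single j 1))^[n j] g) f 0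

/-- `orb y` is the image of `x` under the element with coordinates `y ∈ ℤ_p^d`.  The element is
locally analytic if for some `i ≥ 0` and real `lam`, `μ` the Mahler coefficients `a_n` of
`y ↦ orb (p^i y)` satisfy `w(a_n) ≥ p^lam p^⌊log_p |n|_∞⌋ + μ` for all `n ≠ 0`. -/
def IsLocAn (p : ℕ) [Fact p.Prime] {d : ℕ} {M : Type*} [AddCommGroup M] (wM : M → EReal)
    (orb : (Fin d → ℤ_[p]) → M) : Prop :=
  ∃ (i : ℕ) (lam μ : ℝ), ∀ n : Fin d → ℕ, n ≠ 0 →
    (((p : ℝ) ^ lam * (p : ℝ) ^ Nat.log p (Finset.univ.sup n) + μ : ℝ) : EReal) ≤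
      wM (mahler (fun y : Fin d → ℕ => orb fun j => (p : ℤ_[p]) ^ i * (y j : ℤ_[p])) n)

end LocAn

section bridge

variable {p : ℕ} [hp : Fact p.Prime] {F : Type*} [Field F] [CharP F p] [PerfectRing F p]
variable {v : Valuation F ℝ≥0} {d : ℕ}

/-- the exponent `s = (p-1)/(pr)` -/
noncomputable def sOf (p : ℕ) (r : ℝ) : ℝ := ((p : ℝ) - 1) / ((p : ℝ) * r)

theorem sOf_pos {r : ℝ} (hr : 0 < r) : 0 < sOf p r := by
  have h1 : (1 : ℝ) < p := by exact_mod_cast hp.out.one_lt
  unfold sOf
  have : 0 < (p : ℝ) - 1 := by linarith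
  positivity

theorem le_wTerm_iff {r : ℝ} (hr : 0 < r) (x : WittVector p F) (k : ℕ) (c : ℝ) :
    ((c : ℝ) : EReal) ≤ wTerm v r x k ↔ v (tc x k) ≤ (p : ℝ≥0) ^ (((k : ℝ) - c) / sOf p r) := by
  have hs := sOf_pos (p := p) hr
  have h1 : (1 : ℝ) < p := by exact_mod_cast hp.out.one_lt
  unfold wTerm
  change (c : EReal) ≤ ((k : ℝ) : EReal) + ((sOf p r : ℝ) : EReal) * addVal p v (tc x k) ↔ _
  unfold addVal
  split_ifs with h0
  · rw [h0, map_zero]
    simp only [zero_le, iff_true]
    rw [EReal.coe_mul_top_of_pos hs, EReal.coe_add_top]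
    exact le_top
  · have hv0 : 0 < v (tc x k) := (Valuation.pos_iff v).2 h0
    have hv0' : (0 : ℝ) < v (tc x k) := by exact_mod_cast hv0
    rw [← EReal.coe_mul, ← EReal.coe_add, EReal.coe_le_coe_iff, ← NNReal.coe_le_coe,
      NNReal.coe_rpow, NNReal.coe_natCast, ← Real.logb_le_iff_le_rpow h1 hv0', le_div_iff₀ hs]
    constructor <;> intro h <;> linarith

theorem le_w_iff {r : ℝ} (hr : 0 < r) (x : WittVector p F) (c : ℝ) :
    ((c : ℝ) : EReal) ≤ w v r x ↔ Bd v (sOf p r) c x := by
  unfold w Bd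
  rw [le_iInf_iff]
  exact forall_congr' fun k => le_wTerm_iff hr x k c

theorem isOverconvergent_iff {r : ℝ} (hr : 0 < r) (x : WittVector p F) :
    IsOverconvergent v r x ↔ OC v (sOf p r) x := by
  unfold IsOverconvergent OC
  rw [EReal.tendsto_nhds_top_iff_real]
  constructor
  · intro h c
    filter_upwards [h c] with k hk
    exact (le_wTerm_iff hr x k c).1 hk.le
  · intro h c
    filter_upwards [h (c + 1)] with k hk
    have := (le_wTerm_iff hr x k (c + 1)).2 hk
    refine lt_of_lt_of_le ?_ this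
    exact_mod_cast lt_add_one c

/-- the list of directions attached to `n` -/
def dirs {d : ℕ} (n : Fin d → ℕ) (l : List (Fin d)) : List (Fin d) :=
  l.flatMap fun j => List.replicate (n j) j

theorem mahler_eq {d : ℕ} {M : Type*} [AddCommGroup M] (f : (Fin d → ℕ) → M) (n : Fin d → ℕ) :
    mahler f n = DD (dirs n (List.finRange d)) f 0 := by
  have key : ∀ l : List (Fin d),
      l.foldr (fun j g => (fwdDiff (Pi.single j 1))^[n j] g) f = DD (dirs n l) f := by
    intro l
    induction l with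
    | nil => rfl
    | cons j l ih =>
      have e : dirs n (j :: l) = List.replicate (n j) j ++ dirs n l := by
        simp [dirs]
      rw [List.foldr_cons, ih, e, DD_append, DD_replicate]
  exact congrFun (key _) 0

theorem DD_perm {d : ℕ} {M : Type*} [AddCommGroup M] {l l' : List (Fin d)} (h : l.Perm l')
    (f : (Fin d → ℕ) → M) : DD l f = DD l' f := by
  induction h with
  | nil => rfl
  | cons x _ ih => rw [DD_cons, ih, DD_cons]
  | swap x y l => rw [DD_cons, DD_cons, DD_cons, DD_cons, fwdDiff_comm']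
  | trans _ _ ih1 ih2 => rw [ih1, ih2]

theorem count_dirs {d : ℕ} (n : Fin d → ℕ) (a : Fin d) :
    (dirs n (List.finRange d)).count a = n a := by
  unfold dirs
  rw [List.count_flatMap]
  have h1 : (List.map (List.count a ∘ fun j => List.replicate (n j) j) (List.finRange d)).sum
      = ∑ j, (if j = a then n j else 0) := by
    rw [← List.sum_ofFn, List.ofFn_eq_map]
    congr 1
    refine List.map_congr_left fun j _ => ?_
    simp [List.count_replicate]
  rw [h1]
  simp

theorem length_dirs {d : ℕ} (n : Fin d → ℕ) :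
    (dirs n (List.finRange d)).length = ∑ j, n j := by
  unfold dirs
  rw [List.length_flatMap]
  rw [← List.sum_ofFn, List.ofFn_eq_map]
  congr 1
  refine List.map_congr_left fun j _ => ?_
  simp

theorem DD_eq_mahler {d : ℕ} {M : Type*} [AddCommGroup M] (f : (Fin d → ℕ) → M)
    (l : List (Fin d)) : DD l f 0 = mahler f (fun j => l.count j) := by
  rw [mahler_eq]
  refine congrFun (DD_perm ?_ f) 0
  rw [List.perm_iff_count]
  intro a
  rw [count_dirs]

theorem mahler_pi {d h : ℕ} {M : Type*} [AddCommGroup M] (f : (Fin d → ℕ) → Fin h → M)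
    (n : Fin d → ℕ) (k : Fin h) : mahler f n k = mahler (fun y => f y k) n := by
  rw [mahler_eq, mahler_eq]
  have := DD_map (Pi.evalAddMonoidHom (fun _ : Fin h => M) k) (dirs n (List.finRange d)) f
  exact (congrFun this 0).symm

theorem LA_of_zero {s δ μ : ℝ} (hs : 0 < s) (hδ : 0 ≤ δ) {f : (Fin d → ℕ) → WittVector p F}
    (h : ∀ l : List (Fin d), Bd v s (δ * l.length + μ) (DD l f 0)) : LA v s δ μ f := by
  intro l y
  revert l
  refine pi_nat_induction (P := fun y => ∀ l : List (Fin d),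
    Bd v s (δ * l.length + μ) (DD l f y)) h (fun y j ih l => ?_) y
  have e : DD l f (y + Pi.single j 1) = DD l f y + DD (j :: l) f y := by
    rw [DD_cons]; simp [fwdDiff]
  rw [e]
  refine (ih l).add hs ((ih (j :: l)).mono hs ?_)
  rw [List.length_cons]
  push_cast
  nlinarith

theorem sup_le_sum {d : ℕ} (n : Fin d → ℕ) : Finset.univ.sup n ≤ ∑ j, n j := by
  refine Finset.sup_le fun j _ => ?_
  exact Finset.single_le_sum (f := n) (fun _ _ => Nat.zero_le _) (Finset.mem_univ j)

theorem sum_le_sup {d : ℕ} (n : Fin d → ℕ) : ∑ j, n j ≤ d * Finset.univ.sup n := by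
  have := Finset.sum_le_card_nsmul Finset.univ n (Finset.univ.sup n)
    (fun j _ => Finset.le_sup (Finset.mem_univ j))
  simpa using this

/-- from Mahler bounds to bounds on all differences -/
theorem LA_of_mahler {r : ℝ} (hr : 0 < r) {f : (Fin d → ℕ) → WittVector p F} {lam μ c0 : ℝ}
    (h0 : Bd v (sOf p r) c0 (f 0))
    (h : ∀ n : Fin d → ℕ, n ≠ 0 →
      (((p : ℝ) ^ lam * (p : ℝ) ^ Nat.log p (Finset.univ.sup n) + μ : ℝ) : EReal) ≤
        w v r (mahler f n)) :
    LA v (sOf p r) ((p : ℝ) ^ lam / ((d + 1) * p)) (min μ c0) f := by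
  have hs := sOf_pos (p := p) hr
  have hp0 : (0 : ℝ) < p := by exact_mod_cast hp.out.pos
  refine LA_of_zero hs (by positivity) fun l => ?_
  by_cases hl : l = []
  · subst hl
    simp only [DD_nil, List.length_nil, Nat.cast_zero, mul_zero, zero_add]
    exact h0.mono hs (min_le_right _ _)
  · set n : Fin d → ℕ := fun j => l.count j with hn
    have hsum : ∑ j, n j = l.length := by
      rw [← length_dirs]
      refine List.Perm.length_eq ?_
      rw [List.perm_iff_count]
      intro a
      rw [count_dirs]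
    have hn0 : n ≠ 0 := by
      intro hcon
      rw [hcon] at hsum
      simp only [Pi.zero_apply, Finset.sum_const_zero] at hsum
      exact hl (List.length_eq_zero_iff.1 hsum.symm)
    have h1 := (le_w_iff hr _ _).1 (h n hn0)
    rw [DD_eq_mahler]
    refine h1.mono hs ?_
    have h2 : (l.length : ℝ) ≤ (d + 1) * (p * (p : ℝ) ^ Nat.log p (Finset.univ.sup n)) := by
      have e1 : l.length ≤ d * Finset.univ.sup n := by rw [← hsum]; exact sum_le_sup n
      have e2 : Finset.univ.sup n < p ^ (Nat.log p (Finset.univ.sup n) + 1) :=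
        Nat.lt_pow_succ_log_self hp.out.one_lt _
      have e3 : (l.length : ℝ) ≤ d * (Finset.univ.sup n : ℕ) := by exact_mod_cast e1
      have e4 : ((Finset.univ.sup n : ℕ) : ℝ) ≤ p * (p : ℝ) ^ Nat.log p (Finset.univ.sup n) := by
        have : ((Finset.univ.sup n : ℕ) : ℝ) ≤ (p : ℝ) ^ (Nat.log p (Finset.univ.sup n) + 1) := by
          exact_mod_cast e2.le
        rwa [pow_succ, mul_comm] at this
      calc (l.length : ℝ) ≤ d * (Finset.univ.sup n : ℕ) := e3
        _ ≤ (d + 1) * (p * (p : ℝ) ^ Nat.log p (Finset.univ.sup n)) := by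
            gcongr
            linarith
    have h3 : (p : ℝ) ^ lam / ((d + 1) * p) * l.length ≤
        (p : ℝ) ^ lam * (p : ℝ) ^ Nat.log p (Finset.univ.sup n) := by
      rw [div_mul_eq_mul_div, div_le_iff₀ (by positivity)]
      have h4 : 0 ≤ (p : ℝ) ^ lam := by positivity
      nlinarith
    have := min_le_left μ c0
    linarith

theorem mahler_of_LA {r : ℝ} (hr : 0 < r) {f : (Fin d → ℕ) → WittVector p F} {δ μ : ℝ}
    (hδ : 0 < δ) (h : LA v (sOf p r) δ μ f) (n : Fin d → ℕ) (hn : n ≠ 0) :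
    (((p : ℝ) ^ (Real.logb p δ) * (p : ℝ) ^ Nat.log p (Finset.univ.sup n) + μ : ℝ) : EReal) ≤
      w v r (mahler f n) := by
  have hs := sOf_pos (p := p) hr
  have hp1 : (1 : ℝ) < p := by exact_mod_cast hp.out.one_lt
  rw [le_w_iff hr, mahler_eq]
  refine (h _ _).mono hs ?_
  rw [length_dirs, Real.rpow_logb (by linarith) hp1.ne' hδ]
  have h1 : p ^ Nat.log p (Finset.univ.sup n) ≤ ∑ j, n j := by
    refine le_trans (Nat.pow_log_le_self p ?_) (sup_le_sum n)
    intro hcon
    apply hn
    funext j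
    have : n j ≤ Finset.univ.sup n := Finset.le_sup (Finset.mem_univ j)
    rw [hcon] at this
    exact Nat.le_zero.1 this
  have h2 : (p : ℝ) ^ Nat.log p (Finset.univ.sup n) ≤ ((∑ j, n j : ℕ) : ℝ) := by exact_mod_cast h1
  nlinarith

theorem cast_level (i : ℕ) (y : Fin d → ℕ) :
    (fun j => (p : ℤ_[p]) ^ i * (y j : ℤ_[p])) = fun j => (((p ^ i • y) j : ℕ) : ℤ_[p]) := by
  funext j
  simp

theorem isLocAn_iff {r : ℝ} (hr : 0 < r) {orb : (Fin d → ℤ_[p]) → WittVector p F}
    (h0 : ∃ c, Bd v (sOf p r) c (orb 0)) :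
    IsLocAn p (w v r) orb ↔ La v (sOf p r) (fun y => orb fun j => (y j : ℤ_[p])) := by
  have hp0 : (0 : ℝ) < p := by exact_mod_cast hp.out.pos
  constructor
  · rintro ⟨i, lam, μ, h⟩
    obtain ⟨c0, hc0⟩ := h0
    refine ⟨i, (p : ℝ) ^ lam / ((d + 1) * p), min μ c0, by positivity, ?_⟩
    simp only [cast_level] at h
    refine LA_of_mahler hr ?_ h
    convert hc0 using 1
    simp
    rfl
  · rintro ⟨i, δ, μ, hδ, h⟩
    refine ⟨i, Real.logb p δ, μ, fun n hn => ?_⟩
    simp only [cast_level]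
    exact mahler_of_LA hr hδ h n hn

theorem isLocAn_vec_iff {h : ℕ} {r : ℝ} (hr : 0 < r)
    {orb : (Fin d → ℤ_[p]) → Fin h → WittVector p F}
    (h0 : ∀ k, ∃ c, Bd v (sOf p r) c (orb 0 k)) :
    IsLocAn p (wVec v r) orb ↔
      ∀ k, La v (sOf p r) (fun y => orb (fun j => (y j : ℤ_[p])) k) := by
  have hp0 : (0 : ℝ) < p := by exact_mod_cast hp.out.pos
  have hs := sOf_pos (p := p) hr
  constructor
  · rintro ⟨i, lam, μ, hm⟩ k
    obtain ⟨c0, hc0⟩ := h0 k
    refine ⟨i, (p : ℝ) ^ lam / ((d + 1) * p), min μ c0, by positivity, ?_⟩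
    simp only [cast_level] at hm
    refine LA_of_mahler (f := fun y => orb (fun j => (((p ^ i • y) j : ℕ) : ℤ_[p])) k) hr ?_
      fun n hn => ?_
    · convert hc0 using 1
      simp
      rfl
    · refine (hm n hn).trans ?_
      unfold wVec
      refine (iInf_le _ k).trans (le_of_eq ?_)
      rw [mahler_pi]
  · intro hk
    obtain ⟨i, δ, μ, hδ, hc⟩ := La.common hs hk
    refine ⟨i, Real.logb p δ, μ, fun n hn => ?_⟩
    simp only [cast_level]
    unfold wVec
    refine le_iInf fun k => ?_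
    rw [mahler_pi]
    exact mahler_of_LA hr hδ (hc i le_rfl δ le_rfl μ le_rfl k) n hn

end bridge

end Run7.h89.Ked
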