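import Mathlib

/-!
The tilt `ℂ_p^♭`, its valuation, and the action of the Galois group `Gal(ℚ̄_p/ℚ_p)`.
-/

set_option linter.unusedSectionVars false

namespace Run7.h89

open scoped NNReal
open UniformSpace

section tilt

variable (p : ℕ) [hp : Fact p.Prime]

/-- The field `ℂ_p`, the completion of `ℚ̄_p`. -/
def Cp : Type := ℂ_[p]

noncomputable def instCp : NormedField (Cp p) := PadicComplex.normedField p

attribute [instance] instCp

theorem instCpUltra : IsUltrametricDist (Cp p) := PadicComplex.isUltrametricDist p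

attribute [instance] instCpUltra

/-- The `p`-adic absolute value on `ℂ_p`, as a valuation. -/
noncomputable def vCp : Valuation (Cp p) ℝ≥0 := NormedField.valuation

/-- The ring of integers `O_{ℂ_p} = {x ∈ ℂ_p : |x| ≤ 1}`. -/
def OCp : Type := (vCp p).integer

noncomputable def instOCp : CommRing (OCp p) := (vCp p).integer.toCommRing

attribute [instance] instOCp

noncomputable def instOCpAlg : Algebra (OCp p) (Cp p) :=
  (vCp p).instAlgebraSubtypeMemSubringInteger

attribute [instance] instOCpAlg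

theorem OCp_integers : (vCp p).Integers (OCp p) := Valuation.integer.integers _

theorem norm_p_Cp : ‖((p : ℕ) : Cp p)‖ = (p : ℝ)⁻¹ := by
  have := PadicComplex.norm_extends' p (p : ℚ_[p])
  rw [Padic.norm_p] at this
  rw [← this]
  congr 1
  simp
  rfl

theorem OCp_not_unit : Fact (¬ IsUnit ((p : ℕ) : OCp p)) := by
  constructor
  intro h
  have h1 := (OCp_integers p).one_of_isUnit h
  rw [map_natCast] at h1
  have h3 : ‖((p : ℕ) : Cp p)‖ = 1 := by
    have := congrArg NNReal.toReal h1
    simpa [vCp] using this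
  rw [norm_p_Cp] at h3
  have h4 : (p : ℝ) = 1 := by
    have := congrArg (fun x => x⁻¹) h3
    simpa using this
  have h5 : p = 1 := by exact_mod_cast h4
  exact hp.out.one_lt.ne' h5

attribute [instance] OCp_not_unit

/-- The ring of integers `O_{ℂ_p}^♭ = lim_{x ↦ x^p} O_{ℂ_p}/p` of the tilt. -/
def OFlat : Type := PreTilt (OCp p) p

noncomputable def instOFlat : CommRing (OFlat p) := PreTilt.instCommRing (OCp p) p

attribute [instance] instOFlat

theorem instOFlatDomain : IsDomain (OFlat p) :=
  PreTilt.isDomain (Cp p) (vCp p) (OCp p) (OCp_integers p) p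

theorem instOFlatChar : CharP (OFlat p) p := PreTilt.instCharP (OCp p) p

theorem instOFlatPerfect : PerfectRing (OFlat p) p := PreTilt.instPerfectRing (OCp p) p

attribute [instance] instOFlatDomain instOFlatChar instOFlatPerfect

/-- The tilt `ℂ_p^♭`, the fraction field of `O_{ℂ_p}^♭`. -/
def CFlat : Type := FractionRing (OFlat p)

noncomputable def instCFlat : Field (CFlat p) := FractionRing.field (OFlat p)

attribute [instance] instCFlat

noncomputable def instCFlatAlg : Algebra (OFlat p) (CFlat p) := OreLocalization.instAlgebra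

attribute [instance] instCFlatAlg

theorem instCFlatFrac : IsFractionRing (OFlat p) (CFlat p) := Localization.isLocalization

attribute [instance] instCFlatFrac

theorem instCFlatChar : CharP (CFlat p) p := IsFractionRing.charP (OFlat p) p

attribute [instance] instCFlatChar

theorem instCFlatPerfect : PerfectRing (CFlat p) p := by
  refine PerfectRing.ofSurjective (CFlat p) p fun x => ?_
  obtain ⟨a, b, hb, rfl⟩ := IsFractionRing.div_surjective (OFlat p) x
  obtain ⟨a', ha'⟩ := (frobeniusEquiv (OFlat p) p).surjective a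
  obtain ⟨b', hb'⟩ := (frobeniusEquiv (OFlat p) p).surjective b
  refine ⟨algebraMap _ _ a' / algebraMap _ _ b', ?_⟩
  rw [frobenius_def, div_pow, ← map_pow, ← map_pow]
  rw [← ha', ← hb']
  rfl

attribute [instance] instCFlatPerfect

/-- The valuation on `O_{ℂ_p}^♭`. -/
noncomputable def vOFlat : Valuation (OFlat p) ℝ≥0 :=
  PreTilt.val (Cp p) (vCp p) (OCp p) (OCp_integers p) p

theorem vOFlat_supp : nonZeroDivisors (OFlat p) ≤ (vOFlat p).supp.primeCompl := by
  intro x hx h
  rw [SetLike.mem_coe, Valuation.mem_supp_iff] at h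
  exact nonZeroDivisors.ne_zero hx ((PreTilt.map_eq_zero (OCp_integers p)).1 h)

/-- The (multiplicative) valuation `x ↦ |x^♯| = p^{-v^♭(x)}` on `ℂ_p^♭`. -/
noncomputable def vFlat : Valuation (CFlat p) ℝ≥0 :=
  (vOFlat p).extendToLocalization (vOFlat_supp p) (CFlat p)

theorem vFlat_algebraMap (x : OFlat p) : vFlat p (algebraMap _ _ x) = vOFlat p x :=
  Valuation.extendToLocalization_apply_map_apply _ _ _ _

end tilt

section action

/-- The group `Gal(ℚ̄_p/ℚ_p)`. -/
def GQ (p : ℕ) [hp : Fact p.Prime] : Type := PadicAlgCl p ≃ₐ[ℚ_[p]] PadicAlgCl p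

noncomputable def instGQ (p : ℕ) [hp : Fact p.Prime] : Group (GQ p) := AlgEquiv.aut

attribute [instance] instGQ

variable {p : ℕ} [hp : Fact p.Prime]

/-- The underlying ring homomorphism of an element of `Gal(ℚ̄_p/ℚ_p)`. -/
noncomputable def GQ.toHom (τ : GQ p) : PadicAlgCl p →+* PadicAlgCl p :=
  RingHomClass.toRingHom (show PadicAlgCl p ≃ₐ[ℚ_[p]] PadicAlgCl p from τ)

theorem GQ.norm_toHom (τ : GQ p) (x : PadicAlgCl p) : ‖τ.toHom x‖ = ‖x‖ := by
  rw [← PadicAlgCl.spectralNorm_eq, ← PadicAlgCl.spectralNorm_eq]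
  exact (spectralNorm_eq_of_equiv (show PadicAlgCl p ≃ₐ[ℚ_[p]] PadicAlgCl p from τ) x).symm

theorem GQ.continuous_toHom (τ : GQ p) : Continuous τ.toHom :=
  (AddMonoidHomClass.isometry_of_norm τ.toHom τ.norm_toHom).continuous

/-- The continuous extension of `τ` to `ℂ_p`. -/
noncomputable def hatC (τ : GQ p) : Cp p →+* Cp p :=
  Completion.mapRingHom τ.toHom τ.continuous_toHom

theorem hatC_one (x : Cp p) : hatC (1 : GQ p) x = x := by
  have e : (1 : GQ p).toHom = RingHom.id _ := rfl
  have : Completion.mapRingHom (1 : GQ p).toHom (1 : GQ p).continuous_toHom = RingHom.id _ := by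
    simp only [e]
    exact Completion.mapRingHom_id
  exact RingHom.congr_fun this x

theorem hatC_mul (τ σ : GQ p) (x : Cp p) : hatC (τ * σ) x = hatC τ (hatC σ x) := by
  have := Completion.mapRingHom_comp (f := σ.toHom) (g := τ.toHom) τ.continuous_toHom
    σ.continuous_toHom
  exact (RingHom.congr_fun this x).symm

theorem hatC_norm (τ : GQ p) (x : Cp p) : ‖hatC τ x‖ = ‖x‖ := by
  have key : ∀ x : ℂ_[p], ‖Completion.mapRingHom τ.toHom τ.continuous_toHom x‖ = ‖x‖ := by
    intro x
    induction x using Completion.induction_on with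
    | hp =>
      refine isClosed_eq ?_ continuous_norm
      refine continuous_norm.comp ?_
      rw [Completion.coe_mapRingHom]
      exact Completion.continuous_map
    | ih a =>
      rw [Completion.mapRingHom_coe, Completion.norm_coe, Completion.norm_coe, τ.norm_toHom]
  exact key x

theorem hatC_mem (τ : GQ p) (x : Cp p) (hx : x ∈ (vCp p).integer) :
    hatC τ x ∈ (vCp p).integer := by
  rw [Valuation.mem_integer_iff] at hx ⊢
  have h1 : vCp p (hatC τ x) = vCp p x := NNReal.eq (hatC_norm τ x)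
  rw [h1]; exact hx

/-- The action on `O_{ℂ_p}`. -/
noncomputable def actO (τ : GQ p) : OCp p →+* OCp p :=
  (hatC τ).restrict (vCp p).integer (vCp p).integer (hatC_mem τ)

theorem algebraMap_actO (τ : GQ p) (x : OCp p) :
    algebraMap (OCp p) (Cp p) (actO τ x) = hatC τ (algebraMap (OCp p) (Cp p) x) := rfl

theorem OCp_ext {x y : OCp p} (h : algebraMap (OCp p) (Cp p) x = algebraMap (OCp p) (Cp p) y) :
    x = y := Subtype.ext h

theorem actO_le (τ : GQ p) : Ideal.span {((p : ℕ) : OCp p)} ≤
    (Ideal.span {((p : ℕ) : OCp p)}).comap (actO τ) := by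
  rw [Ideal.span_singleton_le_iff_mem, Ideal.mem_comap, map_natCast]
  exact Ideal.mem_span_singleton_self _

/-- The action on `O_{ℂ_p}/p`. -/
noncomputable def actModP (τ : GQ p) : ModP (OCp p) p →+* ModP (OCp p) p :=
  Ideal.quotientMap _ (actO τ) (actO_le τ)

theorem actModP_mk (τ : GQ p) (x : OCp p) :
    actModP τ (Ideal.Quotient.mk _ x) = Ideal.Quotient.mk _ (actO τ x) :=
  Ideal.quotientMap_mk

/-- The action on `O_{ℂ_p}^♭`. -/
noncomputable def actOFlat (τ : GQ p) : OFlat p →+* OFlat p :=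
  Perfection.map p (actModP τ)

/-- coefficients of elements of `O_{ℂ_p}^♭` -/
noncomputable def cf (n : ℕ) : OFlat p →+* ModP (OCp p) p := PreTilt.coeff n

theorem cf_actOFlat (τ : GQ p) (x : OFlat p) (n : ℕ) :
    cf n (actOFlat τ x) = actModP τ (cf n x) := rfl

theorem OFlat_ext {x y : OFlat p} (h : ∀ n, cf n x = cf n y) : x = y :=
  Perfection.ext h

theorem actModP_one (x : ModP (OCp p) p) : actModP (1 : GQ p) x = x := by
  obtain ⟨y, rfl⟩ := Ideal.Quotient.mk_surjective x
  rw [actModP_mk]
  congr 1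
  apply OCp_ext
  rw [algebraMap_actO, hatC_one]

theorem actModP_mul (τ σ : GQ p) (x : ModP (OCp p) p) :
    actModP (τ * σ) x = actModP τ (actModP σ x) := by
  obtain ⟨y, rfl⟩ := Ideal.Quotient.mk_surjective x
  rw [actModP_mk, actModP_mk, actModP_mk]
  congr 1
  apply OCp_ext
  rw [algebraMap_actO, algebraMap_actO, algebraMap_actO, hatC_mul]

theorem actOFlat_one (x : OFlat p) : actOFlat (1 : GQ p) x = x :=
  OFlat_ext fun _ => actModP_one _

theorem actOFlat_mul (τ σ : GQ p) (x : OFlat p) :
    actOFlat (τ * σ) x = actOFlat τ (actOFlat σ x) :=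
  OFlat_ext fun _ => actModP_mul _ _ _

theorem actOFlat_zero (τ : GQ p) : actOFlat τ 0 = 0 := map_zero _
theorem actOFlat_add (τ : GQ p) (x y : OFlat p) :
    actOFlat τ (x + y) = actOFlat τ x + actOFlat τ y := map_add _ _ _
theorem actOFlat_map_one (τ : GQ p) : actOFlat τ 1 = 1 := map_one _
theorem actOFlat_map_mul (τ : GQ p) (x y : OFlat p) :
    actOFlat τ (x * y) = actOFlat τ x * actOFlat τ y := map_mul _ _ _

theorem actOFlat_injective (τ : GQ p) : Function.Injective (actOFlat τ) := by
  intro x y h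
  have := congrArg (actOFlat τ⁻¹) h
  rwa [← actOFlat_mul, ← actOFlat_mul, inv_mul_cancel, actOFlat_one, actOFlat_one] at this

/-- The action of `τ` on `ℂ_p^♭`, the extension to fractions of its action on `O_{ℂ_p}^♭`. -/
noncomputable def actCFlat (τ : GQ p) : CFlat p →+* CFlat p :=
  IsFractionRing.map (actOFlat_injective τ)

theorem actCFlat_algebraMap (τ : GQ p) (x : OFlat p) :
    actCFlat τ (algebraMap (OFlat p) (CFlat p) x) = algebraMap _ _ (actOFlat τ x) :=
  IsLocalization.map_eq (M := nonZeroDivisors (OFlat p)) (T := nonZeroDivisors (OFlat p))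
    (nonZeroDivisors_le_comap_nonZeroDivisors_of_injective _ (actOFlat_injective τ)) x

theorem CFlat_hom_ext {f g : CFlat p →+* CFlat p}
    (h : ∀ x : OFlat p, f (algebraMap _ _ x) = g (algebraMap _ _ x)) (x : CFlat p) :
    f x = g x := by
  obtain ⟨a, b, hb, rfl⟩ := IsFractionRing.div_surjective (OFlat p) x
  rw [map_div₀, map_div₀, h, h]

theorem actCFlat_one (x : CFlat p) : actCFlat (1 : GQ p) x = x :=
  CFlat_hom_ext (g := RingHom.id _) (fun x => by
    rw [actCFlat_algebraMap, actOFlat_one]; rfl) x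

theorem actCFlat_mul (τ σ : GQ p) (x : CFlat p) :
    actCFlat (τ * σ) x = actCFlat τ (actCFlat σ x) :=
  CFlat_hom_ext (g := (actCFlat τ).comp (actCFlat σ)) (fun x => by
    rw [actCFlat_algebraMap, RingHom.comp_apply, actCFlat_algebraMap, actCFlat_algebraMap,
      actOFlat_mul]) x

/-- `Gal(ℚ̄_p/ℚ_p)` acts on `ℂ_p^♭`. -/
noncomputable instance actionCFlat : MulSemiringAction (GQ p) (CFlat p) where
  smul τ x := actCFlat τ x
  one_smul := actCFlat_one
  mul_smul := actCFlat_mul
  smul_zero τ := map_zero (actCFlat τ)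
  smul_add τ := map_add (actCFlat τ)
  smul_one τ := map_one (actCFlat τ)
  smul_mul τ := map_mul (actCFlat τ)

theorem vOFlat_smul (τ : GQ p) (x : OFlat p) : vOFlat p (actOFlat τ x) = vOFlat p x := by
  rcases eq_or_ne x 0 with rfl | hx
  · rw [map_zero]
  obtain ⟨n, hn⟩ : ∃ n, cf n x ≠ 0 := not_forall.1 fun h => hx (OFlat_ext h)
  have hinj : ∀ y, actModP τ y = 0 → y = 0 := by
    intro y hy
    have : actModP τ⁻¹ (actModP τ y) = y := by
      rw [← actModP_mul, inv_mul_cancel, actModP_one]
    rw [← this, hy, map_zero]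
  have hn' : cf n (actOFlat τ x) ≠ 0 := fun h => hn (hinj _ h)
  change PreTilt.valAux _ _ _ _ (actOFlat τ x) = PreTilt.valAux _ _ _ _ x
  have e2 := PreTilt.valAux_eq (K := Cp p) (v := vCp p) (OCp_integers p) hn
  have e3 := PreTilt.valAux_eq (K := Cp p) (v := vCp p) (OCp_integers p) hn'
  rw [e2, e3]
  congr 1
  have e1 : PreTilt.coeff n (actOFlat τ x) = actModP τ (PreTilt.coeff n x) := rfl
  change PreTilt.coeff n x ≠ 0 at hn
  change PreTilt.coeff n (actOFlat τ x) ≠ 0 at hn'
  rw [e1] at hn' ⊢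
  obtain ⟨y, hy⟩ := Ideal.Quotient.mk_surjective (PreTilt.coeff n x)
  rw [← hy] at hn hn' ⊢
  rw [actModP_mk] at hn' ⊢
  rw [ModP.preVal_mk (OCp_integers p) hn, ModP.preVal_mk (OCp_integers p) hn']
  exact NNReal.eq (hatC_norm τ _)

theorem vFlat_act (τ : GQ p) (x : CFlat p) : vFlat p (actCFlat τ x) = vFlat p x := by
  obtain ⟨a, b, hb, rfl⟩ := IsFractionRing.div_surjective (OFlat p) x
  rw [map_div₀, map_div₀, map_div₀, actCFlat_algebraMap, actCFlat_algebraMap, vFlat_algebraMap,
    vFlat_algebraMap, vFlat_algebraMap, vFlat_algebraMap, vOFlat_smul, vOFlat_smul]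

theorem vFlat_smul (τ : GQ p) (x : CFlat p) : vFlat p (τ • x) = vFlat p x := vFlat_act τ x

end action

end Run7.h89
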