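import Pool.Agent.Run7.h89.Official
import Pool.Agent.Run7.h89.Tilt

/-!
# The rings `Ã^{†,r}`, `Ã_K^{†,r}`, the modules `D̃_K^{†,r}(T)`, and the multiplication map
-/

set_option linter.unusedSectionVars false

namespace Run7.h89.Ked

open scoped NNReal Topology TensorProduct
open WittVector Filter

/-- The set of elements of `Gal(ℚ̄_p/ℚ_p)` that fix `K`, that is, `Gal(ℚ̄_p/K)`. -/
def fixer {p : ℕ} [Fact p.Prime] (K : IntermediateField ℚ_[p] (PadicAlgCl p)) : Set (GQ p) :=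
  {g | ∀ x ∈ K, g.toHom x = x}

/-- The data of the problem: a prime `p`, fields `ℚ_p ⊂ K ⊂ K_∞ ⊂ ℚ̄_p` with `K_∞/K` Galois, the
preimage `G₀` in `G_K` of a subgroup of `Γ_K = G_K/H_K`, coordinates `c` on `G₀/H_K`, with
`c(G_i) = (p^i ℤ_p)^d` for `G_i = {g^{p^i} : g ∈ G₀/H_K}`, and a representation `ρ` of `G_K` on
`T = ℤ_p^h`.  (`c` and `ρ` are functions on the whole of `Gal(ℚ̄_p/ℚ_p)`, of which only the values
on `G₀` and `G_K` matter.) -/
structure Setup where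
  p : ℕ
  [prime : Fact p.Prime]
  K : IntermediateField ℚ_[p] (PadicAlgCl p)
  Kinf : IntermediateField ℚ_[p] (PadicAlgCl p)
  K_le : K ≤ Kinf
  galois : ∀ g ∈ fixer K, ∀ x ∈ Kinf, g.toHom x ∈ Kinf
  d : ℕ
  G₀ : Subgroup (GQ p)
  G₀_le : ∀ g ∈ G₀, g ∈ fixer K
  le_G₀ : ∀ g ∈ fixer Kinf, g ∈ G₀
  c : GQ p → Fin d → ℤ_[p]
  c_eq : ∀ g ∈ G₀, ∀ g' ∈ G₀, (c g = c g' ↔ g⁻¹ * g' ∈ fixer Kinf)
  c_pow : ∀ (i : ℕ) (y : Fin d → ℤ_[p]),
    (∃ g ∈ G₀, c (g ^ p ^ i) = y) ↔ ∀ j, (p : ℤ_[p]) ^ i ∣ y j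
  h : ℕ
  ρ : GQ p → Matrix (Fin h) (Fin h) ℤ_[p]
  ρ_one : ρ 1 = 1
  ρ_mul : ∀ g ∈ fixer K, ∀ g' ∈ fixer K, ρ (g * g') = ρ g * ρ g'

attribute [instance] Setup.prime

namespace Setup

variable (S : Setup)

/-- The ring `Ã = W(ℂ_p^♭)`. -/
def At : Type := WittVector S.p (CFlat S.p)

noncomputable def instAt : CommRing S.At := WittVector.instCommRing S.p (CFlat S.p)

attribute [instance] instAt

/-- The action of `g` on `Ã`. -/
noncomputable def gal (g : GQ S.p) : S.At →+* S.At := WittVector.map (actCFlat g)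

/-- The canonical ring homomorphism `ℤ_p = W(𝔽_p) → Ã`. -/
noncomputable def zpA : ℤ_[S.p] →+* S.At :=
  (WittVector.map (ZMod.castHom (dvd_refl S.p) (CFlat S.p))).comp
    (WittVector.equiv S.p).symm.toRingHom

/-- `Ã ⊗ T = Ã^h`. -/
def AtT : Type := Fin S.h → S.At

noncomputable def instAtT : AddCommGroup S.AtT := Pi.addCommGroup

attribute [instance] instAtT

noncomputable def instModAtT : Module S.At S.AtT := Pi.Function.module _ _ _

attribute [instance] instModAtT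

/-- The diagonal action of `g ∈ G_K` on `Ã ⊗ T = Ã^h`. -/
noncomputable def act (g : GQ S.p) (x : S.AtT) : S.AtT :=
  fun i => ∑ j, S.zpA (S.ρ g i j) * S.gal g (x j)

/-- `H_K = Gal(ℚ̄_p/K_∞)`. -/
def HK : Set (GQ S.p) := fixer S.Kinf

theorem mul_mem_fixer {p : ℕ} [Fact p.Prime] {K : IntermediateField ℚ_[p] (PadicAlgCl p)}
    {g g' : GQ p} (hg : g ∈ fixer K) (hg' : g' ∈ fixer K) : g * g' ∈ fixer K := fun x hx => by
  have : (g * g').toHom x = g.toHom (g'.toHom x) := rfl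
  rw [this, hg' x hx, hg x hx]

theorem HK_sub : ∀ g ∈ S.HK, g ∈ fixer S.K := fun g hg => S.G₀_le g (S.le_G₀ g hg)

theorem exists_lift (y : Fin S.d → ℤ_[S.p]) : ∃ g ∈ S.G₀, S.c g = y := by
  obtain ⟨g, hg, h⟩ := (S.c_pow 0 y).2 (fun j => by simp)
  exact ⟨g, hg, by simpa using h⟩

/-- A lift to `G_K` of the element of `G_0` with coordinates `y`. -/
noncomputable def lift (y : Fin S.d → ℤ_[S.p]) : GQ S.p := Classical.choose (S.exists_lift y)

theorem lift_mem (y : Fin S.d → ℤ_[S.p]) : S.lift y ∈ S.G₀ :=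
  (Classical.choose_spec (S.exists_lift y)).1

theorem c_lift (y : Fin S.d → ℤ_[S.p]) : S.c (S.lift y) = y :=
  (Classical.choose_spec (S.exists_lift y)).2

theorem eq_zero_of_forall_dvd {p : ℕ} [Fact p.Prime] {x : ℤ_[p]}
    (h : ∀ i : ℕ, (p : ℤ_[p]) ^ i ∣ x) : x = 0 := by
  by_contra hx
  obtain ⟨n, hn⟩ : ∃ n : ℕ, (p : ℝ) ^ (-(n : ℤ)) < ‖x‖ :=
    PadicInt.exists_pow_neg_lt p (norm_pos_iff.2 hx)
  have h1 := h n
  rw [← Ideal.mem_span_singleton, ← PadicInt.norm_le_pow_iff_mem_span_pow] at h1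
  exact absurd hn (not_lt.2 h1)

theorem c_one : S.c 1 = 0 := by
  funext j
  refine eq_zero_of_forall_dvd fun i => ?_
  exact (S.c_pow i (S.c 1)).1 ⟨1, S.G₀.one_mem, by rw [one_pow]⟩ j

theorem lift_zero : S.lift 0 ∈ S.HK := by
  have h1 := (S.c_eq 1 S.G₀.one_mem (S.lift 0) (S.lift_mem 0)).1 (by rw [S.c_one, S.c_lift])
  rwa [inv_one, one_mul] at h1

/-- for `g ∈ G₀`, `g` and the lift of `c(g)` differ by an element of `H_K` -/
theorem lift_c {g : GQ S.p} (hg : g ∈ S.G₀) : ∃ k ∈ S.HK, g = S.lift (S.c g) * k := by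
  refine ⟨(S.lift (S.c g))⁻¹ * g, ?_, by group⟩
  exact (S.c_eq _ (S.lift_mem _) g hg).1 (S.c_lift _)

/-- the internal data -/
noncomputable def toDat : Dat S.p (CFlat S.p) (GQ S.p) S.h S.d where
  v := vFlat S.p
  hv := vFlat_smul
  R := fun g => (S.ρ g).map zp
  hR := fun g i j => frobenius_zp _
  H := S.HK
  γ := fun y => S.lift (fun j => (y j : ℤ_[S.p]))
  h0 := by
    have : (fun j : Fin S.d => (((0 : Fin S.d → ℕ) j : ℕ) : ℤ_[S.p])) = 0 := by
      funext j; simp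
    rw [this]
    exact S.lift_zero

theorem gal_eq (g : GQ S.p) : S.gal g = ga (p := S.p) (F := CFlat S.p) g := rfl

theorem gal_mul (g g' : GQ S.p) (x : S.At) : S.gal (g * g') x = S.gal g (S.gal g' x) := by
  have e : actCFlat (g * g') = (actCFlat g).comp (actCFlat g') :=
    RingHom.ext fun x => actCFlat_mul g g' x
  have : (WittVector.map (actCFlat (g * g')) : WittVector S.p (CFlat S.p) →+* _) =
      (WittVector.map (actCFlat g)).comp (WittVector.map (actCFlat g')) := by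
    rw [e]
    ext x n
    simp [WittVector.map_coeff]
  exact RingHom.congr_fun this x

theorem gal_zpA (g : GQ S.p) (z : ℤ_[S.p]) : S.gal g (S.zpA z) = S.zpA z := by
  have : ∀ x : WittVector S.p (ZMod S.p), (WittVector.map (actCFlat g))
      (WittVector.map (ZMod.castHom (dvd_refl S.p) (CFlat S.p)) x) =
      WittVector.map (ZMod.castHom (dvd_refl S.p) (CFlat S.p)) x := by
    intro x
    ext n
    simp only [WittVector.map_coeff]
    have e : (actCFlat g).comp (ZMod.castHom (dvd_refl S.p) (CFlat S.p)) =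
        ZMod.castHom (dvd_refl S.p) (CFlat S.p) := Subsingleton.elim _ _
    exact RingHom.congr_fun e _
  exact this _

theorem act_add (g : GQ S.p) (x y : S.AtT) : S.act g (x + y) = S.act g x + S.act g y :=
  S.toDat.tw_add g x y

theorem act_smul (g : GQ S.p) (c : S.At) (x : S.AtT) :
    S.act g (c • x) = S.gal g c • S.act g x := S.toDat.tw_smul g c x

theorem act_mul {g g' : GQ S.p} (hg : g ∈ fixer S.K) (hg' : g' ∈ fixer S.K) (x : S.AtT) :
    S.act (g * g') x = S.act g (S.act g' x) := by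
  funext i
  simp only [act]
  have e1 : ∀ j, S.zpA (S.ρ (g * g') i j) = ∑ k, S.zpA (S.ρ g i k) * S.zpA (S.ρ g' k j) := by
    intro j
    rw [S.ρ_mul g hg g' hg', Matrix.mul_apply, map_sum]
    exact Finset.sum_congr rfl fun k _ => map_mul _ _ _
  simp only [e1, map_sum, map_mul, S.gal_zpA, S.gal_mul, Finset.sum_mul, Finset.mul_sum]
  rw [Finset.sum_comm]
  exact Finset.sum_congr rfl fun j _ => Finset.sum_congr rfl fun k _ => by ring

/-- The condition `k + (p-1)/(pr) v^♭(x_k) → ∞` on `x ∈ Ã`. -/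
def IsOC (r : ℝ) (x : S.At) : Prop :=
  IsOverconvergent (p := S.p) (F := CFlat S.p) (vFlat S.p) r x

/-- The valuation `w_r` on `Ã`. -/
noncomputable def wA (r : ℝ) (x : S.At) : EReal := w (p := S.p) (F := CFlat S.p) (vFlat S.p) r x

/-- The valuation on `Ã ⊗ T = Ã^h`. -/
noncomputable def wT (r : ℝ) (x : S.AtT) : EReal := ⨅ i, S.wA r (x i)

/-- the exponent -/
noncomputable abbrev sr (r : {r : ℝ // 0 < r}) : ℝ := sOf S.p r

theorem sr_pos (r : {r : ℝ // 0 < r}) : 0 < S.sr r := sOf_pos r.2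

theorem isOC_iff (r : {r : ℝ // 0 < r}) (x : S.At) :
    S.IsOC r x ↔ OC (p := S.p) (F := CFlat S.p) (vFlat S.p) (S.sr r) x :=
  isOverconvergent_iff r.2 _

variable (r : {r : ℝ // 0 < r})

theorem OC_mul {x y : S.At} (hx : S.IsOC r x) (hy : S.IsOC r y) : S.IsOC r (x * y) :=
  (S.isOC_iff r _).2 (OC.mul (S.sr_pos r) ((S.isOC_iff r x).1 hx) ((S.isOC_iff r y).1 hy))

theorem OC_add {x y : S.At} (hx : S.IsOC r x) (hy : S.IsOC r y) : S.IsOC r (x + y) :=
  (S.isOC_iff r _).2 (OC.add (S.sr_pos r) ((S.isOC_iff r x).1 hx) ((S.isOC_iff r y).1 hy))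

theorem OC_neg {x : S.At} (hx : S.IsOC r x) : S.IsOC r (-x) :=
  (S.isOC_iff r _).2 (OC.neg (S.sr_pos r) ((S.isOC_iff r x).1 hx))

theorem OC_one : S.IsOC r 1 := (S.isOC_iff r _).2 (OC.one (S.sr_pos r))

theorem OC_zero : S.IsOC r 0 := (S.isOC_iff r _).2 OC.zero

/-- The ring `Ã^{†,r}`. -/
def ringA : Subring S.At where
  carrier := {x | S.IsOC r x}
  mul_mem' := S.OC_mul r
  one_mem' := S.OC_one r
  add_mem' := S.OC_add r
  zero_mem' := S.OC_zero r
  neg_mem' := S.OC_neg r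

/-- The condition defining `Ã_K^{†,r}`. -/
def InAK (x : S.At) : Prop := x ∈ S.ringA r ∧ ∀ g ∈ S.HK, S.gal g x = x

theorem AK_mul {x y : S.At} (hx : S.InAK r x) (hy : S.InAK r y) : S.InAK r (x * y) :=
  ⟨(S.ringA r).mul_mem hx.1 hy.1, fun g hg => by rw [map_mul, hx.2 g hg, hy.2 g hg]⟩

theorem AK_add {x y : S.At} (hx : S.InAK r x) (hy : S.InAK r y) : S.InAK r (x + y) :=
  ⟨(S.ringA r).add_mem hx.1 hy.1, fun g hg => by rw [map_add, hx.2 g hg, hy.2 g hg]⟩

theorem AK_neg {x : S.At} (hx : S.InAK r x) : S.InAK r (-x) :=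
  ⟨(S.ringA r).neg_mem hx.1, fun g hg => by rw [map_neg, hx.2 g hg]⟩

theorem AK_one : S.InAK r 1 := ⟨(S.ringA r).one_mem, fun g _ => map_one _⟩

theorem AK_zero : S.InAK r 0 := ⟨(S.ringA r).zero_mem, fun g _ => map_zero _⟩

/-- The ring `Ã_K^{†,r} = (Ã^{†,r})^{H_K}`. -/
def ringAK : Subring S.At where
  carrier := {x | S.InAK r x}
  mul_mem' := S.AK_mul r
  one_mem' := S.AK_one r
  add_mem' := S.AK_add r
  zero_mem' := S.AK_zero r
  neg_mem' := S.AK_neg r

/-- `Ã_K^{†,r}` as a type. -/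
def AK : Type := S.ringAK r

noncomputable def instAK : CommRing (S.AK r) := Subring.toCommRing (S.ringAK r)

attribute [instance] instAK

/-- The inclusion `Ã_K^{†,r} ⊂ Ã`. -/
noncomputable def inclAK : S.AK r →+* S.At := (S.ringAK r).subtype

noncomputable def instAKModule : Module (S.AK r) S.AtT := Module.compHom S.AtT (S.inclAK r)

attribute [instance] instAKModule

theorem smul_AtT (a : S.AK r) (x : S.AtT) : a • x = S.inclAK r a • x := rfl

/-- The condition defining `D̃_K^{†,r}(T)`. -/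
def InD (x : S.AtT) : Prop := (∀ i, x i ∈ S.ringA r) ∧ ∀ g ∈ S.HK, S.act g x = x

theorem D_add {x y : S.AtT} (hx : S.InD r x) (hy : S.InD r y) : S.InD r (x + y) :=
  ⟨fun i => (S.ringA r).add_mem (hx.1 i) (hy.1 i), fun g hg => by
    rw [S.act_add, hx.2 g hg, hy.2 g hg]⟩

theorem D_zero : S.InD r 0 :=
  ⟨fun i => (S.ringA r).zero_mem, fun g _ => by
    have := S.act_smul g 0 0
    rwa [zero_smul, map_zero, zero_smul] at this⟩

theorem D_smul (c : S.AK r) {x : S.AtT} (hx : S.InD r x) : S.InD r (c • x) :=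
  ⟨fun i => (S.ringA r).mul_mem c.2.1 (hx.1 i), fun g hg => by
    have := S.act_smul g (S.inclAK r c) x
    rw [hx.2 g hg] at this
    have e : S.gal g (S.inclAK r c) = S.inclAK r c := c.2.2 g hg
    rw [e] at this
    exact this⟩

/-- The `Ã_K^{†,r}`-module `D̃_K^{†,r}(T) = (Ã^{†,r} ⊗ T)^{H_K}`. -/
def modD : Submodule (S.AK r) S.AtT where
  carrier := {x | S.InD r x}
  add_mem' := S.D_add r
  zero_mem' := S.D_zero r
  smul_mem' := S.D_smul r

/-- `D̃_K^{†,r}(T)` as a type. -/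
def D : Type := S.modD r

noncomputable def instD : AddCommGroup (S.D r) := Submodule.addCommGroup (S.modD r)

attribute [instance] instD

noncomputable def instDModule : Module (S.AK r) (S.D r) := Submodule.module (S.modD r)

attribute [instance] instDModule

/-- The inclusion `D̃_K^{†,r}(T) ⊂ Ã ⊗ T`. -/
noncomputable def inclD : S.D r →ₗ[S.AK r] S.AtT := (S.modD r).subtype

/-- `a ∈ Ã_K^{†,r}` is locally analytic: `y ↦ g(a)` (`g ∈ G₀`, `c(g) = y`) is. -/
def LaA (a : S.AK r) : Prop := ∃ f : (Fin S.d → ℤ_[S.p]) → S.At,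
  (∀ g ∈ S.G₀, f (S.c g) = S.gal g (S.inclAK r a)) ∧ IsLocAn S.p (S.wA r) f

/-- `x ∈ D̃_K^{†,r}(T)` is locally analytic: `y ↦ g(x)` (`g ∈ G₀`, `c(g) = y`) is. -/
def LaD (x : S.D r) : Prop := ∃ f : (Fin S.d → ℤ_[S.p]) → S.AtT,
  (∀ g ∈ S.G₀, f (S.c g) = S.act g (S.inclD r x)) ∧ IsLocAn S.p (S.wT r) f

theorem laA_iff (a : S.AK r) : S.LaA r a ↔
    IsLocAn S.p (S.wA r) (fun y => S.gal (S.lift y) (S.inclAK r a)) := by
  constructor
  · rintro ⟨f, hf, h⟩
    have : f = fun y => S.gal (S.lift y) (S.inclAK r a) := by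
      funext y
      have := hf _ (S.lift_mem y)
      rwa [S.c_lift] at this
    rwa [this] at h
  · intro h
    refine ⟨_, fun g hg => ?_, h⟩
    obtain ⟨k, hk, hgk⟩ := S.lift_c hg
    have e : S.gal k (S.inclAK r a) = S.inclAK r a := a.2.2 k hk
    conv_rhs => rw [hgk, S.gal_mul, e]

theorem laD_iff (x : S.D r) : S.LaD r x ↔
    IsLocAn S.p (S.wT r) (fun y => S.act (S.lift y) (S.inclD r x)) := by
  constructor
  · rintro ⟨f, hf, h⟩
    have : f = fun y => S.act (S.lift y) (S.inclD r x) := by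
      funext y
      have := hf _ (S.lift_mem y)
      rwa [S.c_lift] at this
    rwa [this] at h
  · intro h
    refine ⟨_, fun g hg => ?_, h⟩
    obtain ⟨k, hk, hgk⟩ := S.lift_c hg
    have e : S.act k (S.inclD r x) = S.inclD r x := x.2.2 k hk
    conv_rhs => rw [hgk, S.act_mul (S.G₀_le _ (S.lift_mem _)) (S.HK_sub k hk), e]

theorem inclAK_iff (a : S.AK r) : S.LaA r a ↔ S.inclAK r a ∈ S.toDat.Sc (S.sr r) := by
  rw [S.laA_iff]
  have h1 := (S.isOC_iff r _).1 a.2.1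
  have h2 := isLocAn_iff (p := S.p) (F := CFlat S.p) (v := vFlat S.p) r.2
    (orb := fun y => S.gal (S.lift y) (S.inclAK r a)) (by
      obtain ⟨c, hc⟩ := h1.bd (S.sr_pos r)
      exact ⟨c, hc.map (fun a => vFlat_act _ a)⟩)
  refine Iff.trans h2 ?_
  exact ⟨fun h => ⟨h1, a.2.2, h⟩, fun h => h.2.2⟩

theorem inclD_iff (x : S.D r) : S.LaD r x ↔ S.inclD r x ∈ S.toDat.Mod (S.sr r) := by
  rw [S.laD_iff]
  have h1 : ∀ i, OC (p := S.p) (F := CFlat S.p) (vFlat S.p) (S.sr r) (S.inclD r x i) :=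
    fun i => (S.isOC_iff r _).1 (x.2.1 i)
  have h2 := isLocAn_vec_iff (p := S.p) (F := CFlat S.p) (v := vFlat S.p) r.2
    (orb := fun y => S.act (S.lift y) (S.inclD r x)) (by
      intro k
      have : S.act (S.lift 0) (S.inclD r x) = S.inclD r x := x.2.2 _ S.lift_zero
      simp only [this]
      exact (h1 k).bd (S.sr_pos r))
  refine Iff.trans h2 ?_
  exact ⟨fun h => ⟨h1, x.2.2, h⟩, fun h => h.2.2⟩

theorem Sc_mul {s : ℝ} (hs : 0 < s) {a b : S.At} (ha : a ∈ S.toDat.Sc s)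
    (hb : b ∈ S.toDat.Sc s) : a * b ∈ S.toDat.Sc s :=
  ⟨OC.mul hs ha.1 hb.1, fun g hg => by
    have := map_mul (S.gal g) a b
    rw [show S.gal g a = a from ha.2.1 g hg, show S.gal g b = b from hb.2.1 g hg] at this
    exact this, by
    have := La.mul hs ha.2.2 hb.2.2
    have e : (fun y => ga (S.toDat.γ y) (a * b)) =
        fun y => ga (S.toDat.γ y) a * ga (S.toDat.γ y) b := by
      funext y
      exact map_mul (S.gal _) a b
    exact e ▸ this⟩

theorem Sc_add {s : ℝ} (hs : 0 < s) {a b : S.At} (ha : a ∈ S.toDat.Sc s)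
    (hb : b ∈ S.toDat.Sc s) : a + b ∈ S.toDat.Sc s :=
  ⟨OC.add hs ha.1 hb.1, fun g hg => by
    have := map_add (S.gal g) a b
    rw [show S.gal g a = a from ha.2.1 g hg, show S.gal g b = b from hb.2.1 g hg] at this
    exact this, by
    have := La.add hs ha.2.2 hb.2.2
    have e : (fun y => ga (S.toDat.γ y) (a + b)) =
        fun y => ga (S.toDat.γ y) a + ga (S.toDat.γ y) b := by
      funext y
      exact map_add (S.gal _) a b
    exact e ▸ this⟩

theorem Sc_neg {s : ℝ} (hs : 0 < s) {a : S.At} (ha : a ∈ S.toDat.Sc s) :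
    -a ∈ S.toDat.Sc s :=
  ⟨OC.neg hs ha.1, fun g hg => by
    have := map_neg (S.gal g) a
    rw [show S.gal g a = a from ha.2.1 g hg] at this
    exact this, by
    have := La.neg hs ha.2.2
    have e : (fun y => ga (S.toDat.γ y) (-a)) = fun y => - ga (S.toDat.γ y) a := by
      funext y
      exact map_neg (S.gal _) a
    exact e ▸ this⟩

theorem Sc_one {s : ℝ} (hs : 0 < s) : (1 : S.At) ∈ S.toDat.Sc s :=
  ⟨OC.one hs, fun g _ => map_one (S.gal g), by
    have e : (fun y => ga (S.toDat.γ y) (1 : S.At)) = fun _ => (1 : S.At) := by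
      funext y
      exact map_one (S.gal _)
    have := La.const (v := vFlat S.p) (s := s) (d := S.d) (c := (1 : WittVector S.p (CFlat S.p)))
      ⟨0, Bd.one⟩
    exact e ▸ this⟩

theorem Sc_zero {s : ℝ} : (0 : S.At) ∈ S.toDat.Sc s :=
  ⟨OC.zero, fun g _ => map_zero (S.gal g), by
    have e : (fun y => ga (S.toDat.γ y) (0 : S.At)) = fun _ => (0 : S.At) := by
      funext y
      exact map_zero (S.gal _)
    have := La.const (v := vFlat S.p) (s := s) (d := S.d) (c := (0 : WittVector S.p (CFlat S.p)))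
      ⟨0, Bd.zero⟩
    exact e ▸ this⟩

theorem LaA_mul {a b : S.AK r} (ha : S.LaA r a) (hb : S.LaA r b) : S.LaA r (a * b) :=
  (S.inclAK_iff r (a * b)).2
    (S.Sc_mul (S.sr_pos r) ((S.inclAK_iff r a).1 ha) ((S.inclAK_iff r b).1 hb))

theorem LaA_add {a b : S.AK r} (ha : S.LaA r a) (hb : S.LaA r b) : S.LaA r (a + b) :=
  (S.inclAK_iff r (a + b)).2
    (S.Sc_add (S.sr_pos r) ((S.inclAK_iff r a).1 ha) ((S.inclAK_iff r b).1 hb))

theorem LaA_neg {a : S.AK r} (ha : S.LaA r a) : S.LaA r (-a) :=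
  (S.inclAK_iff r (-a)).2 (S.Sc_neg (S.sr_pos r) ((S.inclAK_iff r a).1 ha))

theorem LaA_one : S.LaA r 1 := (S.inclAK_iff r 1).2 (S.Sc_one (S.sr_pos r))

theorem LaA_zero : S.LaA r 0 := (S.inclAK_iff r 0).2 S.Sc_zero

/-- The ring `(Ã_K^{†,r})^{la}` of locally analytic elements of `Ã_K^{†,r}`. -/
def ringLa : Subring (S.AK r) where
  carrier := {a | S.LaA r a}
  mul_mem' := S.LaA_mul r
  one_mem' := S.LaA_one r
  add_mem' := S.LaA_add r
  zero_mem' := S.LaA_zero r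
  neg_mem' := S.LaA_neg r

/-- `(Ã_K^{†,r})^{la}` as a type. -/
def AKla : Type := S.ringLa r

noncomputable def instAKla : CommRing (S.AKla r) := Subring.toCommRing (S.ringLa r)

attribute [instance] instAKla

/-- The inclusion `(Ã_K^{†,r})^{la} ⊂ Ã_K^{†,r}`. -/
noncomputable def inclAKla : S.AKla r →+* S.AK r := (S.ringLa r).subtype

noncomputable def instAKlaAlg : Algebra (S.AKla r) (S.AK r) := RingHom.toAlgebra (S.inclAKla r)

attribute [instance] instAKlaAlg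

noncomputable def instDModuleLa : Module (S.AKla r) (S.D r) :=
  Module.compHom (S.D r) (S.inclAKla r)

attribute [instance] instDModuleLa

theorem instTower : IsScalarTower (S.AKla r) (S.AK r) (S.D r) :=
  ⟨fun a b x => by
    have e : (a • b) = S.inclAKla r a * b := rfl
    rw [e]
    exact mul_smul (S.inclAKla r a) b x⟩

attribute [instance] instTower

theorem Mod_smul {s : ℝ} (hs : 0 < s) {c : S.At} {x : S.AtT}
    (hc : c ∈ S.toDat.Sc s) (hx : x ∈ S.toDat.Mod s) : (c • x : S.AtT) ∈ S.toDat.Mod s := by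
  have := S.toDat.Mod_sum (Finset.univ : Finset Unit) hs (c := fun _ => c) (x := fun _ => x)
    (fun _ _ => hc) (fun _ _ => hx)
  have e : (c • x : S.AtT) = fun i => c * x i := rfl
  rw [e]
  simp only [Finset.univ_unique, Finset.sum_singleton] at this
  exact this

theorem Mod_add {s : ℝ} (hs : 0 < s) {x y : S.AtT}
    (hx : x ∈ S.toDat.Mod s) (hy : y ∈ S.toDat.Mod s) : (x + y : S.AtT) ∈ S.toDat.Mod s := by
  refine ⟨fun i => OC.add hs (hx.1 i) (hy.1 i), fun g hg => ?_, fun i => ?_⟩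
  · have := S.toDat.tw_add g x y
    rw [hx.2.1 g hg, hy.2.1 g hg] at this
    exact this
  · have e : (fun t => S.toDat.tw (S.toDat.γ t) (x + y : S.AtT) i) =
        fun t => S.toDat.tw (S.toDat.γ t) x i + S.toDat.tw (S.toDat.γ t) y i := by
      funext t
      exact congrFun (S.toDat.tw_add _ x y) i
    exact e ▸ La.add hs (hx.2.2 i) (hy.2.2 i)

theorem Mod_zero {s : ℝ} : (0 : S.AtT) ∈ S.toDat.Mod s := by
  have h1 : ∀ g, S.toDat.tw g (0 : S.AtT) = (0 : S.AtT) := fun g => by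
    have := S.act_smul g 0 0
    rw [zero_smul, map_zero, zero_smul] at this
    exact this
  refine ⟨fun i => OC.zero, fun g _ => h1 g, fun i => ?_⟩
  have e : (fun t => S.toDat.tw (S.toDat.γ t) (0 : S.AtT) i) = fun _ => (0 : S.At) := by
    funext t
    exact congrFun (h1 _) i
  have := La.const (v := vFlat S.p) (s := s) (d := S.d) (c := (0 : WittVector S.p (CFlat S.p)))
    ⟨0, Bd.zero⟩
  exact e ▸ this

theorem LaD_add {x y : S.D r} (hx : S.LaD r x) (hy : S.LaD r y) : S.LaD r (x + y) :=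
  (S.inclD_iff r (x + y)).2
    (S.Mod_add (S.sr_pos r) ((S.inclD_iff r x).1 hx) ((S.inclD_iff r y).1 hy))

theorem LaD_zero : S.LaD r 0 := (S.inclD_iff r 0).2 S.Mod_zero

theorem LaD_smul (c : S.AKla r) {x : S.D r} (hx : S.LaD r x) : S.LaD r (c • x) :=
  (S.inclD_iff r (c • x)).2
    (S.Mod_smul (S.sr_pos r) ((S.inclAK_iff r c.1).1 c.2) ((S.inclD_iff r x).1 hx))

/-- The `(Ã_K^{†,r})^{la}`-module `D̃_K^{†,r}(T)^{la}` of locally analytic elements of
`D̃_K^{†,r}(T)`. -/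
def modLa : Submodule (S.AKla r) (S.D r) where
  carrier := {x | S.LaD r x}
  add_mem' := S.LaD_add r
  zero_mem' := S.LaD_zero r
  smul_mem' := S.LaD_smul r

/-- `D̃_K^{†,r}(T)^{la}` as a type. -/
def Dla : Type := S.modLa r

noncomputable def instDla : AddCommGroup (S.Dla r) := Submodule.addCommGroup (S.modLa r)

attribute [instance] instDla

noncomputable def instDlaModule : Module (S.AKla r) (S.Dla r) := Submodule.module (S.modLa r)

attribute [instance] instDlaModule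

/-- The inclusion `D̃_K^{†,r}(T)^{la} ⊂ D̃_K^{†,r}(T)`. -/
noncomputable def inclDla : S.Dla r →ₗ[S.AKla r] S.D r := (S.modLa r).subtype

/-- The tensor product `Ã_K^{†,r} ⊗_{(Ã_K^{†,r})^{la}} D̃_K^{†,r}(T)^{la}`. -/
def Tens : Type := S.AK r ⊗[S.AKla r] S.Dla r

noncomputable def mulLin : S.AK r ⊗[S.AKla r] S.Dla r →ₗ[S.AK r] S.D r :=
  LinearMap.liftBaseChange (S.AK r) (S.inclDla r)

/-- The multiplication map `Ã_K^{†,r} ⊗_{(Ã_K^{†,r})^{la}} D̃_K^{†,r}(T)^{la} → D̃_K^{†,r}(T)`,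
`a ⊗ x ↦ a x`. -/
noncomputable def mulMap (t : S.Tens r) : S.D r := S.mulLin r t

theorem mulLin_tmul (a : S.AK r) (x : S.Dla r) :
    S.mulLin r (a ⊗ₜ x) = a • S.inclDla r x := by
  simp [mulLin]

/-- `T = ℤ_p^h`. -/
abbrev T : Type := Fin S.h → ℤ_[S.p]

/-- The `ℤ_p`-submodules of `T`. -/
abbrev SubT : Type := Submodule ℤ_[S.p] S.T

/-- `T'` is a direct summand of `T`. -/
def IsSummand (T' : S.SubT) : Prop := ∃ T'' : S.SubT, IsCompl T' T''

/-- `T'` is stable under `H_K`. -/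
def IsStable (T' : S.SubT) : Prop := ∀ g ∈ S.HK, ∀ t ∈ T', (S.ρ g).mulVec t ∈ T'

/-- The rank of `T'` over `ℤ_p`. -/
noncomputable def rk (T' : S.SubT) : ℕ := Module.finrank ℤ_[S.p] T'

/-- `(Ã_K^{†,r})^{la}`-module `D̃_K^{†,r}(T)^{la}` is free of rank `n`. -/
def LaFree (n : ℕ) : Prop :=
  Module.Free (S.AKla r) (S.Dla r) ∧ Module.finrank (S.AKla r) (S.Dla r) = n

/-- The elements of `(Ã^{†,r} ⊗ T')^{H_K} = D̃_K^{†,r}(T) ∩ (Ã^{†,r} ⊗ T')`, where `Ã^{†,r} ⊗ T'`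
is the set of finite sums `∑ a_j t_j` with `a_j ∈ Ã^{†,r}` and `t_j ∈ T'`. -/
def DSub (T' : S.SubT) : Set (S.D r) :=
  {x | ∃ (m : ℕ) (a : Fin m → S.At) (t : Fin m → S.T), (∀ j, a j ∈ S.ringA r) ∧
    (∀ j, t j ∈ T') ∧ ∀ i, S.inclD r x i = ∑ j, a j * S.zpA (t j i)}

end Setup

end Run7.h89.Ked
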