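import Mathlib

/-!
Teichmuller coordinates of Witt vectors over a perfect field with a valuation.
-/

set_option linter.unusedSectionVars false

namespace Run7.h89

open WittVector

section basic

variable {p : ℕ} [hp : Fact p.Prime] {F : Type*} [Field F] [CharP F p] [PerfectRing F p]

/-- the `k`-th Teichmuller coordinate `x_k` of `x = ∑ p^k [x_k]`. -/
noncomputable def tc (x : WittVector p F) (k : ℕ) : F :=
  ((_root_.frobeniusEquiv F p).symm ^ k) (x.coeff k)

theorem tc_pow (x : WittVector p F) (k : ℕ) : tc x k ^ p ^ k = x.coeff k := by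
  unfold tc
  generalize x.coeff k = a
  induction k generalizing a with
  | zero => simp
  | succ k ih =>
    have h1 : ((_root_.frobeniusEquiv F p).symm ^ (k + 1)) a
        = ((_root_.frobeniusEquiv F p).symm ^ k) ((_root_.frobeniusEquiv F p).symm a) := by
      rw [pow_succ]; rfl
    rw [h1, pow_succ, pow_mul, ih]
    exact frobeniusEquiv_symm_pow_p F p a

theorem pow_inj' {a b : F} (k : ℕ) (h : a ^ p ^ k = b ^ p ^ k) : a = b := by
  exact (iterateFrobenius_inj F p k) (by simpa [iterateFrobenius_def] using h)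

theorem tc_eq_iff (x : WittVector p F) (k : ℕ) (a : F) : tc x k = a ↔ x.coeff k = a ^ p ^ k := by
  constructor
  · rintro rfl; exact (tc_pow x k).symm
  · intro h; exact pow_inj' (p := p) k (by rw [tc_pow, h])

theorem tc_eq_zero_iff (x : WittVector p F) (k : ℕ) : tc x k = 0 ↔ x.coeff k = 0 := by
  rw [tc_eq_iff, zero_pow (pow_ne_zero _ hp.out.ne_zero)]

theorem tc_zero_right (x : WittVector p F) : tc x 0 = x.coeff 0 := by
  rw [tc_eq_iff]; simp

@[simp] theorem tc_zero (k : ℕ) : tc (0 : WittVector p F) k = 0 := by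
  rw [tc_eq_zero_iff]; simp

theorem ext_tc {x y : WittVector p F} (h : ∀ k, tc x k = tc y k) : x = y := by
  ext k
  rw [← tc_pow x k, ← tc_pow y k, h k]

/-- congruent mod `p^N`. -/
theorem coeff_congr {x y : WittVector p F} {N : ℕ} (h : (p : WittVector p F) ^ N ∣ x - y) {k : ℕ}
    (hk : k < N) : x.coeff k = y.coeff k := by
  rw [← Ideal.mem_span_singleton, mem_span_p_pow_iff_le_coeff_eq_zero,
    ← le_coeff_eq_iff_le_sub_coeff_eq_zero] at h
  exact h k hk

theorem tc_congr {x y : WittVector p F} {N : ℕ} (h : (p : WittVector p F) ^ N ∣ x - y) {k : ℕ}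
    (hk : k < N) : tc x k = tc y k := by
  rw [tc_eq_iff, tc_pow, coeff_congr h hk]

theorem dvd_sub_of_coeff {x y : WittVector p F} {N : ℕ} (h : ∀ k < N, x.coeff k = y.coeff k) :
    (p : WittVector p F) ^ N ∣ x - y := by
  rw [← Ideal.mem_span_singleton, mem_span_p_pow_iff_le_coeff_eq_zero,
    ← le_coeff_eq_iff_le_sub_coeff_eq_zero]
  exact h

theorem dvd_sub_of_tc {x y : WittVector p F} {N : ℕ} (h : ∀ k < N, tc x k = tc y k) :
    (p : WittVector p F) ^ N ∣ x - y := by
  refine dvd_sub_of_coeff fun k hk => ?_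
  rw [← tc_pow x k, ← tc_pow y k, h k hk]

/-- finite Teichmuller sum -/
noncomputable def fsum (b : ℕ → F) (N : ℕ) : WittVector p F :=
  ∑ i ∈ Finset.range N, teichmuller p (b i) * (p : WittVector p F) ^ i

theorem coeff_fsum (b : ℕ → F) (N n : ℕ) :
    (fsum (p := p) b N).coeff n = if n < N then b n ^ p ^ n else 0 := by
  classical
  unfold fsum
  rw [WittVector.sum_coeff_eq_coeff_sum]
  · split_ifs with h
    · rw [Finset.sum_eq_single_of_mem n (Finset.mem_range.2 h)]
      · exact teichmuller_mul_pow_coeff _ _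
      · intro m _ hm
        exact teichmuller_mul_pow_coeff_of_ne _ hm.symm
    · refine Finset.sum_eq_zero fun m hm => ?_
      have : n ≠ m := by
        rintro rfl; exact h (Finset.mem_range.1 hm)
      exact teichmuller_mul_pow_coeff_of_ne _ this
  · refine fun n ↦ ⟨fun ⟨a, _, ha⟩ ⟨b, _, hb⟩ ↦ ?_⟩
    ext
    dsimp only
    rw [← Not.imp_symm (teichmuller_mul_pow_coeff_of_ne _) ha]
    exact Not.imp_symm (teichmuller_mul_pow_coeff_of_ne _) hb

theorem tc_fsum (b : ℕ → F) {N n : ℕ} (h : n < N) : tc (fsum (p := p) b N) n = b n := by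
  rw [tc_eq_iff, coeff_fsum, if_pos h]

theorem dvd_sub_fsum (x : WittVector p F) (N : ℕ) :
    (p : WittVector p F) ^ N ∣ x - fsum (tc x) N :=
  dvd_sub_of_tc fun _ hk => (tc_fsum _ hk).symm

theorem teichmuller_mul_fsum (a : F) (b : ℕ → F) (N : ℕ) :
    teichmuller p a * fsum b N = fsum (fun i => a * b i) N := by
  simp [fsum, Finset.mul_sum, mul_assoc]

theorem tc_teichmuller_mul (a : F) (x : WittVector p F) (k : ℕ) :
    tc (teichmuller p a * x) k = a * tc x k := by
  have h1 : (p : WittVector p F) ^ (k + 1) ∣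
      teichmuller p a * x - fsum (fun i => a * tc x i) (k + 1) := by
    rw [← teichmuller_mul_fsum, ← mul_sub]
    exact (dvd_sub_fsum x (k + 1)).mul_left _
  rw [tc_congr h1 (Nat.lt_succ_self k), tc_fsum _ (Nat.lt_succ_self k)]

theorem tc_p_mul_succ (x : WittVector p F) (k : ℕ) :
    tc ((p : WittVector p F) * x) (k + 1) = tc x k := by
  rw [tc_eq_iff]
  have := WittVector.mul_pow_charP_coeff_succ x (m := k) (n := 1)
  rw [pow_one, mul_comm] at this
  rw [this, pow_succ p k, pow_mul, tc_pow, pow_one]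

theorem tc_p_mul_zero (x : WittVector p F) : tc ((p : WittVector p F) * x) 0 = 0 := by
  rw [tc_eq_zero_iff]
  have := WittVector.mul_pow_charP_coeff_zero x (m := 0) (n := 1) (by norm_num)
  rwa [pow_one, mul_comm] at this

theorem tc_teichmuller_mul_p_pow (a : F) (n k : ℕ) :
    tc (teichmuller p a * (p : WittVector p F) ^ n) k = if k = n then a else 0 := by
  split_ifs with h
  · subst h; rw [tc_eq_iff, teichmuller_mul_pow_coeff]
  · rw [tc_eq_zero_iff]; exact teichmuller_mul_pow_coeff_of_ne _ h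

theorem tc_teichmuller (a : F) (k : ℕ) :
    tc (teichmuller p a) k = if k = 0 then a else 0 := by
  have := tc_teichmuller_mul_p_pow (p := p) a 0 k
  simpa using this

end basic

section val

variable {p : ℕ} [hp : Fact p.Prime] {F : Type*} [Field F] [CharP F p] [PerfectRing F p]
variable (v : Valuation F NNReal)

/-- Witt vectors with integral coordinates. -/
noncomputable def wint : Subring (WittVector p F) := (WittVector.map (p := p) (v.integer.subtype)).range

theorem coeff_le_of_wint {x : WittVector p F} (hx : x ∈ wint (p := p) v) (n : ℕ) :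
    v (x.coeff n) ≤ 1 := by
  obtain ⟨y, rfl⟩ := hx
  rw [WittVector.map_coeff]
  exact (y.coeff n).2

theorem tc_le_of_wint {x : WittVector p F} (hx : x ∈ wint (p := p) v) (n : ℕ) :
    v (tc x n) ≤ 1 := by
  have h := coeff_le_of_wint v hx n
  rw [← tc_pow, map_pow] at h
  exact (pow_le_one_iff (pow_ne_zero _ hp.out.ne_zero)).1 h

theorem teichmuller_mem_wint {a : F} (ha : v a ≤ 1) : teichmuller p a ∈ wint (p := p) v := by
  refine ⟨teichmuller p ⟨a, ha⟩, ?_⟩
  rw [WittVector.map_teichmuller]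
  rfl

theorem fsum_mem_wint {b : ℕ → F} (hb : ∀ i, v (b i) ≤ 1) (N : ℕ) :
    fsum (p := p) b N ∈ wint (p := p) v := by
  refine Subring.sum_mem _ fun i _ => ?_
  refine Subring.mul_mem _ (teichmuller_mem_wint v (hb i)) ?_
  exact Subring.pow_mem _ (natCast_mem _ p) _

theorem tc_add_le {x y : WittVector p F} {k : ℕ} {ρ : NNReal}
    (hx : ∀ i ≤ k, v (tc x i) ≤ ρ) (hy : ∀ i ≤ k, v (tc y i) ≤ ρ) :
    v (tc (x + y) k) ≤ ρ := by
  classical
  -- choose the maximum
  obtain ⟨a, ha1, ha2⟩ : ∃ a : F, v a ≤ ρ ∧ ∀ i ≤ k, v (tc x i) ≤ v a ∧ v (tc y i) ≤ v a := by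
    obtain ⟨i, hi, hi2⟩ := Finset.exists_max_image (Finset.range (k + 1)) (fun i => v (tc x i))
      ⟨0, by simp⟩
    obtain ⟨j, hj, hj2⟩ := Finset.exists_max_image (Finset.range (k + 1)) (fun i => v (tc y i))
      ⟨0, by simp⟩
    rcases le_total (v (tc x i)) (v (tc y j)) with h | h
    · refine ⟨tc y j, hy j (by simpa [Nat.lt_succ_iff] using hj), fun l hl => ⟨?_, ?_⟩⟩
      · exact (hi2 l (by simpa [Nat.lt_succ_iff] using hl)).trans h
      · exact hj2 l (by simpa [Nat.lt_succ_iff] using hl)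
    · refine ⟨tc x i, hx i (by simpa [Nat.lt_succ_iff] using hi), fun l hl => ⟨?_, ?_⟩⟩
      · exact hi2 l (by simpa [Nat.lt_succ_iff] using hl)
      · exact (hj2 l (by simpa [Nat.lt_succ_iff] using hl)).trans h
  rcases eq_or_ne a 0 with h0 | h0
  · subst h0
    have hx0 : ∀ i < k + 1, tc x i = tc (0 : WittVector p F) i := fun i hi => by
      have := (ha2 i (Nat.lt_succ_iff.1 hi)).1
      rw [map_zero] at this
      rw [tc_zero]
      exact (map_eq_zero v).1 (le_antisymm this zero_le)
    have hy0 : ∀ i < k + 1, tc y i = tc (0 : WittVector p F) i := fun i hi => by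
      have := (ha2 i (Nat.lt_succ_iff.1 hi)).2
      rw [map_zero] at this
      rw [tc_zero]
      exact (map_eq_zero v).1 (le_antisymm this zero_le)
    have h1 := dvd_add (dvd_sub_of_tc hx0) (dvd_sub_of_tc hy0)
    have h2 : (p : WittVector p F) ^ (k + 1) ∣ (x + y) - 0 := by
      convert h1 using 1; ring
    rw [tc_congr h2 (Nat.lt_succ_self k)]
    simp
  · set bx : ℕ → F := fun i => if i ≤ k then a⁻¹ * tc x i else 0 with hbx
    set byy : ℕ → F := fun i => if i ≤ k then a⁻¹ * tc y i else 0 with hby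
    have hva : v a ≠ 0 := (map_ne_zero v).2 h0
    have h1 : ∀ i, v (bx i) ≤ 1 := by
      intro i
      simp only [hbx]
      split_ifs with h
      · rw [map_mul, map_inv₀]
        have := (ha2 i h).1
        calc (v a)⁻¹ * v (tc x i) ≤ (v a)⁻¹ * v a := by gcongr
          _ = 1 := inv_mul_cancel₀ hva
      · simp
    have h2 : ∀ i, v (byy i) ≤ 1 := by
      intro i
      simp only [hby]
      split_ifs with h
      · rw [map_mul, map_inv₀]
        have := (ha2 i h).2
        calc (v a)⁻¹ * v (tc y i) ≤ (v a)⁻¹ * v a := by gcongr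
          _ = 1 := inv_mul_cancel₀ hva
      · simp
    have h3 : (p : WittVector p F) ^ (k + 1) ∣ x - teichmuller p a * fsum bx (k + 1) := by
      refine dvd_sub_of_tc fun i hi => ?_
      rw [tc_teichmuller_mul, tc_fsum _ hi]
      simp only [hbx, if_pos (Nat.lt_succ_iff.1 hi)]
      field_simp
    have h4 : (p : WittVector p F) ^ (k + 1) ∣ y - teichmuller p a * fsum byy (k + 1) := by
      refine dvd_sub_of_tc fun i hi => ?_
      rw [tc_teichmuller_mul, tc_fsum _ hi]
      simp only [hby, if_pos (Nat.lt_succ_iff.1 hi)]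
      field_simp
    have h5 : (p : WittVector p F) ^ (k + 1) ∣
        (x + y) - teichmuller p a * (fsum bx (k + 1) + fsum byy (k + 1)) := by
      convert dvd_add h3 h4 using 1; ring
    rw [tc_congr h5 (Nat.lt_succ_self k), tc_teichmuller_mul, map_mul]
    have h6 : v (tc (fsum (p := p) bx (k + 1) + fsum byy (k + 1)) k) ≤ 1 :=
      tc_le_of_wint v (Subring.add_mem _ (fsum_mem_wint v h1 _) (fsum_mem_wint v h2 _)) k
    calc v a * _ ≤ v a * 1 := by gcongr
      _ = v a := mul_one _
      _ ≤ ρ := ha1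

theorem tc_sum_le {ι : Type*} (S : Finset ι) (f : ι → WittVector p F) {k : ℕ} {ρ : NNReal}
    (hf : ∀ s ∈ S, ∀ i ≤ k, v (tc (f s) i) ≤ ρ) : ∀ i ≤ k, v (tc (∑ s ∈ S, f s) i) ≤ ρ := by
  classical
  induction S using Finset.induction_on with
  | empty => intro i _; simp
  | insert a S ha ih =>
    intro i hi
    rw [Finset.sum_insert ha]
    refine tc_add_le v (fun j hj => hf a (Finset.mem_insert_self _ _) j (hj.trans hi))
      (fun j hj => ?_)
    exact ih (fun s hs j hj => hf s (Finset.mem_insert_of_mem hs) j hj) j (hj.trans hi)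

theorem tc_neg_one_mul_le {x : WittVector p F} {k : ℕ} {ρ : NNReal}
    (hx : ∀ i ≤ k, v (tc x i) ≤ ρ) : v (tc (-x) k) ≤ ρ := by
  classical
  -- same scaling argument
  obtain ⟨a, ha1, ha2⟩ : ∃ a : F, v a ≤ ρ ∧ ∀ i ≤ k, v (tc x i) ≤ v a := by
    obtain ⟨i, hi, hi2⟩ := Finset.exists_max_image (Finset.range (k + 1)) (fun i => v (tc x i))
      ⟨0, by simp⟩
    exact ⟨tc x i, hx i (by simpa [Nat.lt_succ_iff] using hi), fun l hl =>
      hi2 l (by simpa [Nat.lt_succ_iff] using hl)⟩
  rcases eq_or_ne a 0 with h0 | h0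
  · subst h0
    have hx0 : ∀ i < k + 1, tc x i = tc (0 : WittVector p F) i := fun i hi => by
      have := (ha2 i (Nat.lt_succ_iff.1 hi))
      rw [map_zero] at this
      rw [tc_zero]
      exact (map_eq_zero v).1 (le_antisymm this zero_le)
    have h2 : (p : WittVector p F) ^ (k + 1) ∣ (-x) - 0 := by
      have := dvd_sub_of_tc hx0
      rw [sub_zero] at this ⊢
      exact (dvd_neg).2 this
    rw [tc_congr h2 (Nat.lt_succ_self k)]
    simp
  · set bx : ℕ → F := fun i => if i ≤ k then a⁻¹ * tc x i else 0 with hbx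
    have hva : v a ≠ 0 := (map_ne_zero v).2 h0
    have h1 : ∀ i, v (bx i) ≤ 1 := by
      intro i
      simp only [hbx]
      split_ifs with h
      · rw [map_mul, map_inv₀]
        have := (ha2 i h)
        calc (v a)⁻¹ * v (tc x i) ≤ (v a)⁻¹ * v a := by gcongr
          _ = 1 := inv_mul_cancel₀ hva
      · simp
    have h3 : (p : WittVector p F) ^ (k + 1) ∣ x - teichmuller p a * fsum bx (k + 1) := by
      refine dvd_sub_of_tc fun i hi => ?_
      rw [tc_teichmuller_mul, tc_fsum _ hi]
      simp only [hbx, if_pos (Nat.lt_succ_iff.1 hi)]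
      field_simp
    have h5 : (p : WittVector p F) ^ (k + 1) ∣
        (-x) - teichmuller p a * (-fsum bx (k + 1)) := by
      have := (dvd_neg).2 h3
      convert this using 1; ring
    rw [tc_congr h5 (Nat.lt_succ_self k), tc_teichmuller_mul, map_mul]
    have h6 : v (tc (-fsum (p := p) bx (k + 1)) k) ≤ 1 :=
      tc_le_of_wint v (Subring.neg_mem _ (fsum_mem_wint v h1 _)) k
    calc v a * _ ≤ v a * 1 := by gcongr
      _ = v a := mul_one _
      _ ≤ ρ := ha1

theorem tc_mul_le {x y : WittVector p F} {k : ℕ} {ρ : NNReal}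
    (h : ∀ i j, i + j ≤ k → v (tc x i) * v (tc y j) ≤ ρ) : v (tc (x * y) k) ≤ ρ := by
  have h1 : (p : WittVector p F) ^ (k + 1) ∣
      x * y - fsum (tc x) (k + 1) * fsum (tc y) (k + 1) := by
    have := dvd_add ((dvd_sub_fsum x (k + 1)).mul_right y)
      ((dvd_sub_fsum y (k + 1)).mul_left (fsum (tc x) (k + 1)))
    convert this using 1; ring
  rw [tc_congr h1 (Nat.lt_succ_self k)]
  unfold fsum
  rw [Finset.sum_mul_sum]
  refine tc_sum_le v _ _ (fun i hi => tc_sum_le v _ _ fun j hj l hl => ?_) k le_rfl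
  have : teichmuller p (tc x i) * (p : WittVector p F) ^ i *
      (teichmuller p (tc y j) * (p : WittVector p F) ^ j)
      = teichmuller p (tc x i * tc y j) * (p : WittVector p F) ^ (i + j) := by
    rw [map_mul, pow_add]; ring
  rw [this, tc_teichmuller_mul_p_pow]
  split_ifs with h'
  · rw [map_mul]; exact h i j (by omega)
  · simp

end val

end Run7.h89
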