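import Pool.Agent.Run7.h89.Main4

/-!
`ℤ_p` inside `W(F)`, and the structure theorem.
-/

set_option linter.unusedSectionVars false

namespace Run7.h89

open WittVector Filter

variable {p : ℕ} [hp : Fact p.Prime] {F : Type*} [Field F] [CharP F p] [PerfectRing F p]
variable {G : Type*} [Group G] [MulSemiringAction G F] {h d : ℕ}

/-- the canonical map `ℤ_p → W(F)` -/
noncomputable def zp : ℤ_[p] →+* WittVector p F :=
  (WittVector.map (ZMod.castHom (dvd_refl p) F)).comp (WittVector.equiv p).symm.toRingHom

theorem zp_injective : Function.Injective (zp : ℤ_[p] →+* WittVector p F) := by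
  unfold zp
  rw [RingHom.coe_comp]
  refine Function.Injective.comp ?_ (WittVector.equiv p).symm.injective
  exact WittVector.map_injective _ (ZMod.castHom_injective F)

theorem cast_pow (a : ZMod p) : (ZMod.castHom (dvd_refl p) F a) ^ p = ZMod.castHom (dvd_refl p) F a := by
  rw [← map_pow, ZMod.pow_card]

theorem frobenius_zp (z : ℤ_[p]) : WittVector.frobenius (zp z : WittVector p F) = zp z := by
  ext k
  rw [WittVector.coeff_frobenius_charP]
  simp only [zp, RingHom.comp_apply, WittVector.map_coeff]
  exact cast_pow _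

theorem ga_zp (g : G) (z : ℤ_[p]) : ga g (zp z : WittVector p F) = zp z := by
  ext k
  simp only [ga, zp, RingHom.comp_apply, WittVector.map_coeff]
  set a := ((WittVector.equiv p).symm.toRingHom z).coeff k
  have : (MulSemiringAction.toRingHom G F g).comp (ZMod.castHom (dvd_refl p) F) =
      ZMod.castHom (dvd_refl p) F := RingHom.ext_zmod _ _
  exact RingHom.congr_fun this a

theorem exists_zp {x : WittVector p F} (hx : WittVector.frobenius x = x) : ∃ z : ℤ_[p], zp z = x := by
  have h1 : ∀ k, ∃ a : ZMod p, ZMod.castHom (dvd_refl p) F a = x.coeff k := by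
    intro k
    have h2 : x.coeff k ^ p = x.coeff k := by
      rw [← WittVector.coeff_frobenius_charP, hx]
    have h3 := (Subfield.mem_bot_iff_pow_eq_self (p := p) (F := F)).2 h2
    let _ := ZMod.algebra F p
    have h4 : (⊥ : Subfield F) = (algebraMap (ZMod p) F).fieldRange := by
      exact Subfield.bot_eq_of_zMod_algebra p
    rw [h4] at h3
    obtain ⟨a, ha⟩ := h3
    exact ⟨a, by rw [← ha]; rfl⟩
  choose a ha using h1
  refine ⟨WittVector.equiv p (WittVector.mk p a), ?_⟩
  ext k
  simp only [zp, RingHom.comp_apply, WittVector.map_coeff]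
  rw [← ha k]
  congr 1
  have : (WittVector.equiv p).symm.toRingHom (WittVector.equiv p (WittVector.mk p a)) =
      WittVector.mk p a := (WittVector.equiv p).symm_apply_apply _
  rw [this, WittVector.coeff_mk]

theorem tc_zp_le (v : Valuation F NNReal) (z : ℤ_[p]) (k : ℕ) :
    v (tc (zp z : WittVector p F) k) ≤ 1 := by
  have h1 : (zp z : WittVector p F).coeff k ^ p = (zp z : WittVector p F).coeff k := by
    rw [← WittVector.coeff_frobenius_charP, frobenius_zp]
  have h2 : v ((zp z : WittVector p F).coeff k) ≤ 1 := by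
    set t := (zp z : WittVector p F).coeff k with ht
    rcases eq_or_ne t 0 with h0 | h0
    · rw [h0, map_zero]; exact zero_le_one
    · have h3 : v t ^ p = v t := by rw [← map_pow, h1]
      have h4 : v t ≠ 0 := (map_ne_zero v).2 h0
      have h5 : v t ^ (p - 1) = 1 := by
        have h3' : v t ^ ((p - 1) + 1) = v t := by
          rw [Nat.sub_add_cancel hp.out.one_le]; exact h3
        rw [pow_succ] at h3'
        exact (mul_eq_right₀ h4).1 h3'
      have h6 : p - 1 ≠ 0 := by
        have := hp.out.two_le
        omega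
      exact (pow_eq_one_iff_of_nonneg zero_le h6).1 h5 |>.le
  rw [← tc_pow, map_pow] at h2
  exact (pow_le_one_iff (pow_ne_zero _ hp.out.ne_zero)).1 h2

theorem zp_OC (v : Valuation F NNReal) {s : ℝ} (hs : 0 < s) (z : ℤ_[p]) :
    OC v s (zp z : WittVector p F) := OC.of_tc_le_one hs (tc_zp_le v z)

theorem zp_Bd (v : Valuation F NNReal) {s : ℝ} (hs : 0 < s) (z : ℤ_[p]) :
    Bd v s 0 (zp z : WittVector p F) := Bd.of_tc_le_one hs (tc_zp_le v z)

end Run7.h89
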